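import Pool.Agent.W5h35.LW.Reg

/-!
# A lower bound for the area of the points of large discrepancy
-/

set_option autoImplicit false

namespace Pool.Agent.W5h35.LW

open Filter Topology MeasureTheory Set

variable {q : ℕ}

theorem vol_low (hq : 3 ≤ q) (α : Fin q → ℤ × ℤ)
    (hα : ∀ i j, i ≠ j → (α i).1 * (α j).2 ≠ (α j).1 * (α i).2) :
    ∃ c : ℝ, 0 < c ∧ ∀ τ : ℝ, 0 ≤ τ → ∀ w : ℕ, w ≠ 0 →
      ENNReal.ofReal (c * Real.exp (-((1 - 2 / (q : ℝ)) * τ))) ≤
        volume (Rf α univ \ Rg α univ w τ) := by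
  obtain ⟨i, hi, hi'⟩ := exists_both hq α hα
  obtain ⟨a, ha⟩ : ∃ a : ℝ, a = ((α i).1 : ℝ) := ⟨_, rfl⟩
  obtain ⟨b, hb⟩ : ∃ b : ℝ, b = ((α i).2 : ℝ) := ⟨_, rfl⟩
  have ha1 : 1 ≤ |a| := by
    rw [ha]
    exact_mod_cast Int.one_le_abs hi
  have ha0 : 0 < |a| := by linarith
  have haa : a ≠ 0 := abs_pos.1 ha0
  obtain ⟨K, hK⟩ : ∃ K : ℝ, K = 3 + 2 * |b| := ⟨_, rfl⟩
  have hK0 : 0 < K := by rw [hK]; positivity
  have hK1 : 1 ≤ K := by rw [hK]; linarith [abs_nonneg b]
  obtain ⟨D, hD⟩ : ∃ D : ℝ, D = ∏ j ∈ Finset.univ.erase i,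
      (|((α j).1 : ℝ)| + |((α j).2 : ℝ)| + 1) := ⟨_, rfl⟩
  have hD1 : 1 ≤ D := by
    rw [hD]
    have : ∏ j ∈ Finset.univ.erase i, (1 : ℝ) ≤ ∏ j ∈ Finset.univ.erase i,
        (|((α j).1 : ℝ)| + |((α j).2 : ℝ)| + 1) :=
      Finset.prod_le_prod (fun _ _ => by norm_num) fun j _ => by
        linarith [abs_nonneg ((α j).1 : ℝ), abs_nonneg ((α j).2 : ℝ)]
    simpa using this
  have hD0 : 0 < D := by linarith
  have hq0 : (0 : ℝ) < q := by exact_mod_cast (by omega : 0 < q)
  refine ⟨2 / (|a| * (D * K ^ (q - 1))), by positivity, fun τ hτ w hw => ?_⟩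
  obtain ⟨T, hT⟩ : ∃ T : ℝ, T = Real.exp (τ / q) := ⟨_, rfl⟩
  have hT1 : 1 ≤ T := by rw [hT]; exact Real.one_le_exp (by positivity)
  have hT0 : 0 < T := by linarith
  have hTq : T ^ q = Real.exp τ := by
    rw [hT, ← Real.exp_nat_mul, mul_div_cancel₀ _ hq0.ne']
  obtain ⟨η, hη⟩ : ∃ η : ℝ, η = 1 / (D * (K * T) ^ (q - 1)) := ⟨_, rfl⟩
  have hη0 : 0 < η := by rw [hη]; positivity
  have hKT : 1 ≤ (K * T) ^ (q - 1) := one_le_pow₀ (one_le_mul_of_one_le_of_one_le hK1 hT1)
  have hη1 : η ≤ 1 := by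
    rw [hη, div_le_one (by positivity)]
    exact one_le_mul_of_one_le_of_one_le hD1 hKT
  -- the set
  set E : Set (ℝ × ℝ) := regionBetween (fun x => x * b / a - η / |a|)
    (fun x => x * b / a + η / |a|) (Ioo T (2 * T)) with hE
  have hEsub : E ⊆ Rf α univ \ Rg α univ w τ := by
    rintro ⟨x, y⟩ ⟨hx, hy⟩
    simp only at hx hy
    obtain ⟨hx1, hx2⟩ := hx
    obtain ⟨hy1, hy2⟩ := hy
    have hx0 : 0 < x := by linarith
    have h1 : |x * b - y * a| ≤ η := by
      have h2 : |y - x * b / a| ≤ η / |a| := by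
        rw [abs_le]
        constructor <;> linarith
      have h3 : x * b - y * a = -(a * (y - x * b / a)) := by
        field_simp
        ring
      rw [h3, abs_neg, abs_mul]
      calc |a| * |y - x * b / a| ≤ |a| * (η / |a|) := mul_le_mul_of_nonneg_left h2 ha0.le
        _ = η := by field_simp
    have h4 : |y| ≤ K * T := by
      have h5 : |y * a| ≤ x * |b| + η := by
        have h6 : y * a = x * b - (x * b - y * a) := by ring
        rw [h6]
        calc |x * b - (x * b - y * a)| ≤ |x * b| + |x * b - y * a| := abs_sub _ _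
          _ ≤ x * |b| + η := by
            rw [abs_mul, abs_of_pos hx0]
            linarith
      rw [abs_mul] at h5
      have h7 : |y| ≤ |y| * |a| := by nlinarith [abs_nonneg y]
      have h8 : x * |b| ≤ 2 * T * |b| := mul_le_mul_of_nonneg_right hx2.le (abs_nonneg b)
      rw [hK]
      nlinarith [abs_nonneg b]
    have hmx : mx (x, y) ≤ K * T := by
      refine max_le ?_ h4
      show |x| ≤ K * T
      rw [abs_of_pos hx0, hK]
      nlinarith [abs_nonneg b, mul_nonneg (abs_nonneg b) hT0.le]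
    have hmx2 : T < mx (x, y) := by
      refine lt_of_lt_of_le hx1 ?_
      exact (le_abs_self x).trans (le_max_left _ _)
    have hF : Fr α (x, y) ≤ 1 := by
      unfold Fr
      rw [← Finset.mul_prod_erase _ _ (Finset.mem_univ i)]
      have h5 : ∏ j ∈ Finset.univ.erase i, |(x, y).1 * ((α j).2 : ℝ) - (x, y).2 * (α j).1| ≤
          D * (K * T) ^ (q - 1) := by
        have h6 : (K * T) ^ (q - 1) = ∏ _j ∈ (Finset.univ.erase i : Finset (Fin q)), (K * T) := by
          rw [Finset.prod_const, Finset.card_erase_of_mem (Finset.mem_univ i), Finset.card_univ,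
            Fintype.card_fin]
        rw [h6, hD, ← Finset.prod_mul_distrib]
        refine Finset.prod_le_prod (fun _ _ => abs_nonneg _) fun j _ => ?_
        have g1 : |x| ≤ mx (x, y) := le_max_left _ _
        have g2 : |y| ≤ mx (x, y) := le_max_right _ _
        calc |x * ((α j).2 : ℝ) - y * (α j).1| ≤ |x * ((α j).2 : ℝ)| + |y * (α j).1| := abs_sub _ _
          _ = |x| * |((α j).2 : ℝ)| + |y| * |((α j).1 : ℝ)| := by rw [abs_mul, abs_mul]
          _ ≤ (K * T) * |((α j).2 : ℝ)| + (K * T) * |((α j).1 : ℝ)| :=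
              add_le_add (mul_le_mul_of_nonneg_right (g1.trans hmx) (abs_nonneg _))
                (mul_le_mul_of_nonneg_right (g2.trans hmx) (abs_nonneg _))
          _ ≤ (|((α j).1 : ℝ)| + |((α j).2 : ℝ)| + 1) * (K * T) := by
              have : 0 < K * T := by positivity
              nlinarith
      have h7 : |(x, y).1 * ((α i).2 : ℝ) - (x, y).2 * (α i).1| ≤ η := by
        rw [ha, hb] at h1
        exact h1
      calc _ ≤ η * (D * (K * T) ^ (q - 1)) :=
            mul_le_mul h7 h5 (Finset.prod_nonneg fun _ _ => abs_nonneg _) hη0.le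
        _ = 1 := by
            rw [hη]
            have : D * (K * T) ^ (q - 1) ≠ 0 := by positivity
            field_simp
    refine ⟨⟨mem_univ _, hF⟩, fun h => ?_⟩
    have h5 : (w : ℝ) * mx (x, y) ^ q ≤ Real.exp τ * Fr α (x, y) := h.2.2
    have h6 : Real.exp τ * Fr α (x, y) ≤ Real.exp τ := by
      have := Real.exp_pos τ
      nlinarith
    have h7 : T ^ q < mx (x, y) ^ q := pow_lt_pow_left₀ hmx2 hT0.le (by omega)
    have hw1 : (1 : ℝ) ≤ w := by exact_mod_cast Nat.one_le_iff_ne_zero.2 hw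
    have h8 : mx (x, y) ^ q ≤ w * mx (x, y) ^ q := by
      have : 0 ≤ mx (x, y) ^ q := pow_nonneg (mx_nonneg _) _
      nlinarith
    rw [hTq] at h7
    linarith
  refine le_trans (le_of_eq ?_) (measure_mono hEsub)
  rw [hE, Measure.volume_eq_prod, volume_regionBetween_eq_lintegral (by fun_prop) (by fun_prop)
    measurableSet_Ioo]
  have h1 : ∀ x : ℝ, ENNReal.ofReal (((fun x => x * b / a + η / |a|) -
      fun x => x * b / a - η / |a|) x) = ENNReal.ofReal (2 * η / |a|) := by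
    intro x
    congr 1
    simp only [Pi.sub_apply]
    ring
  simp only [h1]
  rw [setLIntegral_const, Real.volume_Ioo, ← ENNReal.ofReal_mul (by positivity)]
  congr 1
  rw [hη]
  have h2 : Real.exp (-((1 - 2 / (q : ℝ)) * τ)) = T ^ 2 / T ^ q := by
    rw [hTq, hT, ← Real.exp_nat_mul, ← Real.exp_sub]
    congr 1
    push_cast
    field_simp
    ring
  rw [h2]
  have h3 : T ^ q = T ^ (q - 1) * T := by
    rw [← pow_succ]
    congr 1
    omega
  rw [h3, mul_pow]
  field_simp
  ring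

end Pool.Agent.W5h35.LW
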