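import Pool.Agent.W5h35.LW.Nat
import Pool.Agent.W5h35.LW.Vol

/-!
# The tail of the limit law
-/

set_option autoImplicit false

namespace Pool.Agent.W5h35.LW

open Filter Topology MeasureTheory

variable {q : ℕ}

theorem gt_le (hq : 3 ≤ q) (α : Fin q → ℤ × ℤ) (hcop : ∀ i, IsCoprime (α i).1 (α i).2)
    (hα : ∀ i j, i ≠ j → (α i).1 * (α j).2 ≠ (α j).1 * (α i).2) (S : Finset ℕ)
    (hB : Bnd α S) (Γ : Set (ℝ × ℝ)) (τ : ℝ) (w : ℕ) :
    gt α S Γ τ w ≤ aw α S w * volume.real (Rf α Γ) := by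
  have hfin := Rf_fin hq α hcop hα S hB
  have hsub : Rf α Γ ⊆ Rf α Set.univ := fun y hy => ⟨Set.mem_univ _, hy.2⟩
  have hfinΓ : volume (Rf α Γ) ≠ ⊤ := ne_top_of_le_ne_top hfin (measure_mono hsub)
  rw [gt_eq]
  exact mul_le_mul_of_nonneg_left (measureReal_mono (Rg_sub_Rf α Γ w τ) hfinΓ) (aw_nonneg α S w)

theorem tail_low (hq : 3 ≤ q) (α : Fin q → ℤ × ℤ) (hcop : ∀ i, IsCoprime (α i).1 (α i).2)
    (hα : ∀ i j, i ≠ j → (α i).1 * (α j).2 ≠ (α j).1 * (α i).2) (S : Finset ℕ)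
    (hB : Bnd α S) : ∃ c : ℝ, 0 < c ∧ ∀ τ : ℝ, 0 ≤ τ →
      c * Real.exp (-((1 - 2 / (q : ℝ)) * τ)) ≤
        1 / 2 * ∑' w, aw α S w * volume.real (Rf α Set.univ) -
          1 / 2 * ∑' w, gt α S Set.univ τ w := by
  obtain ⟨w₀, hw₀⟩ := exists_pos hq α hcop hα S hB
  have h0 : w₀ ≠ 0 := by
    rintro rfl
    rw [aw_zero (by omega)] at hw₀
    exact lt_irrefl _ hw₀
  obtain ⟨c, hc, hvol⟩ := vol_low hq α hα
  have hfin := Rf_fin hq α hcop hα S hB
  refine ⟨1 / 2 * aw α S w₀ * c, by positivity, fun τ hτ => ?_⟩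
  have hs1 : Summable fun w => aw α S w * volume.real (Rf α Set.univ) :=
    (aw_summable hq α hcop hα S hB).mul_right _
  have hs2 : Summable fun w => gt α S Set.univ τ w :=
    Summable.of_nonneg_of_le (fun w => gt_nonneg α S _ τ w)
      (fun w => gt_le hq α hcop hα S hB Set.univ τ w) hs1
  rw [← mul_sub, ← hs1.tsum_sub hs2]
  have h1 : aw α S w₀ * (volume.real (Rf α Set.univ) - volume.real (Rg α Set.univ w₀ τ)) ≤
      ∑' w, (aw α S w * volume.real (Rf α Set.univ) - gt α S Set.univ τ w) := by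
    have h2 := (hs1.sub hs2).le_tsum w₀ fun w _ => by
      have := gt_le hq α hcop hα S hB Set.univ τ w
      linarith
    refine le_trans (le_of_eq ?_) h2
    rw [gt_eq]
    ring
  have h2 : c * Real.exp (-((1 - 2 / (q : ℝ)) * τ)) ≤
      volume.real (Rf α Set.univ) - volume.real (Rg α Set.univ w₀ τ) := by
    have h3 := hvol τ hτ w₀ h0
    have h4 : volume (Rf α Set.univ \ Rg α Set.univ w₀ τ) =
        volume (Rf α Set.univ) - volume (Rg α Set.univ w₀ τ) :=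
      measure_sdiff (Rg_sub_Rf α _ w₀ τ) (Rg_meas α MeasurableSet.univ w₀ τ).nullMeasurableSet
        (Rg_bdd (by omega) α _ h0 τ).measure_lt_top.ne
    rw [h4] at h3
    have h5 := ENNReal.toReal_mono (ne_top_of_le_ne_top hfin tsub_le_self) h3
    rw [ENNReal.toReal_ofReal (by positivity), ENNReal.toReal_sub_of_le
      (measure_mono (Rg_sub_Rf α _ w₀ τ)) hfin] at h5
    exact h5
  calc 1 / 2 * aw α S w₀ * c * Real.exp (-((1 - 2 / (q : ℝ)) * τ))
      = 1 / 2 * (aw α S w₀ * (c * Real.exp (-((1 - 2 / (q : ℝ)) * τ)))) := by ring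
    _ ≤ 1 / 2 * (aw α S w₀ * (volume.real (Rf α Set.univ) -
          volume.real (Rg α Set.univ w₀ τ))) := by
        gcongr
    _ ≤ _ := by gcongr

theorem tail_up (hq : 3 ≤ q) (α : Fin q → ℤ × ℤ) (hcop : ∀ i, IsCoprime (α i).1 (α i).2)
    (hα : ∀ i j, i ≠ j → (α i).1 * (α j).2 ≠ (α j).1 * (α i).2) (S : Finset ℕ)
    (hB : Bnd α S) {θ : ℝ} (h0 : 0 ≤ θ) (h1 : θ < 1 - 2 / q) :
    ∃ C : ℝ, 0 < C ∧ ∀ τ : ℝ, 0 ≤ τ →
      1 / 2 * ∑' w, aw α S w * volume.real (Rf α Set.univ) -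
          1 / 2 * ∑' w, gt α S Set.univ τ w ≤ C * Real.exp (-(θ * τ)) := by
  obtain ⟨C, ν, hC, hν, hd⟩ := diff_le α S hB Set.univ Set.univ h0 h1
  refine ⟨C, hC, fun τ hτ => ?_⟩
  have e1 := lim_all hq α hcop hα S hB Hom_univ MeasurableSet.univ (by simp) Set.univ
  have e2 := lim_tau' hq α hcop hα S Hom_univ MeasurableSet.univ (by simp) Set.univ τ
  have e3 : Tendsto (fun X : ℝ => C * (Real.exp (-(θ * τ)) + X ^ (-ν))) atTop
      (𝓝 (C * (Real.exp (-(θ * τ)) + 0))) :=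
    (tendsto_const_nhds.add (tendsto_rpow_neg_atTop hν)).const_mul C
  rw [add_zero] at e3
  have e4 := le_of_tendsto_of_tendsto e1 (e2.add e3) (by
    filter_upwards [eventually_ge_atTop 1] with X hX
    exact (hd X τ hX hτ).2)
  simp only [Set.indicator_univ] at e4
  linarith

end Pool.Agent.W5h35.LW
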