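import Pool.Agent.W5h35.LW.Loc

/-!
# The exceptional points are few
-/

set_option autoImplicit false

namespace Pool.Agent.W5h35.LW

open Filter Topology MeasureTheory

variable {q : ℕ}

/-- the square -/
noncomputable def Qd (N : ℕ) : Finset (ℤ × ℤ) :=
  Finset.Icc (-(N : ℤ)) N ×ˢ Finset.Icc (-(N : ℤ)) N

theorem mem_Qd {N : ℕ} {x : ℤ × ℤ} :
    x ∈ Qd N ↔ ((-(N : ℤ)) ≤ x.1 ∧ x.1 ≤ N) ∧ (-(N : ℤ)) ≤ x.2 ∧ x.2 ≤ N := by
  unfold Qd
  rw [Finset.mem_product, Finset.mem_Icc, Finset.mem_Icc]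

theorem card_cong {N m : ℕ} (hm : 0 < m) (T : Finset ℤ)
    (hT : ∀ x ∈ T, -(N : ℤ) ≤ x ∧ x ≤ N) (h : ∀ x ∈ T, ∀ y ∈ T, (m : ℤ) ∣ x - y) :
    T.card ≤ 2 * N / m + 1 := by
  have hm' : (0 : ℤ) < m := by exact_mod_cast hm
  have h1 : T.card ≤ (Finset.Icc (0 : ℤ) ((2 * N / m : ℕ) : ℤ)).card := by
    refine Finset.card_le_card_of_injOn (fun x => (x + N) / m) ?_ ?_
    · intro x hx
      rw [Finset.mem_coe] at hx
      obtain ⟨g1, g2⟩ := hT x hx
      rw [Finset.mem_coe, Finset.mem_Icc]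
      refine ⟨Int.ediv_nonneg (by omega) hm'.le, ?_⟩
      push_cast
      exact Int.ediv_le_ediv hm' (by omega)
    · intro x hx y hy hxy
      simp only at hxy
      obtain ⟨k, hk⟩ := h x hx y hy
      have e : x + N = (y + N) + m * k := by linarith
      rw [e, Int.add_mul_ediv_left _ _ hm'.ne'] at hxy
      have : k = 0 := by linarith
      rw [this] at hk
      linarith
  rw [Int.card_Icc] at h1
  have h2 : (((2 * N / m : ℕ) : ℤ) + 1 - 0).toNat = 2 * N / m + 1 := by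
    rw [sub_zero]
    exact Int.toNat_natCast (2 * N / m + 1)
  rw [h2] at h1
  exact h1

theorem line_card {N m : ℕ} (hm : 0 < m) (a b : ℤ) (T : Finset (ℤ × ℤ)) (hT : T ⊆ Qd N)
    (h : ∀ x ∈ T, (m : ℤ) ∣ x.1 * b - x.2 * a)
    (hab : IsCoprime (m : ℤ) a ∨ IsCoprime (m : ℤ) b) :
    T.card ≤ (2 * N + 1) * (2 * N / m + 1) := by
  classical
  have hcard : (Finset.Icc (-(N : ℤ)) N).card = 2 * N + 1 := by
    rw [Int.card_Icc]; omega
  rcases hab with ha | hb
  · rw [Finset.card_eq_sum_card_fiberwise (f := Prod.fst) (t := Finset.Icc (-(N : ℤ)) N)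
      (fun x hx => by
        have := mem_Qd.1 (hT (Finset.mem_coe.1 hx))
        rw [Finset.mem_coe, Finset.mem_Icc]
        exact this.1), ← hcard]
    refine Finset.sum_le_card_nsmul _ _ _ fun c _ => ?_
    have e : (T.filter fun x => x.1 = c).card = ((T.filter fun x => x.1 = c).image Prod.snd).card := by
      rw [Finset.card_image_of_injOn]
      intro x hx y hy hxy
      rw [Finset.mem_coe, Finset.mem_filter] at hx hy
      exact Prod.ext (hx.2.trans hy.2.symm) hxy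
    rw [e]
    refine card_cong hm _ ?_ ?_
    · intro x hx
      rw [Finset.mem_image] at hx
      obtain ⟨y, hy, rfl⟩ := hx
      exact (mem_Qd.1 (hT (Finset.mem_filter.1 hy).1)).2
    · intro x hx y hy
      rw [Finset.mem_image] at hx hy
      obtain ⟨u, hu, rfl⟩ := hx
      obtain ⟨v, hv, rfl⟩ := hy
      rw [Finset.mem_filter] at hu hv
      have h1 := dvd_sub (h u hu.1) (h v hv.1)
      rw [hu.2, hv.2] at h1
      have h2 : (m : ℤ) ∣ (u.2 - v.2) * a := by
        rw [← dvd_neg]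
        convert h1 using 1
        ring
      exact ha.dvd_of_dvd_mul_right h2
  · rw [Finset.card_eq_sum_card_fiberwise (f := Prod.snd) (t := Finset.Icc (-(N : ℤ)) N)
      (fun x hx => by
        have := mem_Qd.1 (hT (Finset.mem_coe.1 hx))
        rw [Finset.mem_coe, Finset.mem_Icc]
        exact this.2), ← hcard]
    refine Finset.sum_le_card_nsmul _ _ _ fun c _ => ?_
    have e : (T.filter fun x => x.2 = c).card = ((T.filter fun x => x.2 = c).image Prod.fst).card := by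
      rw [Finset.card_image_of_injOn]
      intro x hx y hy hxy
      rw [Finset.mem_coe, Finset.mem_filter] at hx hy
      exact Prod.ext hxy (hx.2.trans hy.2.symm)
    rw [e]
    refine card_cong hm _ ?_ ?_
    · intro x hx
      rw [Finset.mem_image] at hx
      obtain ⟨y, hy, rfl⟩ := hx
      exact (mem_Qd.1 (hT (Finset.mem_filter.1 hy).1)).1
    · intro x hx y hy
      rw [Finset.mem_image] at hx hy
      obtain ⟨u, hu, rfl⟩ := hx
      obtain ⟨v, hv, rfl⟩ := hy
      rw [Finset.mem_filter] at hu hv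
      have h1 := dvd_sub (h u hu.1) (h v hv.1)
      rw [hu.2, hv.2] at h1
      have h2 : (m : ℤ) ∣ (u.1 - v.1) * b := by
        have e2 : (u.1 - v.1) * b = u.1 * b - c * a - (v.1 * b - c * a) := by ring
        rw [e2]
        exact h1
      exact hb.dvd_of_dvd_mul_right h2

theorem coprime_pow {p : ℕ} (hp : p.Prime) {a b : ℤ} (hab : IsCoprime a b) (k : ℕ) :
    IsCoprime ((p ^ k : ℕ) : ℤ) a ∨ IsCoprime ((p ^ k : ℕ) : ℤ) b := by
  have hpZ : Prime (p : ℤ) := Nat.prime_iff_prime_int.1 hp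
  by_cases h1 : (p : ℤ) ∣ a
  · right
    have h2 : ¬ (p : ℤ) ∣ b := fun h => coprime_not_dvd (x := (a, b)) hab hp ⟨h1, h⟩
    rw [Nat.cast_pow]
    exact ((Prime.coprime_iff_not_dvd hpZ).2 h2).pow_left
  · left
    rw [Nat.cast_pow]
    exact ((Prime.coprime_iff_not_dvd hpZ).2 h1).pow_left

theorem zero_card {N : ℕ} (a b : ℤ) (hab : IsCoprime a b) (T : Finset (ℤ × ℤ)) (hT : T ⊆ Qd N)
    (h : ∀ x ∈ T, x.1 * b - x.2 * a = 0) : T.card ≤ 2 * N + 1 := by
  obtain ⟨p, hp, hpp⟩ := Nat.exists_infinite_primes (2 * N + 1)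
  have h1 := line_card (N := N) (m := p ^ 1) (pow_pos hpp.pos _) a b T hT
    (fun x hx => by rw [h x hx]; exact dvd_zero _) (coprime_pow hpp hab 1)
  have h2 : 2 * N / p ^ 1 = 0 := Nat.div_eq_of_lt (by rw [pow_one]; omega)
  rw [h2] at h1
  simpa using h1

theorem inv_sq_sum (P M : ℕ) (hP : 1 ≤ P) :
    ∑ n ∈ Finset.Ico P M, (1 : ℝ) / (n : ℝ) ^ 2 ≤ 2 / P := by
  obtain ⟨k, rfl⟩ : ∃ k, P = k + 1 := ⟨P - 1, by omega⟩
  have h := sum_Ioo_inv_sq_le (α := ℝ) k M
  have e : Finset.Ioo k M = Finset.Ico (k + 1) M := by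
    ext n; rw [Finset.mem_Ioo, Finset.mem_Ico]; omega
  rw [e] at h
  push_cast
  simpa [one_div] using h

theorem both_card {N p : ℕ} (hp : 0 < p) (T : Finset (ℤ × ℤ)) (hT : T ⊆ Qd N)
    (h : ∀ x ∈ T, (p : ℤ) ∣ x.1 ∧ (p : ℤ) ∣ x.2) : T.card ≤ (2 * N / p + 1) * (2 * N / p + 1) := by
  classical
  have h1 : T ⊆ (T.image Prod.fst) ×ˢ (T.image Prod.snd) := by
    intro x hx
    rw [Finset.mem_product]
    exact ⟨Finset.mem_image_of_mem _ hx, Finset.mem_image_of_mem _ hx⟩
  refine (Finset.card_le_card h1).trans ?_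
  rw [Finset.card_product]
  refine Nat.mul_le_mul (card_cong hp _ ?_ ?_) (card_cong hp _ ?_ ?_)
  · intro x hx
    rw [Finset.mem_image] at hx
    obtain ⟨y, hy, rfl⟩ := hx
    exact (mem_Qd.1 (hT hy)).1
  · intro x hx y hy
    rw [Finset.mem_image] at hx hy
    obtain ⟨u, hu, rfl⟩ := hx
    obtain ⟨v, hv, rfl⟩ := hy
    exact dvd_sub (h u hu).1 (h v hv).1
  · intro x hx
    rw [Finset.mem_image] at hx
    obtain ⟨y, hy, rfl⟩ := hx
    exact (mem_Qd.1 (hT hy)).2
  · intro x hx y hy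
    rw [Finset.mem_image] at hx hy
    obtain ⟨u, hu, rfl⟩ := hx
    obtain ⟨v, hv, rfl⟩ := hy
    exact dvd_sub (h u hu).2 (h v hv).2

/-- a bound for the coefficients -/
def Cf (α : Fin q → ℤ × ℤ) : ℕ := ∑ i, ((α i).1.natAbs + (α i).2.natAbs)

theorem Lf_le (α : Fin q → ℤ × ℤ) (i : Fin q) {N : ℕ} {x : ℤ × ℤ} (hx : x ∈ Qd N) :
    (Lf α i x).natAbs ≤ Cf α * N := by
  have h1 : (α i).1.natAbs + (α i).2.natAbs ≤ Cf α :=
    Finset.single_le_sum (f := fun i => (α i).1.natAbs + (α i).2.natAbs)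
      (fun _ _ => Nat.zero_le _) (Finset.mem_univ i)
  obtain ⟨⟨g1, g2⟩, g3, g4⟩ := mem_Qd.1 hx
  have g5 : x.1.natAbs ≤ N := by omega
  have g6 : x.2.natAbs ≤ N := by omega
  unfold Lf
  calc (x.1 * (α i).2 - x.2 * (α i).1).natAbs
      ≤ (x.1 * (α i).2).natAbs + (x.2 * (α i).1).natAbs := Int.natAbs_sub_le _ _
    _ = x.1.natAbs * (α i).2.natAbs + x.2.natAbs * (α i).1.natAbs := by
        rw [Int.natAbs_mul, Int.natAbs_mul]
    _ ≤ N * (α i).2.natAbs + N * (α i).1.natAbs :=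
        Nat.add_le_add (Nat.mul_le_mul_right _ g5) (Nat.mul_le_mul_right _ g6)
    _ = ((α i).1.natAbs + (α i).2.natAbs) * N := by ring
    _ ≤ _ := Nat.mul_le_mul_right _ h1

open Classical in
theorem Bd_card (hq : 1 ≤ q) (α : Fin q → ℤ × ℤ) (hcop : ∀ i, IsCoprime (α i).1 (α i).2) :
    ∃ C : ℝ, 0 < C ∧ ∀ P N : ℕ, 1 ≤ P → 1 ≤ N →
      (((Qd N).filter (· ∈ Bd α P)).card : ℝ) ≤ C * ((N : ℝ) ^ 2 / P + (N : ℝ) * Real.sqrt N) := by
  refine ⟨3 * q + 18 + q * (12 + 3 * (Real.sqrt (Cf α) + 1)), by positivity,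
    fun P N hP hN => ?_⟩
  have hNR : (1 : ℝ) ≤ N := by exact_mod_cast hN
  have hPR : (1 : ℝ) ≤ P := by exact_mod_cast hP
  have hsN : (1 : ℝ) ≤ Real.sqrt N := Real.one_le_sqrt.2 hNR
  set R : ℕ := Nat.sqrt (Cf α * N) with hR
  let Z : Fin q → Finset (ℤ × ℤ) := fun i => (Qd N).filter fun x => Lf α i x = 0
  let D : ℕ → Finset (ℤ × ℤ) := fun p => (Qd N).filter fun x => (p : ℤ) ∣ x.1 ∧ (p : ℤ) ∣ x.2
  let E : Fin q → ℕ → Finset (ℤ × ℤ) := fun i p => if p.Prime then
    (Qd N).filter fun x => (p : ℤ) ^ 2 ∣ Lf α i x else ∅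
  have hcov : (Qd N).filter (· ∈ Bd α P) ⊆ (Finset.univ.biUnion Z) ∪
      (((Finset.Ico P (N + 1)).biUnion D) ∪
        (Finset.univ.biUnion fun i => (Finset.Ico P (R + 1)).biUnion (E i))) := by
    intro x hx
    obtain ⟨hx1, hx2⟩ := Finset.mem_filter.1 hx
    by_cases h0 : ∃ i, Lf α i x = 0
    · obtain ⟨i, hi⟩ := h0
      refine Finset.mem_union_left _ (Finset.mem_biUnion.2 ⟨i, Finset.mem_univ _, ?_⟩)
      exact Finset.mem_filter.2 ⟨hx1, hi⟩
    · push Not at h0
      rcases hx2 with ⟨i, hi⟩ | ⟨p, hp, hpp, h2⟩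
      · exact absurd hi (h0 i)
      · refine Finset.mem_union_right _ ?_
        rcases h2 with h2 | ⟨i, h2⟩
        · refine Finset.mem_union_left _ (Finset.mem_biUnion.2 ⟨p, ?_, Finset.mem_filter.2 ⟨hx1, h2⟩⟩)
          rw [Finset.mem_Ico]
          refine ⟨hp, ?_⟩
          obtain ⟨⟨g1, g2⟩, g3, g4⟩ := mem_Qd.1 hx1
          have hx0 : x.1 ≠ 0 ∨ x.2 ≠ 0 := by
            by_contra hcon
            push Not at hcon
            exact h0 ⟨0, hq⟩ (by unfold Lf; rw [hcon.1, hcon.2]; ring)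
          rcases hx0 with h | h
          · have h3 := Int.le_of_dvd (Int.natCast_pos.2 (Int.natAbs_pos.2 h))
              ((Int.dvd_natAbs).2 h2.1)
            omega
          · have h3 := Int.le_of_dvd (Int.natCast_pos.2 (Int.natAbs_pos.2 h))
              ((Int.dvd_natAbs).2 h2.2)
            omega
        · refine Finset.mem_union_right _ (Finset.mem_biUnion.2 ⟨i, Finset.mem_univ _,
            Finset.mem_biUnion.2 ⟨p, ?_, ?_⟩⟩)
          · rw [Finset.mem_Ico]
            refine ⟨hp, Nat.lt_succ_of_le ?_⟩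
            rw [hR, Nat.le_sqrt']
            have h3 : p ^ 2 ∣ (Lf α i x).natAbs := by
              rw [← Int.natCast_dvd_natCast, Int.dvd_natAbs, Nat.cast_pow]
              exact h2
            exact (Nat.le_of_dvd (Int.natAbs_pos.2 (h0 i)) h3).trans (Lf_le α i hx1)
          · show x ∈ (if p.Prime then _ else _)
            rw [if_pos hpp]
            exact Finset.mem_filter.2 ⟨hx1, h2⟩
  have b1 : ((Finset.univ.biUnion Z).card : ℝ) ≤ q * (3 * N) := by
    have : (Finset.univ.biUnion Z).card ≤ ∑ i : Fin q, (2 * N + 1) :=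
      Finset.card_biUnion_le.trans (Finset.sum_le_sum fun i _ => zero_card _ _ (hcop i) _
        (Finset.filter_subset _ _) fun x hx => (Finset.mem_filter.1 hx).2)
    rw [Finset.sum_const, Finset.card_univ, Fintype.card_fin, smul_eq_mul] at this
    have h2 : ((Finset.univ.biUnion Z).card : ℝ) ≤ q * (2 * N + 1) := by exact_mod_cast this
    refine h2.trans (mul_le_mul_of_nonneg_left (by linarith) (Nat.cast_nonneg _))
  have b2 : (((Finset.Ico P (N + 1)).biUnion D).card : ℝ) ≤ 18 * (N : ℝ) ^ 2 / P := by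
    have h1 : (((Finset.Ico P (N + 1)).biUnion D).card : ℝ) ≤
        ∑ p ∈ Finset.Ico P (N + 1), ((D p).card : ℝ) := by
      exact_mod_cast Finset.card_biUnion_le
    refine h1.trans ?_
    have h2 : ∀ p ∈ Finset.Ico P (N + 1), ((D p).card : ℝ) ≤ 9 * (N : ℝ) ^ 2 * (1 / (p : ℝ) ^ 2) := by
      intro p hp
      rw [Finset.mem_Ico] at hp
      have hp0 : 0 < p := by omega
      have hpR : (0 : ℝ) < p := by exact_mod_cast hp0
      have h3 := both_card hp0 (D p) (Finset.filter_subset _ _)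
        fun x hx => (Finset.mem_filter.1 hx).2
      have h4 : ((2 * N / p + 1 : ℕ) : ℝ) ≤ 3 * N / p := by
        have h5 : ((2 * N / p : ℕ) : ℝ) ≤ ((2 * N : ℕ) : ℝ) / p := Nat.cast_div_le
        have h6 : (1 : ℝ) ≤ N / p := by
          rw [le_div_iff₀ hpR, one_mul]
          exact_mod_cast (by omega : p ≤ N)
        push_cast at h5 ⊢
        calc _ ≤ 2 * (N : ℝ) / p + N / p := add_le_add h5 h6
          _ = _ := by ring
      calc ((D p).card : ℝ) ≤ ((2 * N / p + 1 : ℕ) : ℝ) * ((2 * N / p + 1 : ℕ) : ℝ) := by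
            exact_mod_cast h3
        _ ≤ (3 * N / p) * (3 * N / p) := mul_le_mul h4 h4 (Nat.cast_nonneg _) (by positivity)
        _ = _ := by field_simp; ring
    refine (Finset.sum_le_sum h2).trans ?_
    rw [← Finset.mul_sum]
    refine (mul_le_mul_of_nonneg_left (inv_sq_sum P (N + 1) hP) (by positivity)).trans
      (le_of_eq ?_)
    ring
  have b3 : ∀ i, (((Finset.Ico P (R + 1)).biUnion (E i)).card : ℝ) ≤
      12 * (N : ℝ) ^ 2 / P + 3 * N * (R + 1) := by
    intro i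
    have h1 : (((Finset.Ico P (R + 1)).biUnion (E i)).card : ℝ) ≤
        ∑ p ∈ Finset.Ico P (R + 1), ((E i p).card : ℝ) := by
      exact_mod_cast Finset.card_biUnion_le
    refine h1.trans ?_
    have h2 : ∀ p ∈ Finset.Ico P (R + 1), ((E i p).card : ℝ) ≤
        6 * (N : ℝ) ^ 2 * (1 / (p : ℝ) ^ 2) + 3 * N := by
      intro p hp
      rw [Finset.mem_Ico] at hp
      have hp0 : 0 < p := by omega
      have hpR : (0 : ℝ) < p := by exact_mod_cast hp0
      by_cases hpp : p.Prime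
      · have h3 : (E i p).card ≤ (2 * N + 1) * (2 * N / p ^ 2 + 1) := by
          refine line_card (pow_pos hp0 2) (α i).1 (α i).2 _ ?_ ?_ (coprime_pow hpp (hcop i) 2)
          · have e3 : E i p = (Qd N).filter fun x => (p : ℤ) ^ 2 ∣ Lf α i x := if_pos hpp
            rw [e3]
            exact Finset.filter_subset _ _
          · intro x hx
            change x ∈ (if p.Prime then _ else _) at hx
            rw [if_pos hpp] at hx
            rw [Nat.cast_pow]
            exact (Finset.mem_filter.1 hx).2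
        have h5 : ((2 * N / p ^ 2 : ℕ) : ℝ) ≤ ((2 * N : ℕ) : ℝ) / ((p ^ 2 : ℕ) : ℝ) :=
          Nat.cast_div_le
        push_cast at h5
        calc ((E i p).card : ℝ) ≤ (2 * N + 1) * (((2 * N / p ^ 2 : ℕ) : ℝ) + 1) := by
              exact_mod_cast h3
          _ ≤ (3 * N) * (2 * N / p ^ 2 + 1) :=
              mul_le_mul (by linarith) (by linarith) (by positivity) (by positivity)
          _ = _ := by field_simp; ring
      · have : E i p = ∅ := by
          show (if p.Prime then _ else _) = _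
          rw [if_neg hpp]
        rw [this, Finset.card_empty, Nat.cast_zero]
        positivity
    refine (Finset.sum_le_sum h2).trans ?_
    rw [Finset.sum_add_distrib, ← Finset.mul_sum, Finset.sum_const, Nat.card_Ico, nsmul_eq_mul]
    have h3 : ((R + 1 - P : ℕ) : ℝ) ≤ R + 1 := by exact_mod_cast Nat.sub_le _ _
    have h4 := mul_le_mul_of_nonneg_left (inv_sq_sum P (R + 1) hP)
      (by positivity : 0 ≤ 6 * (N : ℝ) ^ 2)
    have h5 := mul_le_mul_of_nonneg_right h3 (by positivity : 0 ≤ 3 * (N : ℝ))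
    have e : 6 * (N : ℝ) ^ 2 * (2 / P) = 12 * (N : ℝ) ^ 2 / P := by ring
    rw [e] at h4
    linarith
  have b4 : ((Finset.univ.biUnion fun i => (Finset.Ico P (R + 1)).biUnion (E i)).card : ℝ) ≤
      q * (12 * (N : ℝ) ^ 2 / P + 3 * N * (R + 1)) := by
    have h1 : ((Finset.univ.biUnion fun i => (Finset.Ico P (R + 1)).biUnion (E i)).card : ℝ) ≤
        ∑ i : Fin q, (((Finset.Ico P (R + 1)).biUnion (E i)).card : ℝ) := by
      exact_mod_cast Finset.card_biUnion_le
    refine h1.trans ((Finset.sum_le_sum fun i _ => b3 i).trans (le_of_eq ?_))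
    rw [Finset.sum_const, Finset.card_univ, Fintype.card_fin, nsmul_eq_mul]
  have hRR : (R : ℝ) ≤ Real.sqrt (Cf α) * Real.sqrt N := by
    rw [← Real.sqrt_mul (Nat.cast_nonneg _)]
    refine Real.le_sqrt_of_sq_le ?_
    have := Nat.sqrt_le' (Cf α * N)
    rw [← hR] at this
    exact_mod_cast this
  have htot : (((Qd N).filter (· ∈ Bd α P)).card : ℝ) ≤ q * (3 * N) + (18 * (N : ℝ) ^ 2 / P +
      q * (12 * (N : ℝ) ^ 2 / P + 3 * N * (R + 1))) := by
    have h1 := (Finset.card_le_card hcov).trans ((Finset.card_union_le _ _).trans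
      (Nat.add_le_add_left (Finset.card_union_le _ _) _))
    have h2 : (((Qd N).filter (· ∈ Bd α P)).card : ℝ) ≤ ((Finset.univ.biUnion Z).card : ℝ) +
        ((((Finset.Ico P (N + 1)).biUnion D).card : ℝ) +
        ((Finset.univ.biUnion fun i => (Finset.Ico P (R + 1)).biUnion (E i)).card : ℝ)) := by
      exact_mod_cast h1
    linarith
  refine htot.trans ?_
  set s := Real.sqrt N
  set c := Real.sqrt (Cf α) with hc
  have hc0 : 0 ≤ c := Real.sqrt_nonneg _
  have hq0 : (0 : ℝ) ≤ q := Nat.cast_nonneg _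
  set A := (N : ℝ) ^ 2 / P with hA
  have hA0 : 0 ≤ A := by positivity
  have hNs : (N : ℝ) ≤ N * s := by nlinarith
  have e1 : 18 * (N : ℝ) ^ 2 / P = 18 * A := by rw [hA]; ring
  have e2 : 12 * (N : ℝ) ^ 2 / P = 12 * A := by rw [hA]; ring
  rw [e1, e2]
  have h3 : 3 * (N : ℝ) * (R + 1) ≤ 3 * (c + 1) * (N * s) := by
    have : (N : ℝ) * (R + 1) ≤ (c + 1) * (N * s) := by
      have h4 : (N : ℝ) * R ≤ N * (c * s) := mul_le_mul_of_nonneg_left hRR (by positivity)
      nlinarith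
    linarith
  have hB0 : (0 : ℝ) ≤ N * s := by positivity
  have h5 : (q : ℝ) * (3 * N) ≤ 3 * q * (N * s) := by nlinarith
  have h6 : (q : ℝ) * (12 * A + 3 * N * (R + 1)) ≤ q * (12 * A + 3 * (c + 1) * (N * s)) :=
    mul_le_mul_of_nonneg_left (by linarith) hq0
  have h7 : 0 ≤ (q : ℝ) * A := by positivity
  have h8 : 0 ≤ (q : ℝ) * (N * s) := by positivity
  have h9 : 0 ≤ (q : ℝ) * (c * A) := by positivity
  have h10 : 0 ≤ (q : ℝ) * (c * (N * s)) := by positivity
  nlinarith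

end Pool.Agent.W5h35.LW
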