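import Pool.Agent.W5h35.LW.Lat

/-!
# The regions
-/

set_option autoImplicit false

namespace Pool.Agent.W5h35.LW

open Filter Topology MeasureTheory Set

variable {q : ℕ}

/-- the product of the values of the linear forms at a real point -/
noncomputable def Fr (α : Fin q → ℤ × ℤ) (y : ℝ × ℝ) : ℝ :=
  ∏ i, |y.1 * (α i).2 - y.2 * (α i).1|

/-- the maximum norm -/
noncomputable def mx (y : ℝ × ℝ) : ℝ := max |y.1| |y.2|

/-- the region -/
def Rg (α : Fin q → ℤ × ℤ) (Γ : Set (ℝ × ℝ)) (w : ℕ) (τ : ℝ) : Set (ℝ × ℝ) :=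
  {y | y ∈ Γ ∧ Fr α y ≤ 1 ∧ (w : ℝ) * mx y ^ q ≤ Real.exp τ * Fr α y}

/-- the full region -/
def Rf (α : Fin q → ℤ × ℤ) (Γ : Set (ℝ × ℝ)) : Set (ℝ × ℝ) := {y | y ∈ Γ ∧ Fr α y ≤ 1}

theorem Fr_nonneg (α : Fin q → ℤ × ℤ) (y : ℝ × ℝ) : 0 ≤ Fr α y :=
  Finset.prod_nonneg fun _ _ => abs_nonneg _

theorem mx_nonneg (y : ℝ × ℝ) : 0 ≤ mx y := le_max_of_le_left (abs_nonneg _)

theorem Fr_cont (α : Fin q → ℤ × ℤ) : Continuous (Fr α) := by
  unfold Fr
  fun_prop

theorem mx_cont : Continuous mx := by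
  unfold mx
  fun_prop

theorem Fr_smul (α : Fin q → ℤ × ℤ) (c : ℝ) (y : ℝ × ℝ) :
    Fr α (c * y.1, c * y.2) = |c| ^ q * Fr α y := by
  unfold Fr
  have : ∀ i, |(c * y.1, c * y.2).1 * ((α i).2 : ℝ) - (c * y.1, c * y.2).2 * (α i).1| =
      |c| * |y.1 * (α i).2 - y.2 * (α i).1| := by
    intro i
    rw [← abs_mul]
    congr 1
    ring
  rw [Finset.prod_congr rfl fun i _ => this i, Finset.prod_mul_distrib, Finset.prod_const,
    Finset.card_univ, Fintype.card_fin]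

theorem mx_smul (c : ℝ) (y : ℝ × ℝ) : mx (c * y.1, c * y.2) = |c| * mx y := by
  unfold mx
  simp only [abs_mul]
  rw [mul_max_of_nonneg _ _ (abs_nonneg c)]

/-- a bound for the form -/
noncomputable def Cq (α : Fin q → ℤ × ℤ) : ℝ := ∏ i, (|((α i).1 : ℝ)| + |((α i).2 : ℝ)|)

theorem Fr_le (α : Fin q → ℤ × ℤ) (y : ℝ × ℝ) : Fr α y ≤ Cq α * mx y ^ q := by
  unfold Fr Cq
  have : mx y ^ q = ∏ _i : Fin q, mx y := by
    rw [Finset.prod_const, Finset.card_univ, Fintype.card_fin]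
  rw [this, ← Finset.prod_mul_distrib]
  refine Finset.prod_le_prod (fun _ _ => abs_nonneg _) fun i _ => ?_
  have h1 : |y.1| ≤ mx y := le_max_left _ _
  have h2 : |y.2| ≤ mx y := le_max_right _ _
  calc |y.1 * (α i).2 - y.2 * (α i).1| ≤ |y.1 * (α i).2| + |y.2 * (α i).1| := abs_sub _ _
    _ = |y.1| * |((α i).2 : ℝ)| + |y.2| * |((α i).1 : ℝ)| := by rw [abs_mul, abs_mul]
    _ ≤ mx y * |((α i).2 : ℝ)| + mx y * |((α i).1 : ℝ)| :=
        add_le_add (mul_le_mul_of_nonneg_right h1 (abs_nonneg _))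
          (mul_le_mul_of_nonneg_right h2 (abs_nonneg _))
    _ = _ := by ring

theorem Rg_bdd (hq : 1 ≤ q) (α : Fin q → ℤ × ℤ) (Γ : Set (ℝ × ℝ)) {w : ℕ} (hw : w ≠ 0) (τ : ℝ) :
    Bornology.IsBounded (Rg α Γ w τ) := by
  refine (Metric.isBounded_closedBall (x := (0 : ℝ × ℝ)) (r := max 1 (Real.exp τ))).subset ?_
  rintro y ⟨-, h1, h2⟩
  rw [mem_closedBall_zero_iff]
  have e : ‖y‖ = mx y := rfl
  rw [e]
  by_contra hcon
  rw [not_le, max_lt_iff] at hcon
  have hw1 : (1 : ℝ) ≤ w := by exact_mod_cast Nat.one_le_iff_ne_zero.2 hw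
  have h3 : mx y ≤ mx y ^ q := by
    calc mx y = mx y ^ 1 := (pow_one _).symm
      _ ≤ mx y ^ q := pow_le_pow_right₀ hcon.1.le hq
  have h4 : mx y ^ q ≤ w * mx y ^ q := by
    have : 0 ≤ mx y ^ q := pow_nonneg (mx_nonneg y) _
    nlinarith
  have h5 : Real.exp τ * Fr α y ≤ Real.exp τ := by
    have := Real.exp_pos τ
    nlinarith
  linarith [hcon.2]

theorem Rg_meas (α : Fin q → ℤ × ℤ) {Γ : Set (ℝ × ℝ)} (hΓ : MeasurableSet Γ) (w : ℕ) (τ : ℝ) :
    MeasurableSet (Rg α Γ w τ) := by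
  have h1 : Measurable fun y : ℝ × ℝ => (w : ℝ) * mx y ^ q :=
    (continuous_const.mul (mx_cont.pow q)).measurable
  have h2 : Measurable fun y : ℝ × ℝ => Real.exp τ * Fr α y :=
    (continuous_const.mul (Fr_cont α)).measurable
  exact hΓ.inter ((measurableSet_le (Fr_cont α).measurable measurable_const).inter
    (measurableSet_le h1 h2))

theorem Rf_meas (α : Fin q → ℤ × ℤ) {Γ : Set (ℝ × ℝ)} (hΓ : MeasurableSet Γ) :
    MeasurableSet (Rf α Γ) :=
  hΓ.inter (measurableSet_le (Fr_cont α).measurable measurable_const)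

theorem null_of_sections {Z : Set (ℝ × ℝ)} (hZ : MeasurableSet Z)
    (h : ∀ x : ℝ, x ≠ 0 → {y | (x, y) ∈ Z}.Finite) : volume Z = 0 := by
  rw [Measure.volume_eq_prod, Measure.measure_prod_null hZ]
  have h0 : ({0}ᶜ : Set ℝ) ∈ ae (volume : Measure ℝ) := by
    rw [compl_mem_ae_iff]
    exact measure_singleton 0
  filter_upwards [h0] with x hx
  exact (h x hx).measure_zero _

/-- the polynomial -/
noncomputable def Px (α : Fin q → ℤ × ℤ) (x : ℝ) : Polynomial ℝ :=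
  ∏ i, (Polynomial.C (x * (α i).2) - Polynomial.X * Polynomial.C ((α i).1 : ℝ))

theorem Px_eval (α : Fin q → ℤ × ℤ) (x y : ℝ) : Fr α (x, y) = |(Px α x).eval y| := by
  unfold Fr Px
  rw [Polynomial.eval_prod, Finset.abs_prod]
  refine Finset.prod_congr rfl fun i _ => ?_
  simp

theorem Px_root (α : Fin q → ℤ × ℤ) (x : ℝ) {i : Fin q} (hi : (α i).1 ≠ 0) :
    (Px α x).eval (x * (α i).2 / (α i).1) = 0 := by
  unfold Px
  rw [Polynomial.eval_prod]
  refine Finset.prod_eq_zero (Finset.mem_univ i) ?_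
  have : ((α i).1 : ℝ) ≠ 0 := by exact_mod_cast hi
  simp only [Polynomial.eval_sub, Polynomial.eval_C, Polynomial.eval_mul, Polynomial.eval_X]
  field_simp
  ring

theorem roots_finite {f : Polynomial ℝ} {z : ℝ} (hz : f.eval z ≠ 0) :
    {y | f.eval y = 0}.Finite := by
  have hf : f ≠ 0 := by
    rintro rfl
    exact hz (by simp)
  exact Polynomial.finite_setOfPred_isRoot hf

/-- one of the points has both coordinates different from zero -/
theorem exists_both (hq : 3 ≤ q) (α : Fin q → ℤ × ℤ)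
    (hα : ∀ i j, i ≠ j → (α i).1 * (α j).2 ≠ (α j).1 * (α i).2) :
    ∃ i, (α i).1 ≠ 0 ∧ (α i).2 ≠ 0 := by
  by_contra hcon
  push Not at hcon
  have h : ∀ i j, i ≠ j → (α i).1 = 0 → (α j).1 ≠ 0 := by
    intro i j hij h1 h2
    exact hα i j hij (by rw [h1, h2]; ring)
  have h' : ∀ i j, i ≠ j → (α i).2 = 0 → (α j).2 ≠ 0 := by
    intro i j hij h1 h2
    exact hα i j hij (by rw [h1, h2]; ring)
  have i0 : (⟨0, by omega⟩ : Fin q) ≠ ⟨1, by omega⟩ := by simp
  have i1 : (⟨0, by omega⟩ : Fin q) ≠ ⟨2, by omega⟩ := by simp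
  have i2 : (⟨1, by omega⟩ : Fin q) ≠ ⟨2, by omega⟩ := by simp
  rcases eq_or_ne (α ⟨0, by omega⟩).1 0 with a | a
  · have b := h _ _ i0 a
    have c := h _ _ i1 a
    exact h' _ _ i2 (hcon _ b) (hcon _ c)
  · have b := hcon _ a
    have c := h' _ _ i0 b
    have d := h' _ _ i1 b
    rcases eq_or_ne (α ⟨1, by omega⟩).1 0 with e | e
    · have := h _ _ i2 e
      exact d (hcon _ this)
    · exact c (hcon _ e)

theorem null_one (hq : 3 ≤ q) (α : Fin q → ℤ × ℤ)
    (hα : ∀ i j, i ≠ j → (α i).1 * (α j).2 ≠ (α j).1 * (α i).2) :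
    volume {y | Fr α y = 1} = 0 := by
  obtain ⟨i, hi, hi'⟩ := exists_both hq α hα
  refine null_of_sections (measurableSet_eq_fun (Fr_cont α).measurable measurable_const) ?_
  intro x hx
  refine (roots_finite (f := Px α x ^ 2 - 1) (z := x * (α i).2 / (α i).1) ?_).subset ?_
  · simp [Px_root α x hi]
  · intro y hy
    have h1 : Fr α (x, y) = 1 := hy
    rw [Px_eval] at h1
    show Polynomial.eval y (Px α x ^ 2 - 1) = 0
    rw [Polynomial.eval_sub, Polynomial.eval_pow, Polynomial.eval_one, ← sq_abs, h1]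
    norm_num

theorem null_zero (hq : 3 ≤ q) (α : Fin q → ℤ × ℤ)
    (hα : ∀ i j, i ≠ j → (α i).1 * (α j).2 ≠ (α j).1 * (α i).2) :
    volume {y | Fr α y = 0} = 0 := by
  refine null_of_sections (measurableSet_eq_fun (Fr_cont α).measurable measurable_const) ?_
  intro x hx
  have h1 : {y | (x, y) ∈ {y | Fr α y = 0}} ⊆ ⋃ i : Fin q, {y | y * (α i).1 = x * (α i).2} := by
    intro y hy
    have h2 : Fr α (x, y) = 0 := hy
    unfold Fr at h2
    rw [Finset.prod_eq_zero_iff] at h2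
    obtain ⟨i, -, h3⟩ := h2
    rw [mem_iUnion]
    refine ⟨i, ?_⟩
    rw [abs_eq_zero] at h3
    show y * (α i).1 = x * (α i).2
    simp only at h3
    linarith
  refine (Set.finite_iUnion fun i => ?_).subset h1
  rcases eq_or_ne (α i).1 0 with h | h
  · have h2 : (α i).2 ≠ 0 := by
      intro h3
      obtain ⟨j, hj⟩ : ∃ j : Fin q, i ≠ j := by
        by_contra hcon
        push Not at hcon
        have e1 := hcon ⟨0, by omega⟩
        have e2 := hcon ⟨1, by omega⟩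
        rw [e1] at e2
        exact absurd (Fin.mk.inj_iff.1 e2) (by norm_num)
      exact hα i j hj (by rw [h, h3]; ring)
    refine Set.Finite.subset Set.finite_empty fun y hy => ?_
    have h3 : y * (α i).1 = x * (α i).2 := hy
    rw [h] at h3
    have h4 : ((α i).2 : ℝ) ≠ 0 := by exact_mod_cast h2
    simp only [Int.cast_zero, mul_zero] at h3
    exact absurd h3.symm (mul_ne_zero hx h4)
  · have h4 : ((α i).1 : ℝ) ≠ 0 := by exact_mod_cast h
    refine (Set.finite_singleton (x * (α i).2 / (α i).1)).subset fun y hy => ?_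
    have h3 : y * (α i).1 = x * (α i).2 := hy
    rw [Set.mem_singleton_iff, eq_div_iff h4]
    exact h3

theorem null_cone (hq : 3 ≤ q) (α : Fin q → ℤ × ℤ)
    (hα : ∀ i j, i ≠ j → (α i).1 * (α j).2 ≠ (α j).1 * (α i).2) {w : ℕ} (hw : w ≠ 0) (τ : ℝ) :
    volume {y : ℝ × ℝ | (w : ℝ) * mx y ^ q = Real.exp τ * Fr α y} = 0 := by
  obtain ⟨i, hi, hi'⟩ := exists_both hq α hα
  have hwR : (w : ℝ) ≠ 0 := by exact_mod_cast hw
  have hi1 : ((α i).1 : ℝ) ≠ 0 := by exact_mod_cast hi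
  have hi2 : ((α i).2 : ℝ) ≠ 0 := by exact_mod_cast hi'
  refine null_of_sections (measurableSet_eq_fun
    (continuous_const.mul (mx_cont.pow q)).measurable
    (continuous_const.mul (Fr_cont α)).measurable) ?_
  intro x hx
  have f1 : {y | (Polynomial.C ((w : ℝ) ^ 2 * (x ^ 2) ^ q) -
      Polynomial.C (Real.exp τ ^ 2) * Px α x ^ 2).eval y = 0}.Finite := by
    refine roots_finite (z := x * (α i).2 / (α i).1) ?_
    simp only [Polynomial.eval_sub, Polynomial.eval_C, Polynomial.eval_mul, Polynomial.eval_pow,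
      Px_root α x hi]
    simp only [ne_eq, OfNat.ofNat_ne_zero, not_false_eq_true, zero_pow, mul_zero, sub_zero]
    positivity
  have f2 : {y | (Polynomial.C ((w : ℝ) ^ 2) * (Polynomial.X ^ 2) ^ q -
      Polynomial.C (Real.exp τ ^ 2) * Px α x ^ 2).eval y = 0}.Finite := by
    refine roots_finite (z := x * (α i).2 / (α i).1) ?_
    simp only [Polynomial.eval_sub, Polynomial.eval_C, Polynomial.eval_mul, Polynomial.eval_pow,
      Px_root α x hi, Polynomial.eval_X]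
    simp only [ne_eq, OfNat.ofNat_ne_zero, not_false_eq_true, zero_pow, mul_zero, sub_zero]
    have : x * (α i).2 / (α i).1 ≠ 0 := div_ne_zero (mul_ne_zero hx hi2) hi1
    positivity
  refine (f1.union f2).subset ?_
  intro y hy
  have h1 : (w : ℝ) * mx (x, y) ^ q = Real.exp τ * Fr α (x, y) := hy
  rw [Px_eval] at h1
  have h2 : (w : ℝ) ^ 2 * (mx (x, y) ^ 2) ^ q = Real.exp τ ^ 2 * ((Px α x).eval y) ^ 2 := by
    rw [← sq_abs ((Px α x).eval y), ← mul_pow, ← h1, mul_pow, ← pow_mul, ← pow_mul, mul_comm 2 q]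
  rcases max_choice |x| |y| with h | h
  · left
    have h3 : mx (x, y) ^ 2 = x ^ 2 := by
      show (max |x| |y|) ^ 2 = x ^ 2
      rw [h, sq_abs]
    rw [h3] at h2
    show Polynomial.eval y _ = 0
    simp only [Polynomial.eval_sub, Polynomial.eval_C, Polynomial.eval_mul, Polynomial.eval_pow]
    rw [h2, sub_self]
  · right
    have h3 : mx (x, y) ^ 2 = y ^ 2 := by
      show (max |x| |y|) ^ 2 = y ^ 2
      rw [h, sq_abs]
    rw [h3] at h2
    show Polynomial.eval y _ = 0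
    simp only [Polynomial.eval_sub, Polynomial.eval_C, Polynomial.eval_mul, Polynomial.eval_pow,
      Polynomial.eval_X]
    rw [h2, sub_self]

theorem Rg_frontier (hq : 3 ≤ q) (α : Fin q → ℤ × ℤ)
    (hα : ∀ i j, i ≠ j → (α i).1 * (α j).2 ≠ (α j).1 * (α i).2) {Γ : Set (ℝ × ℝ)}
    (hΓ : volume (frontier Γ) = 0) {w : ℕ} (hw : w ≠ 0) (τ : ℝ) :
    volume (frontier (Rg α Γ w τ)) = 0 := by
  have e : Rg α Γ w τ = Γ ∩ ({y | Fr α y ≤ 1} ∩
      {y | (w : ℝ) * mx y ^ q ≤ Real.exp τ * Fr α y}) := rfl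
  rw [e]
  refine measure_mono_null (frontier_inter_subset _ _) (measure_union_null
    (measure_mono_null inter_subset_left hΓ) (measure_mono_null inter_subset_right ?_))
  refine measure_mono_null (frontier_inter_subset _ _) (measure_union_null
    (measure_mono_null inter_subset_left ?_) (measure_mono_null inter_subset_right ?_))
  · exact measure_mono_null (frontier_le_subset_eq (Fr_cont α) continuous_const) (null_one hq α hα)
  · exact measure_mono_null (frontier_le_subset_eq (continuous_const.mul (mx_cont.pow q))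
      (continuous_const.mul (Fr_cont α))) (null_cone hq α hα hw τ)

theorem Rg_mono (α : Fin q → ℤ × ℤ) (Γ : Set (ℝ × ℝ)) (w : ℕ) {τ τ' : ℝ} (h : τ ≤ τ') :
    Rg α Γ w τ ⊆ Rg α Γ w τ' := by
  rintro y ⟨h1, h2, h3⟩
  refine ⟨h1, h2, h3.trans ?_⟩
  exact mul_le_mul_of_nonneg_right (Real.exp_le_exp.2 h) (Fr_nonneg _ _)

theorem Rg_sub_Rf (α : Fin q → ℤ × ℤ) (Γ : Set (ℝ × ℝ)) (w : ℕ) (τ : ℝ) :
    Rg α Γ w τ ⊆ Rf α Γ := fun _ h => ⟨h.1, h.2.1⟩

/-- the regions exhaust the full region -/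
theorem Rg_lim (hq : 3 ≤ q) (α : Fin q → ℤ × ℤ)
    (hα : ∀ i j, i ≠ j → (α i).1 * (α j).2 ≠ (α j).1 * (α i).2) (Γ : Set (ℝ × ℝ)) (w : ℕ) :
    Tendsto (fun τ : ℝ => volume (Rg α Γ w τ)) atTop (𝓝 (volume (Rf α Γ))) := by
  have h1 : Tendsto (volume ∘ Rg α Γ w) atTop (𝓝 (volume (⋃ τ, Rg α Γ w τ))) :=
    tendsto_measure_iUnion_atTop fun a b h => Rg_mono α Γ w h
  have h2 : volume (⋃ τ, Rg α Γ w τ) = volume (Rf α Γ) := by
    refine measure_congr ?_
    rw [ae_eq_set]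
    constructor
    · have : (⋃ τ, Rg α Γ w τ) \ Rf α Γ = ∅ := by
        rw [sdiff_eq_empty]
        exact iUnion_subset fun τ => Rg_sub_Rf α Γ w τ
      rw [this, measure_empty]
    · refine measure_mono_null (fun y hy => ?_) (null_zero hq α hα)
      by_contra hne
      have hpos : 0 < Fr α y := lt_of_le_of_ne (Fr_nonneg α y) (Ne.symm hne)
      apply hy.2
      rw [mem_iUnion]
      refine ⟨Real.log ((w * mx y ^ q + 1) / Fr α y), hy.1.1, hy.1.2, ?_⟩
      have h3 : 0 ≤ (w : ℝ) * mx y ^ q := mul_nonneg (Nat.cast_nonneg _) (pow_nonneg (mx_nonneg y) _)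
      rw [Real.exp_log (by positivity), div_mul_cancel₀ _ hpos.ne']
      linarith
  rw [← h2]
  exact h1

/-- for large `w` the region is at most a point -/
theorem Rg_empty (α : Fin q → ℤ × ℤ) (Γ : Set (ℝ × ℝ)) {w : ℕ} {τ : ℝ}
    (h : Real.exp τ * Cq α < w) : Rg α Γ w τ ⊆ {0} := by
  rintro y ⟨h1, h2, h3⟩
  by_contra hne
  have hmx : 0 < mx y := by
    refine lt_of_le_of_ne (mx_nonneg y) fun h0 => hne ?_
    have h4 : ‖y‖ = 0 := h0.symm
    exact norm_eq_zero.1 h4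
  have h4 : (w : ℝ) * mx y ^ q ≤ Real.exp τ * (Cq α * mx y ^ q) :=
    h3.trans (mul_le_mul_of_nonneg_left (Fr_le α y) (Real.exp_pos _).le)
  have h5 : 0 < mx y ^ q := pow_pos hmx q
  have h6 : (w : ℝ) * mx y ^ q ≤ (Real.exp τ * Cq α) * mx y ^ q := by linarith
  have h7 := le_of_mul_le_mul_right h6 h5
  linarith

/-- the full region has positive area -/
theorem Rf_pos (hq : 1 ≤ q) (α : Fin q → ℤ × ℤ) : 0 < volume (Rf α univ) := by
  have h1 : {y | Fr α y < 1} ⊆ Rf α univ := fun y hy => ⟨mem_univ _, le_of_lt hy⟩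
  refine lt_of_lt_of_le ?_ (measure_mono h1)
  refine IsOpen.measure_pos _ (isOpen_lt (Fr_cont α) continuous_const) ⟨0, ?_⟩
  show Fr α 0 < 1
  have : Fr α 0 = 0 := by
    unfold Fr
    exact Finset.prod_eq_zero (Finset.mem_univ (⟨0, hq⟩ : Fin q)) (by simp)
  rw [this]
  exact one_pos

end Pool.Agent.W5h35.LW
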