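import Pool.Agent.W5h35.LW.Dens
import Pool.Agent.W5h35.LW.Reg

/-!
# Counting the points with bounded discrepancy
-/

set_option autoImplicit false

namespace Pool.Agent.W5h35.LW

open Filter Topology MeasureTheory

variable {q : ℕ}

/-- normalised coprime coordinates -/
def Nrm (x : ℤ × ℤ) : Prop := IsCoprime x.1 x.2 ∧ (0 < x.2 ∨ x.2 = 0 ∧ 0 < x.1)

/-- the truncated counting function -/
noncomputable def N1 (α : Fin q → ℤ × ℤ) (S : Finset ℕ) (x : ℤ × ℤ) : ℝ :=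
  ∑ i, ∑ p ∈ (x.1 * (α i).2 - x.2 * (α i).1).natAbs.primeFactors \ S, Real.log p

/-- the height -/
noncomputable def hgt (x : ℤ × ℤ) : ℝ := Real.log (max x.1.natAbs x.2.natAbs : ℕ)

/-- the points -/
def Pts (α : Fin q → ℤ × ℤ) (S : Finset ℕ) (X : ℝ) : Set (ℤ × ℤ) :=
  {x | Nrm x ∧ (∀ i, x.1 * (α i).2 - x.2 * (α i).1 ≠ 0) ∧ N1 α S x ≤ Real.log X}

/-- the points with direction in `Γ` and repeated part in `W` -/
def PG (α : Fin q → ℤ × ℤ) (S : Finset ℕ) (Γ : Set (ℝ × ℝ)) (W : Set ℕ) (X : ℝ) : Set (ℤ × ℤ) :=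
  {x | x ∈ Pts α S X ∧ ((x.1 : ℝ), (x.2 : ℝ)) ∈ Γ ∧ rep α S x ∈ W}

/-- those with discrepancy at most `τ` -/
def PGt (α : Fin q → ℤ × ℤ) (S : Finset ℕ) (Γ : Set (ℝ × ℝ)) (W : Set ℕ) (τ X : ℝ) :
    Set (ℤ × ℤ) :=
  {x | x ∈ PG α S Γ W X ∧ (q : ℝ) * hgt x ≤ N1 α S x + τ}

/-- a set of directions -/
def Hom (Γ : Set (ℝ × ℝ)) : Prop :=
  ∀ (c : ℝ) (y : ℝ × ℝ), c ≠ 0 → ((c * y.1, c * y.2) ∈ Γ ↔ y ∈ Γ)

theorem exp_N1 (α : Fin q → ℤ × ℤ) (S : Finset ℕ) {x : ℤ × ℤ} (hx : ∀ i, Lf α i x ≠ 0) :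
    Real.exp (N1 α S x) * rep α S x = Fr α ((x.1 : ℝ), (x.2 : ℝ)) := by
  unfold N1 rep Fr
  rw [Real.exp_sum, Nat.cast_prod, ← Finset.prod_mul_distrib]
  refine Finset.prod_congr rfl fun i _ => ?_
  rw [Real.exp_sum]
  have h1 : ∏ p ∈ (x.1 * (α i).2 - x.2 * (α i).1).natAbs.primeFactors \ S, Real.exp (Real.log p) =
      (rd S (Lf α i x).natAbs : ℝ) := by
    unfold rd
    rw [Nat.cast_prod]
    refine Finset.prod_congr rfl fun p hp => ?_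
    have := (Nat.prime_of_mem_primeFactors (Finset.mem_sdiff.1 hp).1).pos
    rw [Real.exp_log (by exact_mod_cast this)]
  rw [h1, ← Nat.cast_mul, Nat.mul_div_cancel' (rd_dvd S _), Nat.cast_natAbs]
  unfold Lf
  push_cast
  rfl

theorem exp_hgt (x : ℤ × ℤ) (hx : x ≠ 0) :
    Real.exp ((q : ℝ) * hgt x) = mx ((x.1 : ℝ), (x.2 : ℝ)) ^ q := by
  have h0 : 0 < max x.1.natAbs x.2.natAbs := by
    rcases Nat.eq_zero_or_pos (max x.1.natAbs x.2.natAbs) with h | h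
    · exfalso
      apply hx
      have h1 := le_max_left x.1.natAbs x.2.natAbs
      have h2 := le_max_right x.1.natAbs x.2.natAbs
      rw [h] at h1 h2
      exact Prod.ext (Int.natAbs_eq_zero.1 (by omega)) (Int.natAbs_eq_zero.1 (by omega))
    · exact h
  rw [Real.exp_nat_mul]
  unfold hgt
  rw [Real.exp_log (by exact_mod_cast h0)]
  congr 1
  unfold mx
  rw [Nat.cast_max, Nat.cast_natAbs, Nat.cast_natAbs, Int.cast_abs, Int.cast_abs]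

theorem AW_ne_zero (α : Fin q → ℤ × ℤ) (S : Finset ℕ) {w : ℕ} {x : ℤ × ℤ} (hx : x ∈ AW α S w) :
    x ≠ 0 := by
  rintro rfl
  obtain ⟨h, -⟩ := hx
  exact not_isUnit_zero (isCoprime_zero_left.1 h)

theorem mem_LP_iff (hq : 1 ≤ q) (α : Fin q → ℤ × ℤ) (S : Finset ℕ) {Γ : Set (ℝ × ℝ)} (hΓ : Hom Γ)
    {w : ℕ} (hw : w ≠ 0) {x : ℤ × ℤ} (hx : x ∈ AW α S w) {X : ℝ} (hX : 0 < X) (τ : ℝ) :
    x ∈ LP (Rg α Γ w τ) 0 ((w * X) ^ (1 / (q : ℝ))) ↔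
      N1 α S x ≤ Real.log X ∧ ((x.1 : ℝ), (x.2 : ℝ)) ∈ Γ ∧ (q : ℝ) * hgt x ≤ N1 α S x + τ := by
  have hwR : (0 : ℝ) < w := by exact_mod_cast Nat.pos_of_ne_zero hw
  have hwX : 0 < (w : ℝ) * X := mul_pos hwR hX
  have hq0 : (0 : ℝ) < q := by exact_mod_cast hq
  set t : ℝ := (w * X) ^ (1 / (q : ℝ)) with ht
  have ht0 : 0 < t := Real.rpow_pos_of_pos hwX _
  have htq : t ^ q = w * X := by
    rw [ht, ← Real.rpow_natCast, ← Real.rpow_mul hwX.le, one_div_mul_cancel hq0.ne', Real.rpow_one]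
  have hx0 := AW_ne_zero α S hx
  obtain ⟨-, hL, hrep⟩ := hx
  have e1 := exp_N1 α S hL
  rw [hrep] at e1
  have e2 := exp_hgt (q := q) x hx0
  have hsc : sc 0 t x = (t⁻¹ * ((x.1 : ℝ), (x.2 : ℝ)).1, t⁻¹ * ((x.1 : ℝ), (x.2 : ℝ)).2) := by
    unfold sc
    simp only [Prod.fst_zero, Prod.snd_zero, add_zero]
    ext
    · simp only; ring
    · simp only; ring
  have hiq : |t⁻¹| ^ q = (w * X)⁻¹ := by
    rw [abs_of_pos (inv_pos.2 ht0), inv_pow, htq]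
  have hF : Fr α (sc 0 t x) = (w * X)⁻¹ * (Real.exp (N1 α S x) * w) := by
    rw [hsc, Fr_smul, hiq, e1]
  have hm : mx (sc 0 t x) ^ q = (w * X)⁻¹ * Real.exp ((q : ℝ) * hgt x) := by
    rw [hsc, mx_smul, mul_pow, hiq, e2]
  have hG : sc 0 t x ∈ Γ ↔ ((x.1 : ℝ), (x.2 : ℝ)) ∈ Γ := by
    rw [hsc]
    exact hΓ _ _ (inv_ne_zero ht0.ne')
  have k1 : Fr α (sc 0 t x) ≤ 1 ↔ N1 α S x ≤ Real.log X := by
    rw [hF, inv_mul_le_iff₀ hwX, mul_one, mul_comm (Real.exp _) (w : ℝ),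
      mul_le_mul_iff_of_pos_left hwR, Real.le_log_iff_exp_le hX]
  have k2 : (w : ℝ) * mx (sc 0 t x) ^ q ≤ Real.exp τ * Fr α (sc 0 t x) ↔
      (q : ℝ) * hgt x ≤ N1 α S x + τ := by
    rw [hm, hF]
    have e3 : (w : ℝ) * ((w * X)⁻¹ * Real.exp ((q : ℝ) * hgt x)) =
        ((w * X)⁻¹ * w) * Real.exp ((q : ℝ) * hgt x) := by ring
    have e4 : Real.exp τ * ((w * X)⁻¹ * (Real.exp (N1 α S x) * w)) =
        ((w * X)⁻¹ * w) * Real.exp (N1 α S x + τ) := by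
      rw [Real.exp_add]; ring
    rw [e3, e4, mul_le_mul_iff_of_pos_left (mul_pos (inv_pos.2 hwX) hwR), Real.exp_le_exp]
  show (sc 0 t x ∈ Γ ∧ _ ∧ _) ↔ _
  rw [hG, k1, k2]
  tauto

theorem half_card {T : Set (ℤ × ℤ)} (hT : T.Finite) (hs : ∀ x ∈ T, -x ∈ T)
    (hc : ∀ x ∈ T, IsCoprime x.1 x.2) :
    2 * {x | x ∈ T ∧ (0 < x.2 ∨ x.2 = 0 ∧ 0 < x.1)}.ncard = T.ncard := by
  classical
  set A : Set (ℤ × ℤ) := {x | x ∈ T ∧ (0 < x.2 ∨ x.2 = 0 ∧ 0 < x.1)} with hA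
  have hAf : A.Finite := hT.subset fun x hx => hx.1
  have hinj : Function.Injective (fun x : ℤ × ℤ => -x) := neg_injective
  have hdis : Disjoint A ((fun x => -x) '' A) := by
    rw [Set.disjoint_left]
    rintro x hx ⟨y, hy, rfl⟩
    have h1 := hx.2
    have h2 := hy.2
    simp only [Prod.fst_neg, Prod.snd_neg] at h1
    omega
  have hun : A ∪ ((fun x => -x) '' A) = T := by
    ext x
    constructor
    · rintro (hx | ⟨y, hy, rfl⟩)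
      · exact hx.1
      · exact hs y hy.1
    · intro hx
      have hc' := hc x hx
      by_cases h : 0 < x.2 ∨ x.2 = 0 ∧ 0 < x.1
      · exact Or.inl ⟨hx, h⟩
      · right
        refine ⟨-x, ⟨hs x hx, ?_⟩, neg_neg x⟩
        simp only [Prod.fst_neg, Prod.snd_neg]
        have h0 : ¬ (x.1 = 0 ∧ x.2 = 0) := by
          rintro ⟨a, b⟩
          rw [a, b] at hc'
          exact not_isUnit_zero (isCoprime_zero_left.1 hc')
        omega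
  rw [← hun, Set.ncard_union_eq hdis hAf (hAf.image _), Set.ncard_image_of_injective _ hinj]
  ring

theorem Lf_neg (α : Fin q → ℤ × ℤ) (i : Fin q) (x : ℤ × ℤ) : Lf α i (-x) = -Lf α i x := by
  unfold Lf
  simp only [Prod.fst_neg, Prod.snd_neg]
  ring

theorem rep_neg (α : Fin q → ℤ × ℤ) (S : Finset ℕ) (x : ℤ × ℤ) : rep α S (-x) = rep α S x := by
  unfold rep
  simp only [Lf_neg, Int.natAbs_neg]

theorem AW_neg (α : Fin q → ℤ × ℤ) (S : Finset ℕ) {w : ℕ} {x : ℤ × ℤ} (hx : x ∈ AW α S w) :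
    -x ∈ AW α S w := by
  obtain ⟨h1, h2, h3⟩ := hx
  refine ⟨?_, fun i => ?_, ?_⟩
  · show IsCoprime (-x.1) (-x.2)
    exact h1.neg_neg
  · rw [Lf_neg]
    exact neg_ne_zero.2 (h2 i)
  · rw [rep_neg]
    exact h3

theorem mx_neg (y : ℝ × ℝ) : mx (-y) = mx y := by
  unfold mx
  simp only [Prod.fst_neg, Prod.snd_neg, abs_neg]

theorem Fr_neg (α : Fin q → ℤ × ℤ) (y : ℝ × ℝ) : Fr α (-y) = Fr α y := by
  unfold Fr
  refine Finset.prod_congr rfl fun i _ => ?_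
  simp only [Prod.fst_neg, Prod.snd_neg]
  rw [← abs_neg]
  congr 1
  ring

theorem Rg_neg (α : Fin q → ℤ × ℤ) {Γ : Set (ℝ × ℝ)} (hΓ : Hom Γ) (w : ℕ) (τ : ℝ) {y : ℝ × ℝ}
    (hy : y ∈ Rg α Γ w τ) : -y ∈ Rg α Γ w τ := by
  obtain ⟨h1, h2, h3⟩ := hy
  refine ⟨?_, ?_, ?_⟩
  · have e : -y = ((-1) * y.1, (-1) * y.2) := by
      ext
      · simp
      · simp
    rw [e]
    exact (hΓ (-1) y (by norm_num)).2 h1
  · rw [Fr_neg]; exact h2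
  · rw [mx_neg, Fr_neg]; exact h3

/-- the largest possible repeated part -/
noncomputable def W0 (α : Fin q → ℤ × ℤ) (τ : ℝ) : ℕ := ⌊Real.exp τ * Cq α⌋₊

open Classical in
theorem count_w (hq : 1 ≤ q) (α : Fin q → ℤ × ℤ) (S : Finset ℕ) {Γ : Set (ℝ × ℝ)} (hΓ : Hom Γ)
    (W : Set ℕ) (τ : ℝ) {X : ℝ} (hX : 0 < X) {w : ℕ} (hw : w ≠ 0) (hwW : w ∈ W) :
    {x | x ∈ PGt α S Γ W τ X ∧ rep α S x = w}.Finite ∧
    2 * {x | x ∈ PGt α S Γ W τ X ∧ rep α S x = w}.ncard =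
      (AW α S w ∩ LP (Rg α Γ w τ) 0 ((w * X) ^ (1 / (q : ℝ)))).ncard := by
  have hwR : (0 : ℝ) < w := by exact_mod_cast Nat.pos_of_ne_zero hw
  have ht0 : 0 < ((w : ℝ) * X) ^ (1 / (q : ℝ)) := Real.rpow_pos_of_pos (mul_pos hwR hX) _
  have hfin : (AW α S w ∩ LP (Rg α Γ w τ) 0 ((w * X) ^ (1 / (q : ℝ)))).Finite :=
    (LP_finite (Rg_bdd hq α Γ hw τ) 0 ht0).subset Set.inter_subset_right
  have e : {x | x ∈ PGt α S Γ W τ X ∧ rep α S x = w} =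
      {x | x ∈ (AW α S w ∩ LP (Rg α Γ w τ) 0 ((w * X) ^ (1 / (q : ℝ)))) ∧
        (0 < x.2 ∨ x.2 = 0 ∧ 0 < x.1)} := by
    ext x
    constructor
    · rintro ⟨⟨⟨⟨⟨h1, h2⟩, h3, h4⟩, h5, h6⟩, h7⟩, h8⟩
      have hxA : x ∈ AW α S w := ⟨h1, h3, h8⟩
      exact ⟨⟨hxA, (mem_LP_iff hq α S hΓ hw hxA hX τ).2 ⟨h4, h5, h7⟩⟩, h2⟩
    · rintro ⟨⟨hxA, h1⟩, h2⟩
      obtain ⟨h4, h5, h7⟩ := (mem_LP_iff hq α S hΓ hw hxA hX τ).1 h1
      obtain ⟨g1, g2, g3⟩ := hxA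
      exact ⟨⟨⟨⟨⟨g1, h2⟩, g2, h4⟩, h5, by rw [g3]; exact hwW⟩, h7⟩, g3⟩
  rw [e]
  refine ⟨hfin.subset fun x hx => hx.1, half_card hfin ?_ fun x hx => hx.1.1⟩
  rintro x ⟨h1, h2⟩
  refine ⟨AW_neg α S h1, ?_⟩
  have e2 : sc 0 (((w : ℝ) * X) ^ (1 / (q : ℝ))) (-x) = -sc 0 (((w : ℝ) * X) ^ (1 / (q : ℝ))) x := by
    unfold sc
    ext
    · simp [neg_div]
    · simp [neg_div]
  show sc 0 (((w : ℝ) * X) ^ (1 / (q : ℝ))) (-x) ∈ Rg α Γ w τ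
  rw [e2]
  exact Rg_neg α hΓ w τ h2

open Classical in
theorem count_all (hq : 1 ≤ q) (α : Fin q → ℤ × ℤ) (S : Finset ℕ) {Γ : Set (ℝ × ℝ)} (hΓ : Hom Γ)
    (W : Set ℕ) (τ : ℝ) {X : ℝ} (hX : 0 < X) :
    (PGt α S Γ W τ X).Finite ∧ 2 * (PGt α S Γ W τ X).ncard =
      ∑ w ∈ (Finset.Icc 1 (W0 α τ)).filter (· ∈ W),
        (AW α S w ∩ LP (Rg α Γ w τ) 0 ((w * X) ^ (1 / (q : ℝ)))).ncard := by
  have hrep : ∀ x ∈ PGt α S Γ W τ X, rep α S x ∈ (Finset.Icc 1 (W0 α τ)).filter (· ∈ W) := by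
    intro x hx
    have hx' := hx
    obtain ⟨⟨⟨⟨h1, h2⟩, h3, h4⟩, h5, h6⟩, h7⟩ := hx
    rw [Finset.mem_filter, Finset.mem_Icc]
    refine ⟨⟨rep_pos α S h3, ?_⟩, h6⟩
    refine Nat.le_floor ?_
    by_contra hcon
    rw [not_le] at hcon
    have hw : rep α S x ≠ 0 := (rep_pos α S h3).ne'
    have hxA : x ∈ AW α S (rep α S x) := ⟨h1, h3, rfl⟩
    have h8 := (mem_LP_iff hq α S hΓ hw hxA hX τ).2 ⟨h4, h5, h7⟩
    have h9 := Rg_empty α Γ hcon h8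
    rw [Set.mem_singleton_iff] at h9
    have hwR : (0 : ℝ) < rep α S x := by exact_mod_cast Nat.pos_of_ne_zero hw
    have ht0 : 0 < ((rep α S x : ℝ) * X) ^ (1 / (q : ℝ)) :=
      Real.rpow_pos_of_pos (mul_pos hwR hX) _
    have h10 := congrArg Prod.fst h9
    have h11 := congrArg Prod.snd h9
    simp only [sc, Prod.fst_zero, Prod.snd_zero, add_zero, div_eq_zero_iff, Int.cast_eq_zero,
      ht0.ne', or_false] at h10 h11
    exact AW_ne_zero α S hxA (Prod.ext h10 h11)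
  have hfin : (PGt α S Γ W τ X).Finite := by
    have h1 : PGt α S Γ W τ X ⊆ ⋃ w ∈ (Finset.Icc 1 (W0 α τ)).filter (· ∈ W),
        {x | x ∈ PGt α S Γ W τ X ∧ rep α S x = w} := by
      intro x hx
      rw [Set.mem_iUnion₂]
      exact ⟨rep α S x, hrep x hx, hx, rfl⟩
    refine (Set.Finite.biUnion (Finset.finite_toSet _) fun w hw => ?_).subset h1
    rw [Finset.mem_coe, Finset.mem_filter, Finset.mem_Icc] at hw
    exact (count_w hq α S hΓ W τ hX (by omega) hw.2).1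
  refine ⟨hfin, ?_⟩
  rw [Set.ncard_eq_toFinset_card _ hfin,
    Finset.card_eq_sum_card_fiberwise (f := rep α S)
      (t := (Finset.Icc 1 (W0 α τ)).filter (· ∈ W)) (fun x hx => by
        rw [Finset.mem_coe, hfin.mem_toFinset] at hx
        exact Finset.mem_coe.2 (hrep x hx)), Finset.mul_sum]
  refine Finset.sum_congr rfl fun w hw => ?_
  rw [Finset.mem_filter, Finset.mem_Icc] at hw
  rw [← (count_w hq α S hΓ W τ hX (by omega) hw.2).2, ← Set.ncard_coe_finset]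
  congr 2
  ext x
  rw [Finset.mem_coe, Finset.mem_filter, hfin.mem_toFinset]
  rfl

/-- the term of the limit -/
noncomputable def gt (α : Fin q → ℤ × ℤ) (S : Finset ℕ) (Γ : Set (ℝ × ℝ)) (τ : ℝ) (w : ℕ) : ℝ :=
  dw α S w * (w : ℝ) ^ (2 / (q : ℝ)) * volume.real (Rg α Γ w τ)

open Classical in
/-- **The points with discrepancy at most `τ`.** -/
theorem lim_tau (hq : 3 ≤ q) (α : Fin q → ℤ × ℤ) (hcop : ∀ i, IsCoprime (α i).1 (α i).2)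
    (hα : ∀ i j, i ≠ j → (α i).1 * (α j).2 ≠ (α j).1 * (α i).2) (S : Finset ℕ)
    {Γ : Set (ℝ × ℝ)} (hΓ : Hom Γ) (hΓm : MeasurableSet Γ) (hΓf : volume (frontier Γ) = 0)
    (W : Set ℕ) (τ : ℝ) :
    Tendsto (fun X : ℝ => ((PGt α S Γ W τ X).ncard : ℝ) / X ^ (2 / (q : ℝ))) atTop
      (𝓝 (1 / 2 * ∑ w ∈ (Finset.Icc 1 (W0 α τ)).filter (· ∈ W), gt α S Γ τ w)) := by
  have hq1 : 1 ≤ q := by omega
  have hq0 : (0 : ℝ) < q := by exact_mod_cast hq1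
  have h1 : ∀ w ∈ (Finset.Icc 1 (W0 α τ)).filter (· ∈ W), Tendsto (fun X : ℝ =>
      ((AW α S w ∩ LP (Rg α Γ w τ) 0 ((w * X) ^ (1 / (q : ℝ)))).ncard : ℝ) / X ^ (2 / (q : ℝ)))
      atTop (𝓝 (gt α S Γ τ w)) := by
    intro w hw
    rw [Finset.mem_filter, Finset.mem_Icc] at hw
    have hw0 : w ≠ 0 := by omega
    have hwR : (0 : ℝ) < w := by exact_mod_cast Nat.pos_of_ne_zero hw0
    have h2 := dens hq1 α hcop S hw0 (Rg_bdd hq1 α Γ hw0 τ) (Rg_frontier hq α hα hΓf hw0 τ)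
      (Rg_meas α hΓm w τ)
    have h3 : Tendsto (fun X : ℝ => ((w : ℝ) * X) ^ (1 / (q : ℝ))) atTop atTop :=
      (tendsto_rpow_atTop (by positivity)).comp (tendsto_id.const_mul_atTop hwR)
    have h4 := (h2.comp h3).mul_const ((w : ℝ) ^ (2 / (q : ℝ)))
    have e1 : dw α S w * volume.real (Rg α Γ w τ) * (w : ℝ) ^ (2 / (q : ℝ)) = gt α S Γ τ w := by
      unfold gt; ring
    rw [e1] at h4
    refine h4.congr' ?_
    filter_upwards [eventually_gt_atTop 0] with X hX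
    simp only [Function.comp_apply]
    have hwX : 0 < (w : ℝ) * X := mul_pos hwR hX
    have e2 : (((w : ℝ) * X) ^ (1 / (q : ℝ))) ^ 2 = (w : ℝ) ^ (2 / (q : ℝ)) * X ^ (2 / (q : ℝ)) := by
      rw [← Real.rpow_natCast, ← Real.rpow_mul hwX.le, ← Real.mul_rpow hwR.le hX.le]
      congr 1
      push_cast
      ring
    rw [e2]
    have h5 : (w : ℝ) ^ (2 / (q : ℝ)) ≠ 0 := (Real.rpow_pos_of_pos hwR _).ne'
    have h6 : X ^ (2 / (q : ℝ)) ≠ 0 := (Real.rpow_pos_of_pos hX _).ne'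
    field_simp
  have h2 := (tendsto_finsetSum _ h1).const_mul (1 / 2 : ℝ)
  refine h2.congr' ?_
  filter_upwards [eventually_gt_atTop 0] with X hX
  have h3 := (count_all hq1 α S hΓ W τ hX).2
  have h4 : (2 : ℝ) * ((PGt α S Γ W τ X).ncard : ℝ) =
      ∑ w ∈ (Finset.Icc 1 (W0 α τ)).filter (· ∈ W),
        ((AW α S w ∩ LP (Rg α Γ w τ) 0 ((w * X) ^ (1 / (q : ℝ)))).ncard : ℝ) := by
    exact_mod_cast h3
  rw [← Finset.sum_div, ← h4]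
  ring

end Pool.Agent.W5h35.LW
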