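import Pool.Agent.W5h35.LW.Bd

/-!
# The density of the points with a given repeated part
-/

set_option autoImplicit false

namespace Pool.Agent.W5h35.LW

open Filter Topology MeasureTheory

variable {q : ℕ}

theorem bx_card (M : ℕ) : (bx M).card = M ^ 2 := by
  unfold bx
  rw [Finset.card_product, Int.card_Ico, sub_zero, Int.toNat_natCast, sq]

theorem pd_le_one (M : ℕ) (A : Set (ℤ × ℤ)) : pd M A ≤ 1 := by
  classical
  unfold pd
  refine div_le_one_of_le₀ ?_ (by positivity)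
  have h : (rs M A).card ≤ (bx M).card := Finset.card_le_card (Finset.filter_subset _ _)
  rw [bx_card] at h
  exact_mod_cast h

theorem lp_nonneg (α : Fin q → ℤ × ℤ) (S : Finset ℕ) (p j : ℕ) : 0 ≤ lp α S p j := pd_nonneg _ _

theorem lp_le_one (α : Fin q → ℤ × ℤ) (S : Finset ℕ) (p j : ℕ) : lp α S p j ≤ 1 := pd_le_one _ _

/-- the product of the local densities below `P` -/
noncomputable def dP (α : Fin q → ℤ × ℤ) (S : Finset ℕ) (w P : ℕ) : ℝ :=
  ∏ p ∈ P.primesBelow, lp α S p (w.factorization p)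

theorem dP_nonneg (α : Fin q → ℤ × ℤ) (S : Finset ℕ) (w P : ℕ) : 0 ≤ dP α S w P :=
  Finset.prod_nonneg fun _ _ => lp_nonneg _ _ _ _

theorem dP_anti (α : Fin q → ℤ × ℤ) (S : Finset ℕ) (w : ℕ) : Antitone (dP α S w) := by
  intro P P' h
  unfold dP
  have hsub : P.primesBelow ⊆ P'.primesBelow := by
    intro p hp
    rw [Nat.mem_primesBelow] at hp ⊢
    exact ⟨lt_of_lt_of_le hp.1 h, hp.2⟩
  rw [← Finset.prod_sdiff hsub]
  calc _ ≤ 1 * ∏ p ∈ P.primesBelow, lp α S p (w.factorization p) := by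
        refine mul_le_mul_of_nonneg_right (Finset.prod_le_one (fun _ _ => lp_nonneg _ _ _ _)
          fun _ _ => lp_le_one _ _ _ _) (dP_nonneg _ _ _ _)
    _ = _ := one_mul _

/-- the density of the points with repeated part `w` -/
noncomputable def dw (α : Fin q → ℤ × ℤ) (S : Finset ℕ) (w : ℕ) : ℝ := ⨅ P, dP α S w P

theorem dP_bdd (α : Fin q → ℤ × ℤ) (S : Finset ℕ) (w : ℕ) :
    BddBelow (Set.range (dP α S w)) := ⟨0, by rintro _ ⟨P, rfl⟩; exact dP_nonneg _ _ _ _⟩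

theorem dP_tendsto (α : Fin q → ℤ × ℤ) (S : Finset ℕ) (w : ℕ) :
    Tendsto (dP α S w) atTop (𝓝 (dw α S w)) :=
  tendsto_atTop_ciInf (dP_anti α S w) (dP_bdd α S w)

theorem dw_nonneg (α : Fin q → ℤ × ℤ) (S : Finset ℕ) (w : ℕ) : 0 ≤ dw α S w :=
  Real.iInf_nonneg fun _ => dP_nonneg _ _ _ _

theorem dw_le (α : Fin q → ℤ × ℤ) (S : Finset ℕ) (w P : ℕ) : dw α S w ≤ dP α S w P :=
  ciInf_le (dP_bdd α S w) P

open Classical in
theorem diff_bound (hq : 1 ≤ q) (α : Fin q → ℤ × ℤ) (hcop : ∀ i, IsCoprime (α i).1 (α i).2)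
    (S : Finset ℕ) {w : ℕ} (hw : w ≠ 0) {R : Set (ℝ × ℝ)} (hb : Bornology.IsBounded R) :
    ∃ C : ℝ, 0 < C ∧ ∃ P₀ : ℕ, ∀ P : ℕ, P₀ ≤ P → ∀ t : ℝ, 1 ≤ t →
      |((AP α S w P ∩ LP R 0 t).ncard : ℝ) / t ^ 2 - ((AW α S w ∩ LP R 0 t).ncard : ℝ) / t ^ 2| ≤
        C * (1 / P + 1 / Real.sqrt t) := by
  obtain ⟨C, hC, hB⟩ := Bd_card hq α hcop
  obtain ⟨ρ₀, hρ₀⟩ := hb.subset_closedBall (0 : ℝ × ℝ)
  set ρ : ℝ := max ρ₀ 1 with hρ
  have hρ1 : 1 ≤ ρ := le_max_right _ _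
  have hρ0 : 0 < ρ := by linarith
  refine ⟨C * (8 * ρ ^ 2), by positivity, max (S.sup id + 1) (max (w + 1) 1),
    fun P hP t ht => ?_⟩
  have ht0 : 0 < t := by linarith
  have hP1 : 1 ≤ P := le_trans (le_trans (le_max_right _ _) (le_max_right _ _)) hP
  have hPS : ∀ p ∈ S, p < P := by
    intro p hp
    have h1 : p ≤ S.sup id := Finset.le_sup (f := id) hp
    have h2 : S.sup id + 1 ≤ P := (le_max_left _ _).trans hP
    omega
  have hPw : ∀ p, p.Prime → p ∣ w → p < P := by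
    intro p _ hpw
    have h1 := Nat.le_of_dvd (Nat.pos_of_ne_zero hw) hpw
    have h2 : w + 1 ≤ P := ((le_max_left _ _).trans (le_max_right _ _)).trans hP
    omega
  set N : ℕ := ⌈ρ * t⌉₊ with hN
  have hN1 : ρ * t ≤ N := Nat.le_ceil _
  have hN2 : (N : ℝ) ≤ 2 * (ρ * t) := by
    have h1 := Nat.ceil_lt_add_one (by positivity : 0 ≤ ρ * t)
    have h2 : 1 ≤ ρ * t := one_le_mul_of_one_le_of_one_le hρ1 ht
    linarith
  have hNpos : 1 ≤ N := by
    have : (1 : ℝ) ≤ N := le_trans (one_le_mul_of_one_le_of_one_le hρ1 ht) hN1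
    exact_mod_cast this
  have hLPQ : LP R 0 t ⊆ (Qd N : Set (ℤ × ℤ)) := by
    intro x hx
    have h1 := hρ₀ hx
    rw [mem_closedBall_zero_iff, Prod.norm_def, max_le_iff] at h1
    have key : ∀ a : ℤ, ‖(a : ℝ) / t‖ ≤ ρ₀ → -(N : ℤ) ≤ a ∧ a ≤ N := by
      intro a ha
      rw [Real.norm_eq_abs, abs_div, abs_of_pos ht0, div_le_iff₀ ht0] at ha
      have h2 : |(a : ℝ)| ≤ N := by
        refine ha.trans (le_trans ?_ hN1)
        exact mul_le_mul_of_nonneg_right (le_max_left _ _) ht0.le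
      rw [abs_le] at h2
      constructor
      · exact_mod_cast h2.1
      · exact_mod_cast h2.2
    rw [Finset.mem_coe, mem_Qd]
    refine ⟨key x.1 ?_, key x.2 ?_⟩
    · have := h1.1
      simpa [sc] using this
    · have := h1.2
      simpa [sc] using this
  have hfin : (LP R 0 t).Finite := LP_finite hb 0 ht0
  have hfA : (AW α S w ∩ LP R 0 t).Finite := hfin.subset Set.inter_subset_right
  have hfP : (AP α S w P ∩ LP R 0 t).Finite := hfin.subset Set.inter_subset_right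
  have h1 : (AW α S w ∩ LP R 0 t).ncard ≤ (AP α S w P ∩ LP R 0 t).ncard :=
    Set.ncard_le_ncard (Set.inter_subset_inter_left _ (AW_sub_AP α S w P)) hfP
  have h2 : (AP α S w P ∩ LP R 0 t).ncard ≤ (AW α S w ∩ LP R 0 t).ncard +
      ((Qd N).filter (· ∈ Bd α P)).card := by
    have hsub : AP α S w P ∩ LP R 0 t ⊆ (AW α S w ∩ LP R 0 t) ∪
        ((Qd N).filter (· ∈ Bd α P) : Finset (ℤ × ℤ)) := by
      rintro x ⟨hx1, hx2⟩
      rcases AP_sub α S hw hPS hPw hx1 with h | h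
      · exact Or.inl ⟨h, hx2⟩
      · right
        rw [Finset.mem_coe, Finset.mem_filter]
        exact ⟨Finset.mem_coe.1 (hLPQ hx2), h⟩
    refine (Set.ncard_le_ncard hsub (hfA.union (Finset.finite_toSet _))).trans ?_
    refine (Set.ncard_union_le _ _).trans ?_
    rw [Set.ncard_coe_finset]
  have h3 := hB P N hP1 hNpos
  have h4 : ((AP α S w P ∩ LP R 0 t).ncard : ℝ) - ((AW α S w ∩ LP R 0 t).ncard : ℝ) ≤
      C * ((N : ℝ) ^ 2 / P + (N : ℝ) * Real.sqrt N) := by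
    have : ((AP α S w P ∩ LP R 0 t).ncard : ℝ) ≤ ((AW α S w ∩ LP R 0 t).ncard : ℝ) +
      (((Qd N).filter (· ∈ Bd α P)).card : ℝ) := by exact_mod_cast h2
    linarith
  have h5 : (0 : ℝ) ≤ ((AP α S w P ∩ LP R 0 t).ncard : ℝ) - ((AW α S w ∩ LP R 0 t).ncard : ℝ) := by
    have : ((AW α S w ∩ LP R 0 t).ncard : ℝ) ≤ ((AP α S w P ∩ LP R 0 t).ncard : ℝ) := by
      exact_mod_cast h1
    linarith
  rw [← sub_div, abs_of_nonneg (div_nonneg h5 (by positivity)), div_le_iff₀ (by positivity)]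
  refine h4.trans ?_
  have hPR : (0 : ℝ) < P := by exact_mod_cast hP1
  have hst : 0 < Real.sqrt t := Real.sqrt_pos.2 ht0
  have e1 : (N : ℝ) ^ 2 / P ≤ 4 * ρ ^ 2 * t ^ 2 / P := by
    apply div_le_div_of_nonneg_right _ hPR.le
    calc (N : ℝ) ^ 2 ≤ (2 * (ρ * t)) ^ 2 := pow_le_pow_left₀ (Nat.cast_nonneg _) hN2 2
      _ = _ := by ring
  have e2 : (N : ℝ) * Real.sqrt N ≤ 8 * ρ ^ 2 * t ^ 2 / Real.sqrt t := by
    have h6 : Real.sqrt N ≤ 2 * ρ * Real.sqrt t := by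
      rw [Real.sqrt_le_left (by positivity), mul_pow, Real.sq_sqrt ht0.le]
      refine hN2.trans ?_
      nlinarith [mul_pos hρ0 ht0]
    have h7 : t ^ 2 / Real.sqrt t = t * Real.sqrt t := by
      rw [div_eq_iff hst.ne', mul_assoc, Real.mul_self_sqrt ht0.le, sq]
    calc (N : ℝ) * Real.sqrt N ≤ (2 * (ρ * t)) * (2 * ρ * Real.sqrt t) :=
          mul_le_mul hN2 h6 (Real.sqrt_nonneg _) (by positivity)
      _ = 4 * ρ ^ 2 * (t * Real.sqrt t) := by ring
      _ ≤ 8 * ρ ^ 2 * (t * Real.sqrt t) := by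
          apply mul_le_mul_of_nonneg_right _ (by positivity)
          nlinarith [sq_nonneg ρ]
      _ = _ := by rw [← h7]; ring
  calc C * ((N : ℝ) ^ 2 / P + (N : ℝ) * Real.sqrt N)
      ≤ C * (4 * ρ ^ 2 * t ^ 2 / P + 8 * ρ ^ 2 * t ^ 2 / Real.sqrt t) :=
        mul_le_mul_of_nonneg_left (add_le_add e1 e2) hC.le
    _ ≤ C * (8 * ρ ^ 2 * t ^ 2 / P + 8 * ρ ^ 2 * t ^ 2 / Real.sqrt t) := by
        refine mul_le_mul_of_nonneg_left (add_le_add ?_ le_rfl) hC.le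
        apply div_le_div_of_nonneg_right _ hPR.le
        nlinarith [sq_nonneg (ρ * t)]
    _ = _ := by ring

/-- **The points with repeated part `w` in a dilated region.** -/
theorem dens (hq : 1 ≤ q) (α : Fin q → ℤ × ℤ) (hcop : ∀ i, IsCoprime (α i).1 (α i).2)
    (S : Finset ℕ) {w : ℕ} (hw : w ≠ 0) {R : Set (ℝ × ℝ)} (hb : Bornology.IsBounded R)
    (hf : volume (frontier R) = 0) (hm : MeasurableSet R) :
    Tendsto (fun t : ℝ => ((AW α S w ∩ LP R 0 t).ncard : ℝ) / t ^ 2) atTop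
      (𝓝 (dw α S w * volume.real R)) := by
  obtain ⟨C, hC, P₀, h⟩ := diff_bound hq α hcop S hw hb
  rw [Metric.tendsto_atTop]
  intro ε hε
  have h1 : Tendsto (fun P : ℕ => C * (1 / (P : ℝ))) atTop (𝓝 0) := by
    have := (tendsto_one_div_atTop_nhds_zero_nat (𝕜 := ℝ)).const_mul C
    rwa [mul_zero] at this
  have h2 : Tendsto (fun P : ℕ => dP α S w P * volume.real R) atTop
      (𝓝 (dw α S w * volume.real R)) := (dP_tendsto α S w).mul_const _
  obtain ⟨P, hP1, hP2, hP3⟩ : ∃ P : ℕ, P₀ ≤ P ∧ C * (1 / (P : ℝ)) < ε / 4 ∧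
      |dP α S w P * volume.real R - dw α S w * volume.real R| < ε / 4 := by
    have e1 := h1.eventually (gt_mem_nhds (by positivity : (0 : ℝ) < ε / 4))
    have e2 := (Metric.tendsto_nhds.1 h2) (ε / 4) (by positivity)
    obtain ⟨P, h3, h4, h5⟩ := ((eventually_ge_atTop P₀).and (e1.and e2)).exists
    exact ⟨P, h3, h4, h5⟩
  have h3 := per_lat (MP_pos w P) (AP_per α S w P) hb hf hm
  rw [AP_pd, ← dP] at h3
  have h4 : Tendsto (fun t : ℝ => C * (1 / Real.sqrt t)) atTop (𝓝 0) := by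
    have h5 : Tendsto (fun t : ℝ => 1 / Real.sqrt t) atTop (𝓝 0) :=
      tendsto_const_nhds.div_atTop Real.tendsto_sqrt_atTop
    have := h5.const_mul C
    rwa [mul_zero] at this
  have e3 := (Metric.tendsto_nhds.1 h3) (ε / 4) (by positivity)
  have e4 := h4.eventually (gt_mem_nhds (by positivity : (0 : ℝ) < ε / 4))
  obtain ⟨T, hT⟩ := ((eventually_ge_atTop (1 : ℝ)).and (e3.and e4)).exists_forall_of_atTop
  refine ⟨T, fun t ht => ?_⟩
  obtain ⟨g1, g2, g3⟩ := hT t ht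
  have g4 := h P hP1 t g1
  rw [Real.dist_eq] at g2 ⊢
  have g5 : C * (1 / (P : ℝ) + 1 / Real.sqrt t) < ε / 2 := by
    rw [mul_add]; linarith
  rw [abs_lt] at g2 hP3 ⊢
  rw [abs_le] at g4
  constructor <;> linarith [g4.1, g4.2]

end Pool.Agent.W5h35.LW
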