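import Pool.Agent.W5h35.LW.Lim

/-!
# The Euler product
-/

set_option autoImplicit false

namespace Pool.Agent.W5h35.LW

open Filter Topology MeasureTheory

variable {q : ℕ}

/-- the product of local sums -/
theorem smooth_prod (g : ℕ → ℕ → ENNReal) (P : ℕ) :
    ∑' m : P.smoothNumbers, ∏ p ∈ P.primesBelow, g p ((m : ℕ).factorization p) =
      ∏ p ∈ P.primesBelow, ∑' j, g p j := by
  induction P with
  | zero =>
    have h1 : Nat.primesBelow 0 = ∅ := by
      ext p
      rw [Nat.mem_primesBelow]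
      simp
    rw [h1]
    simp only [Finset.prod_empty]
    rw [tsum_eq_single ⟨1, by rw [Nat.smoothNumbers_zero]; exact Set.mem_singleton 1⟩]
    intro m hm
    exfalso
    apply hm
    have h2 : (m : ℕ) ∈ Nat.smoothNumbers 0 := m.2
    have h3 := (Set.ext_iff.1 Nat.smoothNumbers_zero (m : ℕ)).1 h2
    exact Subtype.ext (Set.mem_singleton_iff.1 h3)
  | succ P ih =>
    by_cases hP : P.Prime
    · have hnot : P ∉ P.primesBelow := fun h => lt_irrefl _ (Nat.lt_of_mem_primesBelow h)
      have hbelow : (P + 1).primesBelow = insert P P.primesBelow := by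
        rw [Nat.primesBelow_succ, if_pos hP]
      rw [hbelow, Finset.prod_insert hnot, ← ih,
        ← (Nat.equivProdNatSmoothNumbers hP).tsum_eq]
      have e1 : ∀ c : ℕ × P.smoothNumbers,
          ∏ p ∈ insert P P.primesBelow,
            g p (((Nat.equivProdNatSmoothNumbers hP c : (P + 1).smoothNumbers) : ℕ).factorization p) =
          g P c.1 * ∏ p ∈ P.primesBelow, g p ((c.2 : ℕ).factorization p) := by
        rintro ⟨e, m⟩
        rw [Nat.equivProdNatSmoothNumbers_apply', Finset.prod_insert hnot]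
        have hm0 : (m : ℕ) ≠ 0 := Nat.ne_zero_of_mem_smoothNumbers m.2
        have hPe : P ^ e ≠ 0 := pow_ne_zero _ hP.ne_zero
        have hf : ∀ r, (P ^ e * (m : ℕ)).factorization r =
            (if r = P then e else 0) + (m : ℕ).factorization r := by
          intro r
          rw [Nat.factorization_mul hPe hm0, Finsupp.add_apply, Nat.Prime.factorization_pow hP,
            Finsupp.single_apply]
          congr 1
          by_cases h : P = r
          · rw [if_pos h, if_pos h.symm]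
          · rw [if_neg h, if_neg fun h' => h h'.symm]
        congr 1
        · rw [hf, if_pos rfl]
          have h2 : (m : ℕ).factorization P = 0 := by
            refine Nat.factorization_eq_zero_of_not_dvd fun h => ?_
            have := (Nat.mem_smoothNumbers'.1 m.2) P hP h
            exact lt_irrefl _ this
          rw [h2, add_zero]
        · refine Finset.prod_congr rfl fun r hr => ?_
          rw [hf, if_neg, zero_add]
          rintro rfl
          exact hnot hr
      rw [tsum_congr e1]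
      have e2 := ENNReal.tsum_prod (f := fun (a : ℕ) (b : P.smoothNumbers) =>
        g P a * ∏ p ∈ P.primesBelow, g p ((b : ℕ).factorization p))
      refine e2.trans ?_
      simp only [ENNReal.tsum_mul_left, ENNReal.tsum_mul_right]
    · have hbelow : (P + 1).primesBelow = P.primesBelow := by
        rw [Nat.primesBelow_succ, if_neg hP]
      rw [hbelow, ← ih, Nat.smoothNumbers_succ hP]

/-- the local weight -/
noncomputable def lw (α : Fin q → ℤ × ℤ) (S : Finset ℕ) (p j : ℕ) : ℝ :=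
  lp α S p j * (p : ℝ) ^ (2 * (j : ℝ) / (q : ℝ))

theorem lw_nonneg (α : Fin q → ℤ × ℤ) (S : Finset ℕ) (p j : ℕ) : 0 ≤ lw α S p j :=
  mul_nonneg (lp_nonneg _ _ _ _) (Real.rpow_nonneg (Nat.cast_nonneg _) _)

/-- the remaining product -/
noncomputable def eQ (α : Fin q → ℤ × ℤ) (S : Finset ℕ) (P Q : ℕ) : ℝ :=
  ∏ p ∈ Q.primesBelow \ P.primesBelow, lp α S p 0

theorem primesBelow_mono {P Q : ℕ} (h : P ≤ Q) : P.primesBelow ⊆ Q.primesBelow := by
  intro p hp
  rw [Nat.mem_primesBelow] at hp ⊢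
  exact ⟨lt_of_lt_of_le hp.1 h, hp.2⟩

theorem fact_zero_of_smooth {w P p : ℕ} (hw : w ∈ P.smoothNumbers) (hp : p.Prime) (h : P ≤ p) :
    w.factorization p = 0 := by
  refine Nat.factorization_eq_zero_of_not_dvd fun h1 => ?_
  have := (Nat.mem_smoothNumbers'.1 hw) p hp h1
  omega

theorem dP_split (α : Fin q → ℤ × ℤ) (S : Finset ℕ) {w P Q : ℕ} (hw : w ∈ P.smoothNumbers)
    (h : P ≤ Q) : dP α S w Q = dP α S w P * eQ α S P Q := by
  unfold dP eQ
  rw [← Finset.prod_sdiff (primesBelow_mono h), mul_comm]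
  congr 1
  refine Finset.prod_congr rfl fun p hp => ?_
  rw [Finset.mem_sdiff, Nat.mem_primesBelow, Nat.mem_primesBelow] at hp
  rw [fact_zero_of_smooth hw hp.1.2 (by
    by_contra hcon
    exact hp.2 ⟨by omega, hp.1.2⟩)]

/-- there is a limit of the remaining product -/
theorem exists_eP (α : Fin q → ℤ × ℤ) (S : Finset ℕ) (P : ℕ) :
    ∃ e : ℝ, 0 ≤ e ∧ Tendsto (eQ α S P) atTop (𝓝 e) := by
  have hanti : Antitone (eQ α S P) := by
    intro Q Q' h
    unfold eQ
    have hsub : Q.primesBelow \ P.primesBelow ⊆ Q'.primesBelow \ P.primesBelow :=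
      Finset.sdiff_subset_sdiff (primesBelow_mono h) (Finset.Subset.refl _)
    rw [← Finset.prod_sdiff hsub]
    have h1 : 0 ≤ ∏ p ∈ Q.primesBelow \ P.primesBelow, lp α S p 0 :=
      Finset.prod_nonneg fun _ _ => lp_nonneg _ _ _ _
    calc _ ≤ 1 * ∏ p ∈ Q.primesBelow \ P.primesBelow, lp α S p 0 :=
          mul_le_mul_of_nonneg_right (Finset.prod_le_one (fun _ _ => lp_nonneg _ _ _ _)
            fun _ _ => lp_le_one _ _ _ _) h1
      _ = _ := one_mul _
  have hb : BddBelow (Set.range (eQ α S P)) :=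
    ⟨0, by rintro _ ⟨Q, rfl⟩; exact Finset.prod_nonneg fun _ _ => lp_nonneg _ _ _ _⟩
  exact ⟨⨅ Q, eQ α S P Q, Real.iInf_nonneg fun _ => Finset.prod_nonneg fun _ _ => lp_nonneg _ _ _ _,
    tendsto_atTop_ciInf hanti hb⟩

/-- the limit of the remaining product -/
noncomputable def eP (α : Fin q → ℤ × ℤ) (S : Finset ℕ) (P : ℕ) : ℝ := (exists_eP α S P).choose

theorem eP_nonneg (α : Fin q → ℤ × ℤ) (S : Finset ℕ) (P : ℕ) : 0 ≤ eP α S P :=
  (exists_eP α S P).choose_spec.1

theorem eP_tendsto (α : Fin q → ℤ × ℤ) (S : Finset ℕ) (P : ℕ) :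
    Tendsto (eQ α S P) atTop (𝓝 (eP α S P)) := (exists_eP α S P).choose_spec.2

theorem dw_eq (α : Fin q → ℤ × ℤ) (S : Finset ℕ) {w P : ℕ} (hw : w ∈ P.smoothNumbers) :
    dw α S w = dP α S w P * eP α S P := by
  have h1 := (eP_tendsto α S P).const_mul (dP α S w P)
  refine tendsto_nhds_unique (dP_tendsto α S w) (h1.congr' ?_)
  filter_upwards [eventually_ge_atTop P] with Q hQ
  exact (dP_split α S hw hQ).symm

theorem rpow_fact {w P : ℕ} (hw : w ∈ P.smoothNumbers) (s : ℝ) :
    (w : ℝ) ^ s = ∏ p ∈ P.primesBelow, (p : ℝ) ^ (((w.factorization p : ℕ) : ℝ) * s) := by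
  have hw0 : w ≠ 0 := Nat.ne_zero_of_mem_smoothNumbers hw
  have h1 : (w : ℝ) = ∏ p ∈ P.primesBelow, (p : ℝ) ^ (w.factorization p) := by
    have h2 : w = ∏ p ∈ P.primesBelow, p ^ w.factorization p := by
      conv_lhs => rw [← Nat.prod_factorization_pow_eq_self hw0]
      rw [Finsupp.prod]
      refine Finset.prod_subset ?_ ?_
      · intro p hp
        rw [Nat.support_factorization, Nat.mem_primeFactors] at hp
        rw [Nat.mem_primesBelow]
        exact ⟨(Nat.mem_smoothNumbers'.1 hw) p hp.1 hp.2.1, hp.1⟩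
      · intro p _ hp
        rw [Finsupp.notMem_support_iff] at hp
        rw [hp, pow_zero]
    conv_lhs => rw [h2]
    push_cast
    rfl
  rw [h1, ← Real.finsetProd_rpow _ _ fun p _ => by positivity]
  refine Finset.prod_congr rfl fun p _ => ?_
  rw [← Real.rpow_natCast, ← Real.rpow_mul (Nat.cast_nonneg _)]

theorem aw_eq (α : Fin q → ℤ × ℤ) (S : Finset ℕ) {w P : ℕ} (hw : w ∈ P.smoothNumbers) :
    aw α S w = eP α S P * ∏ p ∈ P.primesBelow, lw α S p (w.factorization p) := by
  unfold aw lw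
  rw [dw_eq α S hw, rpow_fact hw, Finset.prod_mul_distrib]
  unfold dP
  have : ∀ p : ℕ, ((w.factorization p : ℕ) : ℝ) * (2 / (q : ℝ)) =
      2 * ((w.factorization p : ℕ) : ℝ) / (q : ℝ) := fun p => by ring
  simp only [this]
  ring

/-- the local factor -/
noncomputable def sE (α : Fin q → ℤ × ℤ) (S : Finset ℕ) (p : ℕ) : ENNReal :=
  ∑' j, ENNReal.ofReal (lw α S p j)

theorem smooth_sum (α : Fin q → ℤ × ℤ) (S : Finset ℕ) (P : ℕ) :
    ∑' w : P.smoothNumbers, ENNReal.ofReal (aw α S w) =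
      ENNReal.ofReal (eP α S P) * ∏ p ∈ P.primesBelow, sE α S p := by
  unfold sE
  rw [← smooth_prod (fun p j => ENNReal.ofReal (lw α S p j)) P, ← ENNReal.tsum_mul_left]
  refine tsum_congr fun w => ?_
  rw [aw_eq α S w.2, ENNReal.ofReal_mul (eP_nonneg α S P),
    ENNReal.ofReal_prod_of_nonneg fun p _ => lw_nonneg α S p _]

/-- the remaining product tends to one -/
theorem eP_lim {α : Fin q → ℤ × ℤ} {S : Finset ℕ} {w₀ : ℕ} (hw₀ : 0 < dw α S w₀) (h0 : w₀ ≠ 0) :
    Tendsto (eP α S) atTop (𝓝 1) := by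
  have h1 : Tendsto (fun P => dw α S w₀ / dP α S w₀ P) atTop (𝓝 (dw α S w₀ / dw α S w₀)) :=
    tendsto_const_nhds.div (dP_tendsto α S w₀) hw₀.ne'
  rw [div_self hw₀.ne'] at h1
  refine h1.congr' ?_
  filter_upwards [eventually_gt_atTop w₀] with P hP
  have h2 := dw_eq α S (Nat.mem_smoothNumbers_of_lt (Nat.pos_of_ne_zero h0) hP)
  have h3 : 0 < dP α S w₀ P := lt_of_lt_of_le hw₀ (dw_le α S w₀ P)
  rw [h2]
  field_simp

theorem smooth_lim {a : ℕ → ENNReal} (h0 : a 0 = 0) :
    Tendsto (fun P : ℕ => ∑' w : P.smoothNumbers, a w) atTop (𝓝 (∑' w, a w)) := by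
  have h1 : ∀ P : ℕ, ∑' w : P.smoothNumbers, a w = ∑' w, (P.smoothNumbers).indicator a w :=
    fun P => tsum_subtype _ _
  simp only [h1]
  have hmono : Monotone fun P : ℕ => ∑' w, (P.smoothNumbers).indicator a w := by
    intro P Q h
    refine ENNReal.tsum_le_tsum fun w => ?_
    refine Set.indicator_le_indicator_of_subset ?_ (fun _ => bot_le) w
    intro m hm
    rw [Nat.mem_smoothNumbers'] at hm ⊢
    exact fun p h1 h2 => lt_of_lt_of_le (hm p h1 h2) h
  have h2 := tendsto_atTop_iSup hmono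
  have h3 : ⨆ P : ℕ, ∑' w, (P.smoothNumbers).indicator a w = ∑' w, a w := by
    refine le_antisymm (iSup_le fun P => ENNReal.tsum_le_tsum fun w =>
      Set.indicator_le_self' (fun _ _ => bot_le) w) ?_
    rw [ENNReal.tsum_eq_iSup_sum]
    refine iSup_le fun s => ?_
    refine le_trans ?_ (le_iSup _ (s.sup id + 1))
    refine le_trans (Finset.sum_le_sum fun w hw => ?_) (ENNReal.sum_le_tsum s)
    rcases Nat.eq_zero_or_pos w with h | h
    · rw [h, h0]; exact bot_le
    · have h4 : w ≤ s.sup id := Finset.le_sup (f := id) hw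
      rw [Set.indicator_of_mem (Nat.mem_smoothNumbers_of_lt h (by omega))]
  rwa [h3] at h2

theorem euler (hq : 1 ≤ q) {α : Fin q → ℤ × ℤ} {S : Finset ℕ} (hsum : Summable (aw α S)) {w₀ : ℕ}
    (hw₀ : 0 < aw α S w₀) :
    (∀ p, p.Prime → Summable (lw α S p)) ∧
    Tendsto (fun P : ℕ => ∏ p ∈ P.primesBelow, ∑' j, lw α S p j) atTop (𝓝 (∑' w, aw α S w)) := by
  have h0 : w₀ ≠ 0 := by
    rintro rfl
    rw [aw_zero hq] at hw₀
    exact lt_irrefl _ hw₀
  have hdw : 0 < dw α S w₀ := by
    unfold aw at hw₀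
    exact pos_of_mul_pos_left hw₀ (Real.rpow_nonneg (Nat.cast_nonneg _) _)
  have hlim := eP_lim hdw h0
  have hfin : ∑' w, ENNReal.ofReal (aw α S w) ≠ ⊤ := by
    rw [← ENNReal.ofReal_tsum_of_nonneg (aw_nonneg α S) hsum]
    exact ENNReal.ofReal_ne_top
  have hS0 : ∀ p, p.Prime → sE α S p ≠ 0 := by
    intro p hp hz
    have h1 : dP α S w₀ (p + 1) = 0 := by
      unfold dP
      refine Finset.prod_eq_zero (Nat.mem_primesBelow.2 ⟨Nat.lt_succ_self p, hp⟩) ?_
      unfold sE at hz
      rw [ENNReal.tsum_eq_zero] at hz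
      have h2 := hz (w₀.factorization p)
      rw [ENNReal.ofReal_eq_zero] at h2
      have h3 : lw α S p (w₀.factorization p) = 0 := le_antisymm h2 (lw_nonneg _ _ _ _)
      unfold lw at h3
      have h4 : (0 : ℝ) < (p : ℝ) ^ (2 * ((w₀.factorization p : ℕ) : ℝ) / (q : ℝ)) :=
        Real.rpow_pos_of_pos (by exact_mod_cast hp.pos) _
      exact (mul_eq_zero.1 h3).resolve_right h4.ne'
    have h5 := dw_le α S w₀ (p + 1)
    rw [h1] at h5
    linarith
  have hprod : ∀ᶠ P : ℕ in atTop, ∏ p ∈ P.primesBelow, sE α S p ≠ ⊤ := by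
    filter_upwards [hlim.eventually (lt_mem_nhds (by norm_num : (0 : ℝ) < 1))] with P hP htop
    apply hfin
    have h1 := smooth_sum α S P
    rw [htop, ENNReal.mul_top (by rw [Ne, ENNReal.ofReal_eq_zero, not_le]; exact hP)] at h1
    rw [← top_le_iff, ← h1]
    exact ENNReal.tsum_comp_le_tsum_of_injective Subtype.val_injective _
  have hSfin : ∀ p, p.Prime → sE α S p ≠ ⊤ := by
    intro p hp htop
    obtain ⟨P, hP1, hP2⟩ := (hprod.and (eventually_gt_atTop p)).exists
    apply hP1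
    have hmem : p ∈ P.primesBelow := Nat.mem_primesBelow.2 ⟨hP2, hp⟩
    rw [← Finset.mul_prod_erase _ _ hmem, htop, ENNReal.top_mul]
    rw [Finset.prod_ne_zero_iff]
    exact fun r hr => hS0 r (Nat.prime_of_mem_primesBelow (Finset.mem_of_mem_erase hr))
  have hsumm : ∀ p, p.Prime → Summable (lw α S p) := by
    intro p hp
    have h2 := ENNReal.summable_toReal (hSfin p hp)
    refine h2.congr fun j => ?_
    rw [ENNReal.toReal_ofReal (lw_nonneg α S p j)]
  refine ⟨hsumm, ?_⟩
  have hreal : ∀ p, p.Prime → (sE α S p).toReal = ∑' j, lw α S p j := by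
    intro p hp
    unfold sE
    rw [← ENNReal.ofReal_tsum_of_nonneg (lw_nonneg α S p) (hsumm p hp),
      ENNReal.toReal_ofReal (tsum_nonneg (lw_nonneg α S p))]
  have h1 := smooth_lim (a := fun w => ENNReal.ofReal (aw α S w)) (by
    show ENNReal.ofReal (aw α S 0) = 0
    rw [aw_zero hq, ENNReal.ofReal_zero])
  have h2 := (ENNReal.tendsto_toReal hfin).comp h1
  have h3 : (∑' w, ENNReal.ofReal (aw α S w)).toReal = ∑' w, aw α S w := by
    rw [← ENNReal.ofReal_tsum_of_nonneg (aw_nonneg α S) hsum,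
      ENNReal.toReal_ofReal (tsum_nonneg (aw_nonneg α S))]
  rw [h3] at h2
  have h4 := h2.div hlim one_ne_zero
  rw [div_one] at h4
  refine h4.congr' ?_
  filter_upwards [hlim.eventually (lt_mem_nhds (by norm_num : (0 : ℝ) < 1))] with P hP
  simp only [Function.comp_apply, Pi.div_apply]
  rw [smooth_sum α S P, ENNReal.toReal_mul, ENNReal.toReal_ofReal (eP_nonneg α S P),
    ENNReal.toReal_prod, mul_div_cancel_left₀ _ hP.ne']
  refine Finset.prod_congr rfl fun p hp => ?_
  exact hreal p (Nat.prime_of_mem_primesBelow hp)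

end Pool.Agent.W5h35.LW
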