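import Pool.Agent.W5h35.LW.Dens

/-!
# The local densities at the good primes
-/

set_option autoImplicit false

namespace Pool.Agent.W5h35.LW

open Filter Topology

variable {q : ℕ}

open Classical in
/-- residues in one dimension -/
noncomputable def r1 (M : ℕ) (A : Set ℤ) : Finset ℤ := (Finset.Ico (0 : ℤ) M).filter (· ∈ A)

theorem mem_r1 {M : ℕ} {A : Set ℤ} {a : ℤ} : a ∈ r1 M A ↔ (0 ≤ a ∧ a < M) ∧ a ∈ A := by
  classical
  unfold r1
  rw [Finset.mem_filter, Finset.mem_Ico]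

theorem rs_prod (M : ℕ) (A B : Set ℤ) : rs M (A ×ˢ B) = r1 M A ×ˢ r1 M B := by
  classical
  ext x
  rw [mem_rs, Finset.mem_product, mem_r1, mem_r1, Set.mem_prod]
  tauto

theorem pd_prod (M : ℕ) (A B : Set ℤ) :
    pd M (A ×ˢ B) = ((r1 M A).card / M : ℝ) * ((r1 M B).card / M : ℝ) := by
  unfold pd
  rw [rs_prod, Finset.card_product, Nat.cast_mul]
  ring

theorem r1_dvd (p k m : ℕ) (hp : 0 < p) (hm : m ≤ k) :
    (r1 (p ^ k) {a | ((p ^ m : ℕ) : ℤ) ∣ a}).card = p ^ (k - m) := by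
  classical
  have h1 : r1 (p ^ k) {a | ((p ^ m : ℕ) : ℤ) ∣ a} =
      (Finset.Ico (0 : ℤ) ((p ^ (k - m) : ℕ) : ℤ)).image (fun b => ((p ^ m : ℕ) : ℤ) * b) := by
    ext a
    rw [mem_r1, Finset.mem_image]
    have hpm : (0 : ℤ) < ((p ^ m : ℕ) : ℤ) := by positivity
    have e : ((p ^ k : ℕ) : ℤ) = ((p ^ m : ℕ) : ℤ) * ((p ^ (k - m) : ℕ) : ℤ) := by
      rw [← Nat.cast_mul, ← pow_add, Nat.add_sub_cancel' hm]
    rw [e]
    constructor
    · rintro ⟨⟨h2, h3⟩, ⟨b, rfl⟩⟩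
      refine ⟨b, ?_, rfl⟩
      rw [Finset.mem_Ico]
      exact ⟨nonneg_of_mul_nonneg_right h2 hpm, lt_of_mul_lt_mul_left h3 hpm.le⟩
    · rintro ⟨b, hb, rfl⟩
      rw [Finset.mem_Ico] at hb
      exact ⟨⟨mul_nonneg hpm.le hb.1, mul_lt_mul_of_pos_left hb.2 hpm⟩, dvd_mul_right _ _⟩
  rw [h1, Finset.card_image_of_injective, Int.card_Ico]
  · rw [sub_zero, Int.toNat_natCast]
  · intro b c hbc
    have hpm : ((p ^ m : ℕ) : ℤ) ≠ 0 := by positivity
    exact mul_left_cancel₀ hpm hbc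

theorem r1_univ (M : ℕ) : (r1 M Set.univ).card = M := by
  have h : r1 M Set.univ = Finset.Ico (0 : ℤ) M := by
    ext a
    rw [mem_r1, Finset.mem_Ico]
    exact ⟨fun h => h.1, fun h => ⟨h, Set.mem_univ _⟩⟩
  rw [h, Int.card_Ico, sub_zero, Int.toNat_natCast]

theorem r1_diff {M : ℕ} {A B : Set ℤ} (h : B ⊆ A) :
    ((r1 M (A \ B)).card : ℝ) = (r1 M A).card - (r1 M B).card := by
  classical
  have h1 : r1 M (A \ B) = r1 M A \ r1 M B := by
    ext a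
    rw [Finset.mem_sdiff, mem_r1, mem_r1, mem_r1, Set.mem_sdiff]
    tauto
  have h2 : r1 M B ⊆ r1 M A := by
    intro a ha
    rw [mem_r1] at ha ⊢
    exact ⟨ha.1, h ha.2⟩
  rw [h1, Finset.card_sdiff_of_subset h2, Nat.cast_sub (Finset.card_le_card h2)]

theorem pd_diff {M : ℕ} {A B : Set (ℤ × ℤ)} (h : B ⊆ A) : pd M (A \ B) = pd M A - pd M B := by
  classical
  have h1 : rs M (A \ B) = rs M A \ rs M B := by
    ext a
    rw [Finset.mem_sdiff, mem_rs, mem_rs, mem_rs, Set.mem_sdiff]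
    tauto
  have h2 : rs M B ⊆ rs M A := by
    intro a ha
    rw [mem_rs] at ha ⊢
    exact ⟨ha.1, h ha.2⟩
  unfold pd
  rw [h1, Finset.card_sdiff_of_subset h2, Nat.cast_sub (Finset.card_le_card h2)]
  ring

theorem pd_iUnion {M : ℕ} (A : Fin q → Set (ℤ × ℤ))
    (h : ∀ i j, i ≠ j → Disjoint (A i) (A j)) :
    pd M (⋃ i, A i) = ∑ i, pd M (A i) := by
  classical
  have h1 : rs M (⋃ i, A i) = Finset.univ.biUnion fun i => rs M (A i) := by
    ext a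
    rw [Finset.mem_biUnion, mem_rs, Set.mem_iUnion]
    constructor
    · rintro ⟨h2, i, hi⟩
      exact ⟨i, Finset.mem_univ i, mem_rs.2 ⟨h2, hi⟩⟩
    · rintro ⟨i, -, hi⟩
      rw [mem_rs] at hi
      exact ⟨hi.1, i, hi.2⟩
  unfold pd
  rw [h1, Finset.card_biUnion, Nat.cast_sum, Finset.sum_div]
  intro i _ j _ hij
  show Disjoint (rs M (A i)) (rs M (A j))
  rw [Finset.disjoint_left]
  intro a ha hb
  exact Set.disjoint_left.1 (h i j hij) (mem_rs.1 ha).2 (mem_rs.1 hb).2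

/-- unimodular substitutions preserve the density -/
theorem pd_sl {M : ℕ} (hM : 0 < M) {A : Set (ℤ × ℤ)} (hA : Per M A) (a b u v : ℤ)
    (h : b * v + a * u = 1) :
    pd M {x | (x.1 * b - x.2 * a, x.1 * u + x.2 * v) ∈ A} = pd M A := by
  classical
  have hM' : (0 : ℤ) < M := by exact_mod_cast hM
  have key : (rs M {x | (x.1 * b - x.2 * a, x.1 * u + x.2 * v) ∈ A}).card = (rs M A).card := by
    have uniq : ∀ (a b : ℤ), 0 ≤ a → a < M → 0 ≤ b → b < M → (M : ℤ) ∣ a - b → a = b := by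
      intro a b h1 h2 h3 h4 h5
      have h6 : a % M = b % M := Int.emod_eq_emod_iff_emod_sub_eq_zero.2 (Int.emod_eq_zero_of_dvd h5)
      rwa [Int.emod_eq_of_lt h1 h2, Int.emod_eq_of_lt h3 h4] at h6
    have hbox : ∀ z : ℤ × ℤ, (0 ≤ (md M z).1 ∧ (md M z).1 < M) ∧ 0 ≤ (md M z).2 ∧ (md M z).2 < M :=
      fun z => ⟨⟨Int.emod_nonneg _ hM'.ne', Int.emod_lt_of_pos _ hM'⟩, Int.emod_nonneg _ hM'.ne',
        Int.emod_lt_of_pos _ hM'⟩
    have hd1 : ∀ z : ℤ × ℤ, (M : ℤ) ∣ z.1 - (md M z).1 := fun z => Int.dvd_self_sub_emod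
    have hd2 : ∀ z : ℤ × ℤ, (M : ℤ) ∣ z.2 - (md M z).2 := fun z => Int.dvd_self_sub_emod
    refine Finset.card_bij' (fun x _ => md M (x.1 * b - x.2 * a, x.1 * u + x.2 * v))
      (fun y _ => md M (v * y.1 + a * y.2, -(u * y.1) + b * y.2)) ?_ ?_ ?_ ?_
    · intro x hx
      rw [mem_rs] at hx
      exact md_mem hM hA hx.2
    · intro y hy
      rw [mem_rs] at hy
      rw [mem_rs]
      refine ⟨hbox _, ?_⟩
      obtain ⟨k1, hk1⟩ := hd1 (v * y.1 + a * y.2, -(u * y.1) + b * y.2)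
      obtain ⟨k2, hk2⟩ := hd2 (v * y.1 + a * y.2, -(u * y.1) + b * y.2)
      simp only at hk1 hk2
      set z := md M (v * y.1 + a * y.2, -(u * y.1) + b * y.2)
      refine hA y (z.1 * b - z.2 * a, z.1 * u + z.2 * v) ⟨k1 * b - k2 * a, ?_⟩
        ⟨k1 * u + k2 * v, ?_⟩ hy.2
      · simp only
        have e1 : z.1 = v * y.1 + a * y.2 - M * k1 := by linarith
        have e2 : z.2 = -(u * y.1) + b * y.2 - M * k2 := by linarith
        rw [e1, e2]
        linear_combination (-y.1) * h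
      · simp only
        have e1 : z.1 = v * y.1 + a * y.2 - M * k1 := by linarith
        have e2 : z.2 = -(u * y.1) + b * y.2 - M * k2 := by linarith
        rw [e1, e2]
        linear_combination (-y.2) * h
    · intro x hx
      rw [mem_rs] at hx
      obtain ⟨k1, hk1⟩ := hd1 (x.1 * b - x.2 * a, x.1 * u + x.2 * v)
      obtain ⟨k2, hk2⟩ := hd2 (x.1 * b - x.2 * a, x.1 * u + x.2 * v)
      simp only at hk1 hk2
      set y := md M (x.1 * b - x.2 * a, x.1 * u + x.2 * v)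
      obtain ⟨l1, hl1⟩ := hd1 (v * y.1 + a * y.2, -(u * y.1) + b * y.2)
      obtain ⟨l2, hl2⟩ := hd2 (v * y.1 + a * y.2, -(u * y.1) + b * y.2)
      have hb' := hbox (v * y.1 + a * y.2, -(u * y.1) + b * y.2)
      simp only at hl1 hl2
      set z := md M (v * y.1 + a * y.2, -(u * y.1) + b * y.2)
      have e1 : y.1 = x.1 * b - x.2 * a - M * k1 := by linarith
      have e2 : y.2 = x.1 * u + x.2 * v - M * k2 := by linarith
      rw [e1, e2] at hl1 hl2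
      refine Prod.ext (uniq _ _ hb'.1.1 hb'.1.2 hx.1.1.1 hx.1.1.2
        ⟨-(v * k1 + a * k2 + l1), ?_⟩) (uniq _ _ hb'.2.1 hb'.2.2 hx.1.2.1 hx.1.2.2
        ⟨-(-(u * k1) + b * k2 + l2), ?_⟩)
      · linear_combination (x.1) * h - hl1
      · linear_combination (x.2) * h - hl2
    · intro y hy
      rw [mem_rs] at hy
      obtain ⟨k1, hk1⟩ := hd1 (v * y.1 + a * y.2, -(u * y.1) + b * y.2)
      obtain ⟨k2, hk2⟩ := hd2 (v * y.1 + a * y.2, -(u * y.1) + b * y.2)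
      simp only at hk1 hk2
      set x := md M (v * y.1 + a * y.2, -(u * y.1) + b * y.2)
      obtain ⟨l1, hl1⟩ := hd1 (x.1 * b - x.2 * a, x.1 * u + x.2 * v)
      obtain ⟨l2, hl2⟩ := hd2 (x.1 * b - x.2 * a, x.1 * u + x.2 * v)
      have hb' := hbox (x.1 * b - x.2 * a, x.1 * u + x.2 * v)
      simp only at hl1 hl2
      set z := md M (x.1 * b - x.2 * a, x.1 * u + x.2 * v)
      have e1 : x.1 = v * y.1 + a * y.2 - M * k1 := by linarith
      have e2 : x.2 = -(u * y.1) + b * y.2 - M * k2 := by linarith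
      rw [e1, e2] at hl1 hl2
      refine Prod.ext (uniq _ _ hb'.1.1 hb'.1.2 hy.1.1.1 hy.1.1.2
        ⟨-(b * k1 - a * k2 + l1), ?_⟩) (uniq _ _ hb'.2.1 hb'.2.2 hy.1.2.1 hy.1.2.2
        ⟨-(u * k1 + v * k2 + l2), ?_⟩)
      · linear_combination (y.1) * h - hl1
      · linear_combination (y.2) * h - hl2
  unfold pd
  rw [key]

/-- the points with nonzero reduction -/
def Np (p : ℕ) : Set (ℤ × ℤ) := {x | ¬((p : ℤ) ∣ x.1 ∧ (p : ℤ) ∣ x.2)}

theorem pd_Np {p : ℕ} (hp : p.Prime) (k : ℕ) (hk : 1 ≤ k) :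
    pd (p ^ k) (Np p) = 1 - 1 / (p : ℝ) ^ 2 := by
  have hpR : (0 : ℝ) < p := by exact_mod_cast hp.pos
  have h1 : Np p = Set.univ \ ({a : ℤ | ((p ^ 1 : ℕ) : ℤ) ∣ a} ×ˢ {a : ℤ | ((p ^ 1 : ℕ) : ℤ) ∣ a}) := by
    ext x
    rw [pow_one]
    constructor
    · intro h
      exact ⟨Set.mem_univ _, h⟩
    · intro h
      exact h.2
  rw [h1, pd_diff (Set.subset_univ _), pd_prod, r1_dvd p k 1 hp.pos hk]
  have h2 : pd (p ^ k) Set.univ = 1 := by
    have h3 : (Set.univ : Set (ℤ × ℤ)) = (Set.univ : Set ℤ) ×ˢ (Set.univ : Set ℤ) := by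
      rw [Set.univ_prod_univ]
    rw [h3, pd_prod, r1_univ]
    have : ((p ^ k : ℕ) : ℝ) ≠ 0 := by
      rw [Nat.cast_pow]
      exact (pow_pos hpR k).ne'
    rw [div_self this, mul_one]
  rw [h2]
  congr 1
  obtain ⟨m, rfl⟩ : ∃ m, k = m + 1 := ⟨k - 1, by omega⟩
  rw [Nat.add_sub_cancel]
  push_cast
  rw [pow_succ]
  field_simp

/-- a condition on one of the forms and nonzero reduction -/
theorem pd_form {p : ℕ} (hp : p.Prime) (k : ℕ) (hk : 1 ≤ k) {a b : ℤ} (hab : IsCoprime a b)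
    {A : Set ℤ} (hA : ∀ m n : ℤ, ((p ^ k : ℕ) : ℤ) ∣ m - n → m ∈ A → n ∈ A)
    (hAp : ∀ m ∈ A, (p : ℤ) ∣ m) :
    pd (p ^ k) {x | x ∈ Np p ∧ x.1 * b - x.2 * a ∈ A} =
      ((r1 (p ^ k) A).card / ((p ^ k : ℕ) : ℝ)) * (1 - 1 / p) := by
  obtain ⟨u, v, huv⟩ := hab
  have hpR : (0 : ℝ) < p := by exact_mod_cast hp.pos
  have hpk : p ∣ p ^ k := dvd_pow_self p (by omega)
  have h1 : {x : ℤ × ℤ | x ∈ Np p ∧ x.1 * b - x.2 * a ∈ A} =
      {x | (x.1 * b - x.2 * a, x.1 * u + x.2 * v) ∈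
        A ×ˢ (Set.univ \ {c : ℤ | ((p ^ 1 : ℕ) : ℤ) ∣ c})} := by
    ext x
    have key : (x.1 * b - x.2 * a, x.1 * u + x.2 * v) ∈
        A ×ˢ (Set.univ \ {c : ℤ | ((p ^ 1 : ℕ) : ℤ) ∣ c}) ↔
        x.1 * b - x.2 * a ∈ A ∧ ¬ (p : ℤ) ∣ x.1 * u + x.2 * v := by
      rw [Set.mem_prod, pow_one]
      constructor
      · rintro ⟨h2, -, h3⟩
        exact ⟨h2, h3⟩
      · rintro ⟨h2, h3⟩
        exact ⟨h2, Set.mem_univ _, h3⟩
    show (x ∈ Np p ∧ x.1 * b - x.2 * a ∈ A) ↔ _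
    refine Iff.trans ?_ key.symm
    constructor
    · rintro ⟨h2, h3⟩
      refine ⟨h3, fun h4 => h2 ?_⟩
      have h5 := hAp _ h3
      constructor
      · have e : x.1 = v * (x.1 * b - x.2 * a) + a * (x.1 * u + x.2 * v) := by
          linear_combination (-x.1) * huv
        rw [e]
        exact dvd_add (h5.mul_left _) (h4.mul_left _)
      · have e : x.2 = -u * (x.1 * b - x.2 * a) + b * (x.1 * u + x.2 * v) := by
          linear_combination (-x.2) * huv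
        rw [e]
        exact dvd_add (h5.mul_left _) (h4.mul_left _)
    · rintro ⟨h2, h3⟩
      refine ⟨fun h4 => h3 ?_, h2⟩
      exact dvd_add (h4.1.mul_right _) (h4.2.mul_right _)
  rw [h1, pd_sl (pow_pos hp.pos k) ?_ a b u v (by linarith), pd_prod,
    r1_diff (Set.subset_univ _), r1_univ, r1_dvd p k 1 hp.pos hk]
  · congr 1
    obtain ⟨m, rfl⟩ : ∃ m, k = m + 1 := ⟨k - 1, by omega⟩
    rw [Nat.add_sub_cancel]
    push_cast
    rw [pow_succ]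
    field_simp
  · intro x y h2 h3 hx
    rw [Set.mem_prod] at hx ⊢
    refine ⟨hA _ _ h2 hx.1, Set.mem_univ _, fun h4 => hx.2.2 ?_⟩
    have h5 : ((p ^ 1 : ℕ) : ℤ) ∣ x.2 - y.2 := by
      rw [pow_one]
      exact (Int.natCast_dvd_natCast.2 hpk).trans h3
    exact (dvd_iff_dvd_of_dvd_sub h5).2 h4

theorem good_disj {α : Fin q → ℤ × ℤ} {p : ℕ} {i j : Fin q} (hp : p.Prime)
    (hg : ¬ (p : ℤ) ∣ (α i).1 * (α j).2 - (α j).1 * (α i).2) {x : ℤ × ℤ} (hx : x ∈ Np p)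
    (hi : (p : ℤ) ∣ Lf α i x) (hj : (p : ℤ) ∣ Lf α j x) : False := by
  have hpZ : Prime (p : ℤ) := Nat.prime_iff_prime_int.1 hp
  have h1 : (p : ℤ) ∣ x.1 * ((α i).1 * (α j).2 - (α j).1 * (α i).2) := by
    have e : x.1 * ((α i).1 * (α j).2 - (α j).1 * (α i).2) =
        (α i).1 * Lf α j x - (α j).1 * Lf α i x := by
      unfold Lf; ring
    rw [e]
    exact dvd_sub (hj.mul_left _) (hi.mul_left _)
  have h2 : (p : ℤ) ∣ x.2 * ((α i).1 * (α j).2 - (α j).1 * (α i).2) := by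
    have e : x.2 * ((α i).1 * (α j).2 - (α j).1 * (α i).2) =
        (α i).2 * Lf α j x - (α j).2 * Lf α i x := by
      unfold Lf; ring
    rw [e]
    exact dvd_sub (hj.mul_left _) (hi.mul_left _)
  exact hx ⟨(hpZ.dvd_or_dvd h1).resolve_right hg, (hpZ.dvd_or_dvd h2).resolve_right hg⟩

/-- the density of no repeated factor at a good prime -/
theorem lp_zero {α : Fin q → ℤ × ℤ} (hcop : ∀ i, IsCoprime (α i).1 (α i).2) {S : Finset ℕ}
    {p : ℕ} (hp : p.Prime) (hpS : p ∉ S)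
    (hg : ∀ i j, i ≠ j → ¬ (p : ℤ) ∣ (α i).1 * (α j).2 - (α j).1 * (α i).2) :
    lp α S p 0 = 1 - 1 / (p : ℝ) ^ 2 - q * (1 - 1 / p) / (p : ℝ) ^ 2 := by
  have hpR : (0 : ℝ) < p := by exact_mod_cast hp.pos
  have hs : sg S p = 1 := by unfold sg; rw [if_neg hpS]
  unfold lp
  rw [hs]
  let V : Fin q → Set (ℤ × ℤ) := fun i => {x | x ∈ Np p ∧ x.1 * (α i).2 - x.2 * (α i).1 ∈
    {a : ℤ | ((p ^ 2 : ℕ) : ℤ) ∣ a}}
  have hset : Loc α p 1 0 = Np p \ ⋃ i, V i := by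
    ext x
    have e : ∀ i, ep p 1 (0 + 1) (Lf α i x) = 0 ↔ ¬ ((p ^ 2 : ℕ) : ℤ) ∣ Lf α i x := by
      intro i
      unfold ep
      rw [Finset.card_eq_zero, Finset.filter_eq_empty_iff]
      rw [Nat.cast_pow]
      constructor
      · intro h
        exact h (Finset.mem_Icc.2 ⟨le_refl _, le_refl _⟩)
      · intro h k hk
        rw [Finset.mem_Icc] at hk
        have : k = 1 := by omega
        rw [this]
        exact h
    constructor
    · rintro ⟨h1, h2⟩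
      refine ⟨h1, fun h3 => ?_⟩
      obtain ⟨i, hi⟩ := Set.mem_iUnion.1 h3
      rw [Finset.sum_eq_zero_iff] at h2
      exact (e i).1 (h2 i (Finset.mem_univ i)) hi.2
    · rintro ⟨h1, h2⟩
      refine ⟨h1, Finset.sum_eq_zero fun i _ => (e i).2 fun h3 => h2 ?_⟩
      exact Set.mem_iUnion.2 ⟨i, h1, h3⟩
  have hVd : ∀ i j, i ≠ j → Disjoint (V i) (V j) := by
    intro i j hij
    rw [Set.disjoint_left]
    rintro x ⟨h1, h2⟩ ⟨-, h3⟩
    have hpp : (p : ℤ) ∣ ((p ^ 2 : ℕ) : ℤ) := by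
      rw [Nat.cast_pow]; exact dvd_pow_self _ (by norm_num)
    exact good_disj hp (hg i j hij) h1 (hpp.trans h2) (hpp.trans h3)
  rw [hset, pd_diff (Set.iUnion_subset fun i x hx => hx.1), pd_iUnion V hVd,
    pd_Np hp (0 + 2) (by norm_num)]
  have hV : ∀ i, pd (p ^ (0 + 2)) (V i) = (1 - 1 / p) / (p : ℝ) ^ 2 := by
    intro i
    show pd (p ^ (0 + 2)) {x | x ∈ Np p ∧ x.1 * (α i).2 - x.2 * (α i).1 ∈
      {a : ℤ | ((p ^ 2 : ℕ) : ℤ) ∣ a}} = _
    rw [pd_form hp (0 + 2) (by norm_num) (hcop i), r1_dvd p (0 + 2) 2 hp.pos (by norm_num)]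
    · push_cast
      simp only [pow_zero]
      ring
    · intro m n h1 h2
      exact (dvd_iff_dvd_of_dvd_sub h1).1 h2
    · intro m h1
      have hpp : (p : ℤ) ∣ ((p ^ 2 : ℕ) : ℤ) := by
        rw [Nat.cast_pow]; exact dvd_pow_self _ (by norm_num)
      exact hpp.trans h1
  simp only [hV]
  rw [Finset.sum_const, Finset.card_univ, Fintype.card_fin, nsmul_eq_mul]
  ring

/-- the density of exponent `j ≥ 1` at a good prime -/
theorem lp_pos {α : Fin q → ℤ × ℤ} (hcop : ∀ i, IsCoprime (α i).1 (α i).2) {S : Finset ℕ}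
    {p : ℕ} (hp : p.Prime) (hpS : p ∉ S)
    (hg : ∀ i j, i ≠ j → ¬ (p : ℤ) ∣ (α i).1 * (α j).2 - (α j).1 * (α i).2) {j : ℕ} (hj : 1 ≤ j) :
    lp α S p j = q * (1 - 1 / p) ^ 2 / (p : ℝ) ^ (j + 1) := by
  have hpR : (0 : ℝ) < p := by exact_mod_cast hp.pos
  have hs : sg S p = 1 := by unfold sg; rw [if_neg hpS]
  unfold lp
  rw [hs]
  let U : Fin q → Set (ℤ × ℤ) := fun i => {x | x ∈ Np p ∧ x.1 * (α i).2 - x.2 * (α i).1 ∈
    ({a : ℤ | ((p ^ (j + 1) : ℕ) : ℤ) ∣ a} \ {a : ℤ | ((p ^ (j + 2) : ℕ) : ℤ) ∣ a})}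
  have hdvdp : (p : ℤ) ∣ ((p ^ (j + 1) : ℕ) : ℤ) := by
    rw [Nat.cast_pow]; exact dvd_pow_self _ (by omega)
  have hep0 : ∀ n : ℤ, ¬ (p : ℤ) ∣ n → ep p 1 (j + 1) n = 0 := by
    intro n hn
    unfold ep
    rw [Finset.card_eq_zero, Finset.filter_eq_empty_iff]
    intro k _ h
    exact hn ((dvd_pow_self _ (by omega)).trans h)
  have hepj : ∀ n : ℤ, ep p 1 (j + 1) n = j ↔
      n ∈ ({a : ℤ | ((p ^ (j + 1) : ℕ) : ℤ) ∣ a} \ {a : ℤ | ((p ^ (j + 2) : ℕ) : ℤ) ∣ a}) := by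
    intro n
    have hmem : n ∈ ({a : ℤ | ((p ^ (j + 1) : ℕ) : ℤ) ∣ a} \
        {a : ℤ | ((p ^ (j + 2) : ℕ) : ℤ) ∣ a}) ↔ (p : ℤ) ^ (j + 1) ∣ n ∧ ¬ (p : ℤ) ^ (j + 2) ∣ n := by
      rw [← Nat.cast_pow, ← Nat.cast_pow]
      exact Iff.rfl
    rw [hmem]
    rcases eq_or_ne n 0 with rfl | hn
    · constructor
      · intro h
        exfalso
        unfold ep at h
        rw [Finset.filter_true_of_mem (fun _ _ => dvd_zero _), Nat.card_Icc] at h
        omega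
      · rintro ⟨-, h⟩
        exact absurd (dvd_zero _) h
    · rw [ep_eq hp 1 (j + 1) hn]
      have hk : ∀ k : ℕ, (p : ℤ) ^ k ∣ n ↔ k ≤ n.natAbs.factorization p := by
        intro k
        rw [← Nat.cast_pow, ← Int.dvd_natAbs, Int.natCast_dvd_natCast,
          hp.pow_dvd_iff_le_factorization (Int.natAbs_ne_zero.2 hn)]
      rw [hk, hk]
      omega
  have hset : Loc α p 1 j = ⋃ i, U i := by
    ext x
    constructor
    · rintro ⟨h1, h2⟩
      have h3 : ∃ i, (p : ℤ) ∣ Lf α i x := by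
        by_contra hcon
        push Not at hcon
        rw [Finset.sum_eq_zero fun i _ => hep0 _ (hcon i)] at h2
        omega
      obtain ⟨i, hi⟩ := h3
      refine Set.mem_iUnion.2 ⟨i, h1, ?_⟩
      rw [Finset.sum_eq_single i (fun l _ hl => hep0 _ fun h4 =>
        good_disj hp (hg l i hl) h1 h4 hi) (fun h => absurd (Finset.mem_univ i) h)] at h2
      exact (hepj _).1 h2
    · intro hx
      obtain ⟨i, h1, h2⟩ := Set.mem_iUnion.1 hx
      refine ⟨h1, ?_⟩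
      have hi : (p : ℤ) ∣ Lf α i x := hdvdp.trans h2.1
      rw [Finset.sum_eq_single i (fun l _ hl => hep0 _ fun h4 =>
        good_disj hp (hg l i hl) h1 h4 hi) (fun h => absurd (Finset.mem_univ i) h)]
      exact (hepj _).2 h2
  have hUd : ∀ i l, i ≠ l → Disjoint (U i) (U l) := by
    intro i l hil
    rw [Set.disjoint_left]
    rintro x ⟨h1, h2⟩ ⟨-, h3⟩
    exact good_disj hp (hg i l hil) h1 (hdvdp.trans h2.1) (hdvdp.trans h3.1)
  rw [hset, pd_iUnion U hUd]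
  have hU : ∀ i, pd (p ^ (j + 2)) (U i) = (1 - 1 / p) ^ 2 / (p : ℝ) ^ (j + 1) := by
    intro i
    show pd (p ^ (j + 2)) {x | x ∈ Np p ∧ x.1 * (α i).2 - x.2 * (α i).1 ∈
      ({a : ℤ | ((p ^ (j + 1) : ℕ) : ℤ) ∣ a} \ {a : ℤ | ((p ^ (j + 2) : ℕ) : ℤ) ∣ a})} = _
    rw [pd_form hp (j + 2) (by omega) (hcop i), r1_diff, r1_dvd p (j + 2) (j + 1) hp.pos (by omega),
      r1_dvd p (j + 2) (j + 2) hp.pos (le_refl _)]
    · have e1 : j + 2 - (j + 1) = 1 := by omega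
      rw [e1, Nat.sub_self]
      push_cast
      rw [pow_succ (p : ℝ) (j + 1)]
      field_simp
    · intro a h1
      have : ((p ^ (j + 1) : ℕ) : ℤ) ∣ ((p ^ (j + 2) : ℕ) : ℤ) :=
        Int.natCast_dvd_natCast.2 (pow_dvd_pow _ (by omega))
      exact this.trans h1
    · rintro m n h1 ⟨h2, h3⟩
      have h4 : ((p ^ (j + 1) : ℕ) : ℤ) ∣ ((p ^ (j + 2) : ℕ) : ℤ) :=
        Int.natCast_dvd_natCast.2 (pow_dvd_pow _ (by omega))
      exact ⟨(dvd_iff_dvd_of_dvd_sub (h4.trans h1)).1 h2, fun h5 =>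
        h3 ((dvd_iff_dvd_of_dvd_sub h1).2 h5)⟩
    · intro m h1
      exact hdvdp.trans h1.1
  simp only [hU]
  rw [Finset.sum_const, Finset.card_univ, Fintype.card_fin, nsmul_eq_mul]
  ring

end Pool.Agent.W5h35.LW
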