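import Mathlib

/-!
# Lattice points in dilated plane regions, with congruence conditions
-/

set_option autoImplicit false

namespace Pool.Agent.W5h35.LW

open Filter Topology MeasureTheory Set

/-- the lattice point `y`, shifted and scaled -/
noncomputable def sc (ρ : ℝ × ℝ) (t : ℝ) (y : ℤ × ℤ) : ℝ × ℝ := ((y.1 + ρ.1) / t, (y.2 + ρ.2) / t)

/-- the cell -/
noncomputable def fl (t : ℝ) (z : ℝ × ℝ) : ℤ × ℤ := (⌊t * z.1⌋, ⌊t * z.2⌋)

theorem fl_meas (t : ℝ) : Measurable (fl t) := by
  unfold fl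
  fun_prop

theorem fl_vol {t : ℝ} (ht : 0 < t) (y : ℤ × ℤ) :
    volume (fl t ⁻¹' {y}) = ENNReal.ofReal (1 / t ^ 2) := by
  have h : fl t ⁻¹' {y} = Ico ((y.1 : ℝ) / t) ((y.1 + 1) / t) ×ˢ
      Ico ((y.2 : ℝ) / t) ((y.2 + 1) / t) := by
    ext z
    simp only [fl, mem_preimage, mem_singleton_iff, mem_prod, mem_Ico, Prod.ext_iff,
      Int.floor_eq_iff, div_le_iff₀ ht, lt_div_iff₀ ht]
    rw [mul_comm t z.1, mul_comm t z.2]
  rw [h, Measure.volume_eq_prod, Measure.prod_prod, Real.volume_Ico, Real.volume_Ico,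
    ← ENNReal.ofReal_mul (by
      rw [← sub_div]
      apply div_nonneg _ ht.le
      linarith)]
  congr 1
  field_simp
  ring

/-- the distance between a point and the lattice point of its cell is small -/
theorem sc_fl_near (ρ : ℝ × ℝ) {t : ℝ} (ht : 0 < t) (z : ℝ × ℝ) :
    |(sc ρ t (fl t z)).1 - z.1| ≤ (1 + |ρ.1|) / t ∧
    |(sc ρ t (fl t z)).2 - z.2| ≤ (1 + |ρ.2|) / t := by
  have key : ∀ a r : ℝ, |((⌊t * a⌋ : ℝ) + r) / t - a| ≤ (1 + |r|) / t := by
    intro a r
    have h1 := Int.floor_le (t * a)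
    have h2 := Int.lt_floor_add_one (t * a)
    have e : ((⌊t * a⌋ : ℝ) + r) / t - a = ((⌊t * a⌋ : ℝ) - t * a + r) / t := by
      field_simp
      ring
    rw [e, abs_div, abs_of_pos ht]
    apply div_le_div_of_nonneg_right _ ht.le
    calc |(⌊t * a⌋ : ℝ) - t * a + r| ≤ |(⌊t * a⌋ : ℝ) - t * a| + |r| := abs_add_le _ _
      _ ≤ 1 + |r| := by
        gcongr
        rw [abs_le]
        constructor <;> linarith
  exact ⟨key z.1 ρ.1, key z.2 ρ.2⟩

theorem sc_fl_tendsto (ρ z : ℝ × ℝ) : Tendsto (fun t : ℝ => sc ρ t (fl t z)) atTop (𝓝 z) := by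
  have key : ∀ c : ℝ, Tendsto (fun t : ℝ => c / t) atTop (𝓝 0) := fun c =>
    tendsto_const_nhds.div_atTop tendsto_id
  have h1 : Tendsto (fun t : ℝ => (sc ρ t (fl t z)).1) atTop (𝓝 z.1) := by
    rw [tendsto_iff_norm_sub_tendsto_zero]
    refine squeeze_zero' (Eventually.of_forall fun t => norm_nonneg _) ?_ (key (1 + |ρ.1|))
    filter_upwards [eventually_gt_atTop 0] with t ht
    exact (sc_fl_near ρ ht z).1
  have h2 : Tendsto (fun t : ℝ => (sc ρ t (fl t z)).2) atTop (𝓝 z.2) := by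
    rw [tendsto_iff_norm_sub_tendsto_zero]
    refine squeeze_zero' (Eventually.of_forall fun t => norm_nonneg _) ?_ (key (1 + |ρ.2|))
    filter_upwards [eventually_gt_atTop 0] with t ht
    exact (sc_fl_near ρ ht z).2
  exact h1.prodMk_nhds h2

/-- the lattice points of the region -/
def LP (S : Set (ℝ × ℝ)) (ρ : ℝ × ℝ) (t : ℝ) : Set (ℤ × ℤ) := {y | sc ρ t y ∈ S}

theorem LP_finite {S : Set (ℝ × ℝ)} (hb : Bornology.IsBounded S) (ρ : ℝ × ℝ) {t : ℝ}
    (ht : 0 < t) : (LP S ρ t).Finite := by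
  obtain ⟨R, hR⟩ := hb.subset_closedBall (0 : ℝ × ℝ)
  have h : LP S ρ t ⊆ (Icc (-(⌈R * t + |ρ.1|⌉)) ⌈R * t + |ρ.1|⌉) ×ˢ
      (Icc (-(⌈R * t + |ρ.2|⌉)) ⌈R * t + |ρ.2|⌉) := by
    intro y hy
    have h1 := hR hy
    rw [mem_closedBall_zero_iff, Prod.norm_def, max_le_iff] at h1
    have key : ∀ (a : ℤ) (r : ℝ), ‖((a : ℝ) + r) / t‖ ≤ R → a ∈ Icc (-(⌈R * t + |r|⌉))
        ⌈R * t + |r|⌉ := by
      intro a r h
      rw [Real.norm_eq_abs, abs_div, abs_of_pos ht, div_le_iff₀ ht] at h
      have h2 : |(a : ℝ)| ≤ R * t + |r| := by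
        calc |(a : ℝ)| = |((a : ℝ) + r) - r| := by ring_nf
          _ ≤ |(a : ℝ) + r| + |r| := abs_sub _ _
          _ ≤ _ := by linarith
      have h3 := Int.le_ceil (R * t + |r|)
      rw [abs_le] at h2
      constructor
      · have : (-(⌈R * t + |r|⌉ : ℝ)) ≤ a := by linarith
        exact_mod_cast this
      · have : (a : ℝ) ≤ ⌈R * t + |r|⌉ := by linarith
        exact_mod_cast this
    exact ⟨key _ _ h1.1, key _ _ h1.2⟩
  exact ((finite_Icc _ _).prod (finite_Icc _ _)).subset h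

theorem lint_eq {S : Set (ℝ × ℝ)} (hb : Bornology.IsBounded S) (ρ : ℝ × ℝ) {t : ℝ} (ht : 0 < t) :
    ∫⁻ z, (LP S ρ t).indicator (fun _ => (1 : ENNReal)) (fl t z) =
      ENNReal.ofReal (((LP S ρ t).ncard : ℝ) / t ^ 2) := by
  classical
  have hfin := LP_finite hb ρ ht
  rw [← lintegral_map (μ := (volume : Measure (ℝ × ℝ)))
    (f := (LP S ρ t).indicator (fun _ => (1 : ENNReal))) (measurable_of_countable _) (fl_meas t),
    lintegral_countable', tsum_eq_sum (s := hfin.toFinset)]
  · have : ∀ y ∈ hfin.toFinset, (LP S ρ t).indicator (fun _ => (1 : ENNReal)) y *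
        (volume.map (fl t)) {y} = ENNReal.ofReal (1 / t ^ 2) := by
      intro y hy
      rw [indicator_of_mem (hfin.mem_toFinset.1 hy), one_mul,
        Measure.map_apply (fl_meas t) (measurableSet_singleton y), fl_vol ht]
    rw [Finset.sum_congr rfl this, Finset.sum_const, nsmul_eq_mul, ncard_eq_toFinset_card _ hfin,
      ← ENNReal.ofReal_natCast, ← ENNReal.ofReal_mul (Nat.cast_nonneg _), mul_one_div]
  · intro y hy
    rw [indicator_of_notMem (fun h => hy (hfin.mem_toFinset.2 h)), zero_mul]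

/-- **The number of lattice points.** -/
theorem lat {S : Set (ℝ × ℝ)} (hb : Bornology.IsBounded S) (hf : volume (frontier S) = 0)
    (hm : MeasurableSet S) (ρ : ℝ × ℝ) :
    Tendsto (fun t : ℝ => ((LP S ρ t).ncard : ℝ) / t ^ 2) atTop (𝓝 (volume.real S)) := by
  classical
  obtain ⟨R, hR⟩ := hb.subset_closedBall (0 : ℝ × ℝ)
  have hfinS : volume S ≠ ⊤ := hb.measure_lt_top.ne
  have main : Tendsto (fun t : ℝ => ∫⁻ z, (LP S ρ t).indicator (fun _ => (1 : ENNReal)) (fl t z))
      atTop (𝓝 (∫⁻ z, S.indicator (fun _ => (1 : ENNReal)) z)) := by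
    have e1 : ∀ t z, (LP S ρ t).indicator (fun _ => (1 : ENNReal)) (fl t z) =
        S.indicator (fun _ => (1 : ENNReal)) (sc ρ t (fl t z)) := by
      intro t z
      by_cases h : sc ρ t (fl t z) ∈ S
      · rw [indicator_of_mem h, indicator_of_mem (show fl t z ∈ LP S ρ t from h)]
      · rw [indicator_of_notMem h, indicator_of_notMem (show fl t z ∉ LP S ρ t from h)]
    refine tendsto_lintegral_filter_of_dominated_convergence
      (bound := (Metric.closedBall (0 : ℝ × ℝ) (R + (1 + ‖ρ‖))).indicator fun _ => 1) ?_ ?_ ?_ ?_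
    · exact Eventually.of_forall fun t =>
        (measurable_of_countable ((LP S ρ t).indicator fun _ => (1 : ENNReal))).comp (fl_meas t)
    · filter_upwards [eventually_ge_atTop 1] with t ht
      refine Eventually.of_forall fun z => ?_
      rw [e1]
      by_cases h : sc ρ t (fl t z) ∈ S
      · rw [indicator_of_mem h, indicator_of_mem]
        have h1 := mem_closedBall_zero_iff.1 (hR h)
        rw [mem_closedBall_zero_iff]
        obtain ⟨h2, h3⟩ := sc_fl_near ρ (by linarith : 0 < t) z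
        have hρ1 : |ρ.1| ≤ ‖ρ‖ := norm_fst_le ρ
        have hρ2 : |ρ.2| ≤ ‖ρ‖ := norm_snd_le ρ
        have d1 : (1 + |ρ.1|) / t ≤ 1 + ‖ρ‖ := by
          rw [div_le_iff₀ (by linarith)]
          nlinarith [abs_nonneg ρ.1, norm_nonneg ρ]
        have d2 : (1 + |ρ.2|) / t ≤ 1 + ‖ρ‖ := by
          rw [div_le_iff₀ (by linarith)]
          nlinarith [abs_nonneg ρ.2, norm_nonneg ρ]
        have h4 : ‖sc ρ t (fl t z) - z‖ ≤ 1 + ‖ρ‖ := by
          rw [Prod.norm_def, max_le_iff]
          exact ⟨h2.trans d1, h3.trans d2⟩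
        calc ‖z‖ = ‖sc ρ t (fl t z) - (sc ρ t (fl t z) - z)‖ := by rw [sub_sub_cancel]
          _ ≤ ‖sc ρ t (fl t z)‖ + ‖sc ρ t (fl t z) - z‖ := norm_sub_le _ _
          _ ≤ R + (1 + ‖ρ‖) := by linarith
      · rw [indicator_of_notMem h]
        exact bot_le
    · rw [lintegral_indicator Metric.isClosed_closedBall.measurableSet, setLIntegral_const, one_mul]
      exact (isCompact_closedBall _ _).measure_lt_top.ne
    · rw [ae_iff]
      refine measure_mono_null (fun z hz => ?_) hf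
      by_contra hzf
      apply hz
      simp only [e1]
      have hev : ∀ᶠ t in atTop, (sc ρ t (fl t z) ∈ S ↔ z ∈ S) := by
        by_cases hzS : z ∈ S
        · have hint : z ∈ interior S := by
            by_contra h
            exact hzf ⟨subset_closure hzS, h⟩
          filter_upwards [(sc_fl_tendsto ρ z).eventually (isOpen_interior.mem_nhds hint)] with t ht
          exact ⟨fun _ => hzS, fun _ => interior_subset ht⟩
        · have hint : z ∈ (closure S)ᶜ := by
            intro h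
            exact hzf ⟨h, fun h' => hzS (interior_subset h')⟩
          filter_upwards [(sc_fl_tendsto ρ z).eventually
            (isClosed_closure.isOpen_compl.mem_nhds hint)] with t ht
          exact ⟨fun h => absurd (subset_closure h) ht, fun h => absurd h hzS⟩
      refine Tendsto.congr' ?_ tendsto_const_nhds
      filter_upwards [hev] with t ht
      by_cases hzS : z ∈ S
      · rw [indicator_of_mem hzS, indicator_of_mem (ht.2 hzS)]
      · rw [indicator_of_notMem hzS, indicator_of_notMem fun h => hzS (ht.1 h)]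
  rw [lintegral_indicator hm, setLIntegral_const, one_mul] at main
  have main2 := (ENNReal.tendsto_toReal hfinS).comp main
  refine main2.congr' ?_
  filter_upwards [eventually_gt_atTop 0] with t ht
  simp only [Function.comp_apply]
  rw [lint_eq hb ρ ht, ENNReal.toReal_ofReal (by positivity)]

end Pool.Agent.W5h35.LW
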