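import Pool.Agent.W5h35.LW.Cnt

/-!
# The limit over all points
-/

set_option autoImplicit false

namespace Pool.Agent.W5h35.LW

open Filter Topology MeasureTheory

variable {q : ℕ}

/-- the bounds for the number of all points that are used -/
structure Bnd (α : Fin q → ℤ × ℤ) (S : Finset ℕ) : Prop where
  fin : ∀ X : ℝ, 1 ≤ X → (Pts α S X).Finite
  up : ∃ C : ℝ, 0 < C ∧ ∀ X : ℝ, 1 ≤ X → ((Pts α S X).ncard : ℝ) ≤ C * X ^ (2 / (q : ℝ))
  low : ∃ c : ℝ, 0 < c ∧ ∃ X₀ : ℝ, ∀ X : ℝ, X₀ ≤ X →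
    c * X ^ (2 / (q : ℝ)) ≤ ((Pts α S X).ncard : ℝ)
  tail : ∀ c : ℝ, 0 ≤ c → c < 1 - 2 / q → ∃ C ν : ℝ, 0 < C ∧ 0 < ν ∧ ∀ X τ : ℝ, 1 ≤ X → 0 ≤ τ →
    (({x | x ∈ Pts α S X ∧ N1 α S x + τ < q * hgt x} : Set (ℤ × ℤ)).ncard : ℝ) ≤
      C * (Real.exp (-(c * τ)) + X ^ (-ν)) * X ^ (2 / (q : ℝ))

/-- the weight -/
noncomputable def aw (α : Fin q → ℤ × ℤ) (S : Finset ℕ) (w : ℕ) : ℝ :=
  dw α S w * (w : ℝ) ^ (2 / (q : ℝ))

theorem aw_nonneg (α : Fin q → ℤ × ℤ) (S : Finset ℕ) (w : ℕ) : 0 ≤ aw α S w :=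
  mul_nonneg (dw_nonneg α S w) (Real.rpow_nonneg (Nat.cast_nonneg _) _)

theorem aw_zero (hq : 1 ≤ q) (α : Fin q → ℤ × ℤ) (S : Finset ℕ) : aw α S 0 = 0 := by
  have : (2 / (q : ℝ)) ≠ 0 := by
    have : (q : ℝ) ≠ 0 := by exact_mod_cast (by omega : q ≠ 0)
    positivity
  unfold aw
  rw [Nat.cast_zero, Real.zero_rpow this, mul_zero]

theorem gt_eq (α : Fin q → ℤ × ℤ) (S : Finset ℕ) (Γ : Set (ℝ × ℝ)) (τ : ℝ) (w : ℕ) :
    gt α S Γ τ w = aw α S w * volume.real (Rg α Γ w τ) := rfl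

theorem gt_nonneg (α : Fin q → ℤ × ℤ) (S : Finset ℕ) (Γ : Set (ℝ × ℝ)) (τ : ℝ) (w : ℕ) :
    0 ≤ gt α S Γ τ w := mul_nonneg (aw_nonneg α S w) measureReal_nonneg

theorem gt_big (α : Fin q → ℤ × ℤ) (S : Finset ℕ) (Γ : Set (ℝ × ℝ)) {τ : ℝ} {w : ℕ}
    (hw : W0 α τ < w) : gt α S Γ τ w = 0 := by
  have h1 : Real.exp τ * Cq α < w := Nat.lt_of_floor_lt hw
  have h2 : volume (Rg α Γ w τ) = 0 :=
    measure_mono_null (Rg_empty α Γ h1) (measure_singleton _)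
  rw [gt_eq, Measure.real, h2]
  simp

/-- the limit as a sum over all repeated parts -/
theorem gsum_eq (hq : 1 ≤ q) (α : Fin q → ℤ × ℤ) (S : Finset ℕ) (Γ : Set (ℝ × ℝ)) (W : Set ℕ)
    [DecidablePred (· ∈ W)] (τ : ℝ) :
    ∑ w ∈ (Finset.Icc 1 (W0 α τ)).filter (· ∈ W), gt α S Γ τ w =
      ∑' w, W.indicator (gt α S Γ τ) w := by
  rw [tsum_eq_sum (s := (Finset.Icc 1 (W0 α τ)).filter (· ∈ W))]
  · refine Finset.sum_congr rfl fun w hw => ?_
    rw [Set.indicator_of_mem (Finset.mem_filter.1 hw).2]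
  · intro w hw
    by_cases h : w ∈ W
    · rw [Set.indicator_of_mem h]
      rw [Finset.mem_filter, Finset.mem_Icc] at hw
      rcases Nat.eq_zero_or_pos w with h0 | h0
      · rw [h0, gt_eq, aw_zero hq, zero_mul]
      · exact gt_big α S Γ (by
          by_contra hcon
          exact hw ⟨⟨h0, by omega⟩, h⟩)
    · rw [Set.indicator_of_notMem h]

theorem PGt_sub (α : Fin q → ℤ × ℤ) (S : Finset ℕ) (Γ : Set (ℝ × ℝ)) (W : Set ℕ) (τ X : ℝ) :
    PGt α S Γ W τ X ⊆ PG α S Γ W X := fun _ h => h.1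

theorem PG_sub (α : Fin q → ℤ × ℤ) (S : Finset ℕ) (Γ : Set (ℝ × ℝ)) (W : Set ℕ) (X : ℝ) :
    PG α S Γ W X ⊆ Pts α S X := fun _ h => h.1

theorem Hom_univ : Hom Set.univ := fun _ _ _ => by simp

open Classical in
theorem lim_tau' (hq : 3 ≤ q) (α : Fin q → ℤ × ℤ) (hcop : ∀ i, IsCoprime (α i).1 (α i).2)
    (hα : ∀ i j, i ≠ j → (α i).1 * (α j).2 ≠ (α j).1 * (α i).2) (S : Finset ℕ)
    {Γ : Set (ℝ × ℝ)} (hΓ : Hom Γ) (hΓm : MeasurableSet Γ) (hΓf : volume (frontier Γ) = 0)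
    (W : Set ℕ) (τ : ℝ) :
    Tendsto (fun X : ℝ => ((PGt α S Γ W τ X).ncard : ℝ) / X ^ (2 / (q : ℝ))) atTop
      (𝓝 (1 / 2 * ∑' w, W.indicator (gt α S Γ τ) w)) := by
  rw [← gsum_eq (by omega) α S Γ W τ]
  exact lim_tau hq α hcop hα S hΓ hΓm hΓf W τ

/-- the sum of the weights times the area is bounded -/
theorem sum_le (hq : 3 ≤ q) (α : Fin q → ℤ × ℤ) (hcop : ∀ i, IsCoprime (α i).1 (α i).2)
    (hα : ∀ i j, i ≠ j → (α i).1 * (α j).2 ≠ (α j).1 * (α i).2) (S : Finset ℕ)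
    (hB : Bnd α S) :
    ∃ C : ℝ, (∑' w, ENNReal.ofReal (aw α S w)) * volume (Rf α Set.univ) ≤ ENNReal.ofReal C := by
  classical
  obtain ⟨C, hC, hup⟩ := hB.up
  refine ⟨2 * C, ?_⟩
  have hq1 : 1 ≤ q := by omega
  have h1 : ∀ τ : ℝ, ∑ w ∈ Finset.Icc 1 (W0 α τ), gt α S Set.univ τ w ≤ 2 * C := by
    intro τ
    have h2 := lim_tau' hq α hcop hα S Hom_univ MeasurableSet.univ (by simp) Set.univ τ
    have h3 : 1 / 2 * ∑' w, (Set.univ : Set ℕ).indicator (gt α S Set.univ τ) w ≤ C := by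
      refine le_of_tendsto h2 ?_
      filter_upwards [eventually_ge_atTop 1] with X hX
      rw [div_le_iff₀ (Real.rpow_pos_of_pos (by linarith) _)]
      refine le_trans ?_ (hup X hX)
      exact_mod_cast Set.ncard_le_ncard ((PGt_sub α S _ _ τ X).trans (PG_sub α S _ _ X))
        (hB.fin X hX)
    rw [← gsum_eq hq1 α S Set.univ Set.univ τ,
      Finset.filter_true_of_mem fun w _ => Set.mem_univ w] at h3
    linarith
  rw [← ENNReal.tsum_mul_right]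
  have h2 : ∀ (τ : ℝ) (s : Finset ℕ),
      ∑ w ∈ s, ENNReal.ofReal (aw α S w) * volume (Rg α Set.univ w τ) ≤ ENNReal.ofReal (2 * C) := by
    intro τ s
    have h3 : ∀ w, ENNReal.ofReal (aw α S w) * volume (Rg α Set.univ w τ) =
        ENNReal.ofReal (gt α S Set.univ τ w) := by
      intro w
      rcases Nat.eq_zero_or_pos w with h0 | h0
      · rw [h0, gt_eq, aw_zero hq1, zero_mul, ENNReal.ofReal_zero, zero_mul]
      · rw [gt_eq, ENNReal.ofReal_mul (aw_nonneg α S w), Measure.real,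
          ENNReal.ofReal_toReal (Rg_bdd hq1 α _ h0.ne' τ).measure_lt_top.ne]
    rw [Finset.sum_congr rfl fun w _ => h3 w,
      ← ENNReal.ofReal_sum_of_nonneg fun w _ => gt_nonneg α S _ τ w]
    refine ENNReal.ofReal_le_ofReal (le_trans ?_ (h1 τ))
    have h4 : ∑ w ∈ s, gt α S Set.univ τ w ≤ ∑ w ∈ s ∪ Finset.Icc 1 (W0 α τ),
        gt α S Set.univ τ w :=
      Finset.sum_le_sum_of_subset_of_nonneg Finset.subset_union_left
        fun w _ _ => gt_nonneg α S _ τ w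
    refine h4.trans (le_of_eq ?_)
    symm
    refine Finset.sum_subset Finset.subset_union_right fun w _ hw => ?_
    rw [Finset.mem_Icc] at hw
    rcases Nat.eq_zero_or_pos w with h0 | h0
    · rw [h0, gt_eq, aw_zero hq1, zero_mul]
    · exact gt_big α S _ (by omega)
  rw [ENNReal.tsum_eq_iSup_sum]
  refine iSup_le fun s => ?_
  have h3 : Tendsto (fun τ : ℝ => ∑ w ∈ s, ENNReal.ofReal (aw α S w) *
      volume (Rg α Set.univ w τ)) atTop
      (𝓝 (∑ w ∈ s, ENNReal.ofReal (aw α S w) * volume (Rf α Set.univ))) := by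
    refine tendsto_finsetSum _ fun w _ => ?_
    exact ENNReal.Tendsto.const_mul (Rg_lim hq α hα Set.univ w) (Or.inr ENNReal.ofReal_ne_top)
  exact le_of_tendsto h3 (Eventually.of_forall fun τ => h2 τ s)

/-- the difference of the counts -/
theorem diff_le (α : Fin q → ℤ × ℤ) (S : Finset ℕ) (hB : Bnd α S) (Γ : Set (ℝ × ℝ)) (W : Set ℕ)
    {c : ℝ} (hc0 : 0 ≤ c) (hc1 : c < 1 - 2 / q) :
    ∃ C ν : ℝ, 0 < C ∧ 0 < ν ∧ ∀ X τ : ℝ, 1 ≤ X → 0 ≤ τ →
      ((PGt α S Γ W τ X).ncard : ℝ) / X ^ (2 / (q : ℝ)) ≤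
        ((PG α S Γ W X).ncard : ℝ) / X ^ (2 / (q : ℝ)) ∧
      ((PG α S Γ W X).ncard : ℝ) / X ^ (2 / (q : ℝ)) ≤
        ((PGt α S Γ W τ X).ncard : ℝ) / X ^ (2 / (q : ℝ)) +
          C * (Real.exp (-(c * τ)) + X ^ (-ν)) := by
  obtain ⟨C, ν, hC, hν, h⟩ := hB.tail c hc0 hc1
  refine ⟨C, ν, hC, hν, fun X τ hX hτ => ?_⟩
  have hX0 : 0 < X ^ (2 / (q : ℝ)) := Real.rpow_pos_of_pos (by linarith) _
  have hf := hB.fin X hX
  have hfG : (PG α S Γ W X).Finite := hf.subset (PG_sub α S Γ W X)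
  constructor
  · apply div_le_div_of_nonneg_right _ hX0.le
    exact_mod_cast Set.ncard_le_ncard (PGt_sub α S Γ W τ X) hfG
  · rw [div_le_iff₀ hX0, add_mul, div_mul_cancel₀ _ hX0.ne']
    have h1 : PG α S Γ W X ⊆ PGt α S Γ W τ X ∪ {x | x ∈ Pts α S X ∧ N1 α S x + τ < q * hgt x} := by
      intro x hx
      by_cases h2 : (q : ℝ) * hgt x ≤ N1 α S x + τ
      · exact Or.inl ⟨hx, h2⟩
      · exact Or.inr ⟨hx.1, not_le.1 h2⟩
    have h2 : (PG α S Γ W X).ncard ≤ (PGt α S Γ W τ X).ncard +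
        ({x | x ∈ Pts α S X ∧ N1 α S x + τ < q * hgt x} : Set (ℤ × ℤ)).ncard :=
      (Set.ncard_le_ncard h1 ((hfG.subset (PGt_sub α S Γ W τ X)).union
        (hf.subset fun x hx => hx.1))).trans (Set.ncard_union_le _ _)
    have h3 : ((PG α S Γ W X).ncard : ℝ) ≤ ((PGt α S Γ W τ X).ncard : ℝ) +
        (({x | x ∈ Pts α S X ∧ N1 α S x + τ < q * hgt x} : Set (ℤ × ℤ)).ncard : ℝ) := by
      exact_mod_cast h2
    have h4 := h X τ hX hτ
    linarith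

theorem q_pos (hq : 3 ≤ q) : (0 : ℝ) < 1 - 2 / q := by
  have hqR : (3 : ℝ) ≤ q := by exact_mod_cast hq
  have : 2 / (q : ℝ) < 1 := by rw [div_lt_one (by linarith)]; linarith
  linarith

/-- some weight is positive -/
theorem exists_pos (hq : 3 ≤ q) (α : Fin q → ℤ × ℤ) (hcop : ∀ i, IsCoprime (α i).1 (α i).2)
    (hα : ∀ i j, i ≠ j → (α i).1 * (α j).2 ≠ (α j).1 * (α i).2) (S : Finset ℕ)
    (hB : Bnd α S) : ∃ w, 0 < aw α S w := by
  classical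
  by_contra hcon
  push Not at hcon
  have h0 : ∀ w, aw α S w = 0 := fun w => le_antisymm (hcon w) (aw_nonneg α S w)
  obtain ⟨c₀, hc₀, X₀, hlow⟩ := hB.low
  have hqp := q_pos hq
  obtain ⟨C, ν, hC, hν, hd⟩ := diff_le α S hB Set.univ Set.univ
    (c := (1 - 2 / (q : ℝ)) / 2) (by positivity) (by linarith)
  obtain ⟨c, hc⟩ : ∃ c : ℝ, c = (1 - 2 / (q : ℝ)) / 2 := ⟨_, rfl⟩
  rw [← hc] at hd
  have hc' : 0 < c := by rw [hc]; positivity
  -- choose τ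
  have hτ1 : Tendsto (fun τ : ℝ => C * Real.exp (-(c * τ))) atTop (𝓝 0) := by
    have h1 : Tendsto (fun τ : ℝ => Real.exp (-(c * τ))) atTop (𝓝 0) :=
      Real.tendsto_exp_neg_atTop_nhds_zero.comp (tendsto_id.const_mul_atTop hc')
    have := h1.const_mul C
    rwa [mul_zero] at this
  obtain ⟨τ, hτ2, hτ0⟩ := ((hτ1.eventually (gt_mem_nhds (by positivity : (0 : ℝ) < c₀ / 4))).and
    (eventually_ge_atTop (0 : ℝ))).exists
  have h2 := lim_tau' hq α hcop hα S Hom_univ MeasurableSet.univ (by simp) Set.univ τ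
  have h3 : ∑' w, (Set.univ : Set ℕ).indicator (gt α S Set.univ τ) w = 0 := by
    have : ∀ w, (Set.univ : Set ℕ).indicator (gt α S Set.univ τ) w = 0 := by
      intro w
      rw [Set.indicator_of_mem (Set.mem_univ w), gt_eq, h0, zero_mul]
    simp only [this, tsum_zero]
  rw [h3, mul_zero] at h2
  have h4 : Tendsto (fun X : ℝ => C * X ^ (-ν)) atTop (𝓝 0) := by
    have := (tendsto_rpow_neg_atTop hν).const_mul C
    rwa [mul_zero] at this
  obtain ⟨X, hX1, hX2, hX3, hX4⟩ := ((h2.eventually (gt_mem_nhds (by positivity :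
    (0 : ℝ) < c₀ / 4))).and ((h4.eventually (gt_mem_nhds (by positivity : (0 : ℝ) < c₀ / 4))).and
    ((eventually_ge_atTop X₀).and (eventually_ge_atTop (1 : ℝ))))).exists
  have h5 := (hd X τ hX4 hτ0).2
  have h6 := hlow X hX3
  have hXp : 0 < X ^ (2 / (q : ℝ)) := Real.rpow_pos_of_pos (by linarith) _
  have h7 : Pts α S X ⊆ PG α S Set.univ Set.univ X := fun x hx =>
    ⟨hx, Set.mem_univ _, Set.mem_univ _⟩
  have h8 : ((Pts α S X).ncard : ℝ) ≤ ((PG α S Set.univ Set.univ X).ncard : ℝ) := by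
    exact_mod_cast Set.ncard_le_ncard h7 ((hB.fin X hX4).subset (PG_sub α S _ _ X))
  have h9 : c₀ ≤ ((PG α S Set.univ Set.univ X).ncard : ℝ) / X ^ (2 / (q : ℝ)) := by
    rw [le_div_iff₀ hXp]; linarith
  have h10 : C * (Real.exp (-(c * τ)) + X ^ (-ν)) < c₀ / 2 := by rw [mul_add]; linarith
  linarith

theorem Rf_fin (hq : 3 ≤ q) (α : Fin q → ℤ × ℤ) (hcop : ∀ i, IsCoprime (α i).1 (α i).2)
    (hα : ∀ i j, i ≠ j → (α i).1 * (α j).2 ≠ (α j).1 * (α i).2) (S : Finset ℕ)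
    (hB : Bnd α S) : volume (Rf α Set.univ) ≠ ⊤ := by
  intro htop
  obtain ⟨C, hC⟩ := sum_le hq α hcop hα S hB
  obtain ⟨w, hw⟩ := exists_pos hq α hcop hα S hB
  rw [htop, ENNReal.mul_top] at hC
  · exact ENNReal.ofReal_ne_top (top_le_iff.1 hC)
  · intro h0
    rw [ENNReal.tsum_eq_zero] at h0
    have := h0 w
    rw [ENNReal.ofReal_eq_zero] at this
    linarith

theorem aw_summable (hq : 3 ≤ q) (α : Fin q → ℤ × ℤ) (hcop : ∀ i, IsCoprime (α i).1 (α i).2)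
    (hα : ∀ i j, i ≠ j → (α i).1 * (α j).2 ≠ (α j).1 * (α i).2) (S : Finset ℕ)
    (hB : Bnd α S) : Summable (aw α S) := by
  obtain ⟨C, hC⟩ := sum_le hq α hcop hα S hB
  have h1 : ∑' w, ENNReal.ofReal (aw α S w) ≠ ⊤ := by
    intro htop
    rw [htop, ENNReal.top_mul (Rf_pos (by omega) α).ne'] at hC
    exact ENNReal.ofReal_ne_top (top_le_iff.1 hC)
  have h2 := ENNReal.summable_toReal h1
  refine h2.congr fun w => ?_
  rw [ENNReal.toReal_ofReal (aw_nonneg α S w)]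

theorem gt_tendsto (hq : 3 ≤ q) (α : Fin q → ℤ × ℤ) (hcop : ∀ i, IsCoprime (α i).1 (α i).2)
    (hα : ∀ i j, i ≠ j → (α i).1 * (α j).2 ≠ (α j).1 * (α i).2) (S : Finset ℕ)
    (hB : Bnd α S) (Γ : Set (ℝ × ℝ)) (W : Set ℕ) :
    Tendsto (fun τ : ℝ => ∑' w, W.indicator (gt α S Γ τ) w) atTop
      (𝓝 (∑' w, W.indicator (fun w => aw α S w * volume.real (Rf α Γ)) w)) := by
  have hfin := Rf_fin hq α hcop hα S hB
  have hsub : Rf α Γ ⊆ Rf α Set.univ := fun y hy => ⟨Set.mem_univ _, hy.2⟩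
  have hfinΓ : volume (Rf α Γ) ≠ ⊤ := ne_top_of_le_ne_top hfin (measure_mono hsub)
  refine tendsto_tsum_of_dominated_convergence
    (bound := fun w => aw α S w * volume.real (Rf α Set.univ))
    ((aw_summable hq α hcop hα S hB).mul_right _) ?_ ?_
  · intro w
    by_cases h : w ∈ W
    · simp only [Set.indicator_of_mem h]
      have h1 := (ENNReal.tendsto_toReal hfinΓ).comp (Rg_lim hq α hα Γ w)
      exact h1.const_mul _
    · simp only [Set.indicator_of_notMem h]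
      exact tendsto_const_nhds
  · refine Eventually.of_forall fun τ w => ?_
    by_cases h : w ∈ W
    · rw [Set.indicator_of_mem h, Real.norm_of_nonneg (gt_nonneg α S Γ τ w), gt_eq]
      refine mul_le_mul_of_nonneg_left ?_ (aw_nonneg α S w)
      exact measureReal_mono ((Rg_sub_Rf α Γ w τ).trans hsub) hfin
    · rw [Set.indicator_of_notMem h, norm_zero]
      exact mul_nonneg (aw_nonneg α S w) measureReal_nonneg

/-- **All points.** -/
theorem lim_all (hq : 3 ≤ q) (α : Fin q → ℤ × ℤ) (hcop : ∀ i, IsCoprime (α i).1 (α i).2)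
    (hα : ∀ i j, i ≠ j → (α i).1 * (α j).2 ≠ (α j).1 * (α i).2) (S : Finset ℕ)
    (hB : Bnd α S) {Γ : Set (ℝ × ℝ)} (hΓ : Hom Γ) (hΓm : MeasurableSet Γ)
    (hΓf : volume (frontier Γ) = 0) (W : Set ℕ) :
    Tendsto (fun X : ℝ => ((PG α S Γ W X).ncard : ℝ) / X ^ (2 / (q : ℝ))) atTop
      (𝓝 (1 / 2 * ∑' w, W.indicator (fun w => aw α S w * volume.real (Rf α Γ)) w)) := by
  have hqp := q_pos hq
  obtain ⟨C, ν, hC, hν, hd⟩ := diff_le α S hB Γ W
    (c := (1 - 2 / (q : ℝ)) / 2) (by positivity) (by linarith)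
  obtain ⟨c, hc⟩ : ∃ c : ℝ, c = (1 - 2 / (q : ℝ)) / 2 := ⟨_, rfl⟩
  rw [← hc] at hd
  have hc' : 0 < c := by rw [hc]; positivity
  have hτ1 : Tendsto (fun τ : ℝ => C * Real.exp (-(c * τ))) atTop (𝓝 0) := by
    have h1 : Tendsto (fun τ : ℝ => Real.exp (-(c * τ))) atTop (𝓝 0) :=
      Real.tendsto_exp_neg_atTop_nhds_zero.comp (tendsto_id.const_mul_atTop hc')
    have := h1.const_mul C
    rwa [mul_zero] at this
  have hg := (gt_tendsto hq α hcop hα S hB Γ W).const_mul (1 / 2 : ℝ)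
  rw [Metric.tendsto_nhds]
  intro ε hε
  obtain ⟨τ, hτ2, hτ3, hτ0⟩ := ((hτ1.eventually (gt_mem_nhds (by positivity :
    (0 : ℝ) < ε / 4))).and (((Metric.tendsto_nhds.1 hg) (ε / 4) (by positivity)).and
    (eventually_ge_atTop (0 : ℝ)))).exists
  have h2 := lim_tau' hq α hcop hα S hΓ hΓm hΓf W τ
  have h4 : Tendsto (fun X : ℝ => C * X ^ (-ν)) atTop (𝓝 0) := by
    have := (tendsto_rpow_neg_atTop hν).const_mul C
    rwa [mul_zero] at this
  filter_upwards [(Metric.tendsto_nhds.1 h2) (ε / 4) (by positivity),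
    h4.eventually (gt_mem_nhds (by positivity : (0 : ℝ) < ε / 4)), eventually_ge_atTop 1]
    with X g1 g2 g3
  obtain ⟨g4, g5⟩ := hd X τ g3 hτ0
  rw [Real.dist_eq] at g1 hτ3 ⊢
  rw [abs_lt] at g1 hτ3 ⊢
  rw [mul_add] at g5
  constructor <;> linarith [g1.1, g1.2, hτ3.1, hτ3.2]

end Pool.Agent.W5h35.LW
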