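import Pool.Agent.W5h35.LW.Per

/-!
# The repeated part of the values of linear forms: local conditions
-/

set_option autoImplicit false

namespace Pool.Agent.W5h35.LW

open Filter Topology MeasureTheory Set

variable {q : ℕ}

/-- the linear forms -/
def Lf (α : Fin q → ℤ × ℤ) (i : Fin q) (x : ℤ × ℤ) : ℤ := x.1 * (α i).2 - x.2 * (α i).1

/-- the shift -/
def sg (S : Finset ℕ) (p : ℕ) : ℕ := if p ∈ S then 0 else 1

/-- the product of the primes outside `S` dividing `n` -/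
def rd (S : Finset ℕ) (n : ℕ) : ℕ := ∏ p ∈ n.primeFactors \ S, p

/-- the repeated part -/
def rep (α : Fin q → ℤ × ℤ) (S : Finset ℕ) (x : ℤ × ℤ) : ℕ :=
  ∏ i, (Lf α i x).natAbs / rd S (Lf α i x).natAbs

theorem rd_dvd (S : Finset ℕ) (n : ℕ) : rd S n ∣ n :=
  (Finset.prod_dvd_prod_of_subset _ _ _ Finset.sdiff_subset).trans (Nat.prod_primeFactors_dvd n)

theorem rd_pos (S : Finset ℕ) (n : ℕ) : 0 < rd S n :=
  Finset.prod_pos fun _ hp => (Nat.prime_of_mem_primeFactors (Finset.mem_sdiff.1 hp).1).pos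

theorem rd_fact (S : Finset ℕ) (n : ℕ) {p : ℕ} (hp : p.Prime) :
    (rd S n).factorization p = if p ∈ n.primeFactors \ S then 1 else 0 := by
  classical
  unfold rd
  rw [Nat.factorization_prod (fun r hr =>
    (Nat.prime_of_mem_primeFactors (Finset.mem_sdiff.1 hr).1).ne_zero), Finsupp.finsetSum_apply]
  rw [Finset.sum_congr rfl (g := fun r => if r = p then 1 else 0)]
  · rw [Finset.sum_ite_eq']
  · intro r hr
    have hr' := Nat.prime_of_mem_primeFactors (Finset.mem_sdiff.1 hr).1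
    rw [hr'.factorization, Finsupp.single_apply]

theorem quot_fact (S : Finset ℕ) {n : ℕ} (hn : n ≠ 0) {p : ℕ} (hp : p.Prime) :
    (n / rd S n).factorization p = n.factorization p - sg S p := by
  rw [Nat.factorization_div (rd_dvd S n), Finsupp.tsub_apply, rd_fact S n hp]
  unfold sg
  by_cases h1 : p ∈ S
  · rw [if_pos h1, if_neg (fun h => (Finset.mem_sdiff.1 h).2 h1)]
  · rw [if_neg h1]
    by_cases h2 : p ∣ n
    · rw [if_pos]
      rw [Finset.mem_sdiff, Nat.mem_primeFactors]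
      exact ⟨⟨hp, h2, hn⟩, h1⟩
    · rw [if_neg, Nat.factorization_eq_zero_of_not_dvd h2]
      intro h
      rw [Finset.mem_sdiff, Nat.mem_primeFactors] at h
      exact h2 h.1.2.1

theorem quot_pos (S : Finset ℕ) {n : ℕ} (hn : n ≠ 0) : 0 < n / rd S n :=
  Nat.div_pos (Nat.le_of_dvd (Nat.pos_of_ne_zero hn) (rd_dvd S n)) (rd_pos S n)

theorem rep_pos (α : Fin q → ℤ × ℤ) (S : Finset ℕ) {x : ℤ × ℤ} (hx : ∀ i, Lf α i x ≠ 0) :
    0 < rep α S x :=
  Finset.prod_pos fun i _ => quot_pos S (Int.natAbs_ne_zero.2 (hx i))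

theorem rep_fact (α : Fin q → ℤ × ℤ) (S : Finset ℕ) {x : ℤ × ℤ} (hx : ∀ i, Lf α i x ≠ 0)
    {p : ℕ} (hp : p.Prime) :
    (rep α S x).factorization p = ∑ i, ((Lf α i x).natAbs.factorization p - sg S p) := by
  unfold rep
  rw [Nat.factorization_prod (fun i _ => (quot_pos S (Int.natAbs_ne_zero.2 (hx i))).ne'),
    Finsupp.finsetSum_apply]
  exact Finset.sum_congr rfl fun i _ => quot_fact S (Int.natAbs_ne_zero.2 (hx i)) hp

/-- the truncated exponent -/
def ep (p s K : ℕ) (n : ℤ) : ℕ :=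
  ((Finset.Icc 1 K).filter fun k => (p : ℤ) ^ (k + s) ∣ n).card

theorem ep_eq {p : ℕ} (hp : p.Prime) (s K : ℕ) {n : ℤ} (hn : n ≠ 0) :
    ep p s K n = min K (n.natAbs.factorization p - s) := by
  unfold ep
  have h : ((Finset.Icc 1 K).filter fun k => (p : ℤ) ^ (k + s) ∣ n) =
      Finset.Icc 1 (min K (n.natAbs.factorization p - s)) := by
    ext k
    rw [Finset.mem_filter, Finset.mem_Icc, Finset.mem_Icc]
    have : (p : ℤ) ^ (k + s) ∣ n ↔ k + s ≤ n.natAbs.factorization p := by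
      rw [← Nat.cast_pow, ← Int.dvd_natAbs, Int.natCast_dvd_natCast,
        hp.pow_dvd_iff_le_factorization (Int.natAbs_ne_zero.2 hn)]
    rw [this]
    omega
  rw [h, Nat.card_Icc]
  omega

/-- the local condition -/
def Loc (α : Fin q → ℤ × ℤ) (p s j : ℕ) : Set (ℤ × ℤ) :=
  {x | ¬((p : ℤ) ∣ x.1 ∧ (p : ℤ) ∣ x.2) ∧ ∑ i, ep p s (j + 1) (Lf α i x) = j}

theorem Lf_sub (α : Fin q → ℤ × ℤ) (i : Fin q) (x y : ℤ × ℤ) {m : ℤ} (h1 : m ∣ x.1 - y.1)
    (h2 : m ∣ x.2 - y.2) : m ∣ Lf α i x ↔ m ∣ Lf α i y := by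
  have h : m ∣ Lf α i x - Lf α i y := by
    have e : Lf α i x - Lf α i y = (x.1 - y.1) * (α i).2 - (x.2 - y.2) * (α i).1 := by
      unfold Lf; ring
    rw [e]
    exact dvd_sub (h1.mul_right _) (h2.mul_right _)
  exact (dvd_iff_dvd_of_dvd_sub h)

theorem Loc_per (α : Fin q → ℤ × ℤ) (p s j : ℕ) (hs : s ≤ 1) :
    Per (p ^ (j + 2)) (Loc α p s j) := by
  intro x y h1 h2 hx
  rw [Nat.cast_pow] at h1 h2
  have hp1 : (p : ℤ) ∣ x.1 - y.1 := (dvd_pow_self _ (by omega)).trans h1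
  have hp2 : (p : ℤ) ∣ x.2 - y.2 := (dvd_pow_self _ (by omega)).trans h2
  refine ⟨?_, ?_⟩
  · rw [← dvd_iff_dvd_of_dvd_sub hp1, ← dvd_iff_dvd_of_dvd_sub hp2]
    exact hx.1
  · have hsum : ∑ i, ep p s (j + 1) (Lf α i y) = ∑ i, ep p s (j + 1) (Lf α i x) := by
      refine Finset.sum_congr rfl fun i _ => ?_
      unfold ep
      congr 1
      refine Finset.filter_congr fun k hk => ?_
      rw [Finset.mem_Icc] at hk
      have hd : (p : ℤ) ^ (k + s) ∣ (p : ℤ) ^ (j + 2) := pow_dvd_pow _ (by omega)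
      exact (Lf_sub α i x y (hd.trans h1) (hd.trans h2)).symm
    exact hsum.trans hx.2

theorem Loc_iff (α : Fin q → ℤ × ℤ) {p : ℕ} (hp : p.Prime) (s j : ℕ) {x : ℤ × ℤ}
    (hx : ∀ i, Lf α i x ≠ 0) :
    x ∈ Loc α p s j ↔ ¬((p : ℤ) ∣ x.1 ∧ (p : ℤ) ∣ x.2) ∧
      ∑ i, ((Lf α i x).natAbs.factorization p - s) = j := by
  unfold Loc
  show (_ ∧ _) ↔ _
  refine and_congr_right fun _ => ?_
  rw [Finset.sum_congr rfl fun i _ => ep_eq hp s (j + 1) (hx i)]
  constructor
  · intro h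
    refine Eq.trans (Finset.sum_congr rfl fun i hi => ?_) h
    have h1 : min (j + 1) ((Lf α i x).natAbs.factorization p - s) ≤ j := by
      calc _ ≤ ∑ i, min (j + 1) ((Lf α i x).natAbs.factorization p - s) :=
            Finset.single_le_sum (f := fun i => min (j + 1) ((Lf α i x).natAbs.factorization p - s))
              (fun _ _ => Nat.zero_le _) hi
        _ = j := h
    omega
  · intro h
    refine Eq.trans (Finset.sum_congr rfl fun i hi => ?_) h
    have h1 : (Lf α i x).natAbs.factorization p - s ≤ j := by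
      calc _ ≤ ∑ i, ((Lf α i x).natAbs.factorization p - s) :=
            Finset.single_le_sum (f := fun i => ((Lf α i x).natAbs.factorization p - s))
              (fun _ _ => Nat.zero_le _) hi
        _ = j := h
    omega

/-- the points with repeated part `w` -/
def AW (α : Fin q → ℤ × ℤ) (S : Finset ℕ) (w : ℕ) : Set (ℤ × ℤ) :=
  {x | IsCoprime x.1 x.2 ∧ (∀ i, Lf α i x ≠ 0) ∧ rep α S x = w}

/-- the approximation by the conditions at the primes below `P` -/
def AP (α : Fin q → ℤ × ℤ) (S : Finset ℕ) (w P : ℕ) : Set (ℤ × ℤ) :=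
  {x | ∀ p ∈ P.primesBelow, x ∈ Loc α p (sg S p) (w.factorization p)}

/-- the exceptional points -/
def Bd (α : Fin q → ℤ × ℤ) (P : ℕ) : Set (ℤ × ℤ) :=
  {x | (∃ i, Lf α i x = 0) ∨ ∃ p, P ≤ p ∧ p.Prime ∧
    (((p : ℤ) ∣ x.1 ∧ (p : ℤ) ∣ x.2) ∨ ∃ i, (p : ℤ) ^ 2 ∣ Lf α i x)}

theorem sg_le (S : Finset ℕ) (p : ℕ) : sg S p ≤ 1 := by unfold sg; split_ifs <;> omega

theorem coprime_not_dvd {x : ℤ × ℤ} (hx : IsCoprime x.1 x.2) {p : ℕ} (hp : p.Prime) :
    ¬((p : ℤ) ∣ x.1 ∧ (p : ℤ) ∣ x.2) := by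
  rintro ⟨h1, h2⟩
  have := hx.isUnit_of_dvd' h1 h2
  rw [Int.isUnit_iff_natAbs_eq, Int.natAbs_natCast] at this
  exact hp.one_lt.ne' this

theorem AW_sub_AP (α : Fin q → ℤ × ℤ) (S : Finset ℕ) (w P : ℕ) : AW α S w ⊆ AP α S w P := by
  rintro x ⟨h1, h2, h3⟩ p hp
  have hp' := Nat.prime_of_mem_primesBelow hp
  rw [Loc_iff α hp' _ _ h2]
  refine ⟨coprime_not_dvd h1 hp', ?_⟩
  rw [← rep_fact α S h2 hp', h3]

theorem AP_sub (α : Fin q → ℤ × ℤ) (S : Finset ℕ) {w P : ℕ} (hw : w ≠ 0)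
    (hS : ∀ p ∈ S, p < P) (hwP : ∀ p, p.Prime → p ∣ w → p < P) :
    AP α S w P ⊆ AW α S w ∪ Bd α P := by
  intro x hx
  by_cases hb : x ∈ Bd α P
  · exact Or.inr hb
  left
  have hL : ∀ i, Lf α i x ≠ 0 := fun i h => hb (Or.inl ⟨i, h⟩)
  have hbig : ∀ p, P ≤ p → p.Prime → ¬((p : ℤ) ∣ x.1 ∧ (p : ℤ) ∣ x.2) ∧
      ∀ i, ¬ (p : ℤ) ^ 2 ∣ Lf α i x := by
    intro p h1 h2
    refine ⟨fun h3 => hb (Or.inr ⟨p, h1, h2, Or.inl h3⟩), fun i h3 =>
      hb (Or.inr ⟨p, h1, h2, Or.inr ⟨i, h3⟩⟩)⟩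
  have hsmall : ∀ p, p < P → p.Prime → ¬((p : ℤ) ∣ x.1 ∧ (p : ℤ) ∣ x.2) ∧
      ∑ i, ((Lf α i x).natAbs.factorization p - sg S p) = w.factorization p := by
    intro p h1 h2
    exact (Loc_iff α h2 _ _ hL).1 (hx p (Nat.mem_primesBelow.2 ⟨h1, h2⟩))
  refine ⟨?_, hL, ?_⟩
  · rw [Int.isCoprime_iff_gcd_eq_one]
    by_contra hg
    obtain ⟨p, hp, hpd⟩ := Nat.exists_prime_and_dvd hg
    have h1 : (p : ℤ) ∣ x.1 := (Int.natCast_dvd_natCast.2 hpd).trans (Int.gcd_dvd_left _ _)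
    have h2 : (p : ℤ) ∣ x.2 := (Int.natCast_dvd_natCast.2 hpd).trans (Int.gcd_dvd_right _ _)
    rcases lt_or_ge p P with h | h
    · exact (hsmall p h hp).1 ⟨h1, h2⟩
    · exact (hbig p h hp).1 ⟨h1, h2⟩
  · refine Nat.eq_of_factorization_eq (rep_pos α S hL).ne' hw fun p => ?_
    by_cases hp : p.Prime
    · rw [rep_fact α S hL hp]
      rcases lt_or_ge p P with h | h
      · exact (hsmall p h hp).2
      · have h1 : w.factorization p = 0 := by
          refine Nat.factorization_eq_zero_of_not_dvd fun h2 => ?_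
          have := hwP p hp h2
          omega
        rw [h1, Finset.sum_eq_zero_iff]
        intro i _
        have h2 : p ∉ S := fun h3 => by
          have := hS p h3
          omega
        have h3 : sg S p = 1 := by unfold sg; rw [if_neg h2]
        rw [h3]
        have h4 : ¬ 2 ≤ (Lf α i x).natAbs.factorization p := by
          rw [← hp.pow_dvd_iff_le_factorization (Int.natAbs_ne_zero.2 (hL i)),
            ← Int.natCast_dvd_natCast, Int.dvd_natAbs, Nat.cast_pow]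
          exact (hbig p h hp).2 i
        omega
    · rw [Nat.factorization_eq_zero_of_not_prime _ hp, Nat.factorization_eq_zero_of_not_prime _ hp]

/-- the modulus -/
def MP (w P : ℕ) : ℕ := ∏ p ∈ P.primesBelow, p ^ (w.factorization p + 2)

theorem MP_pos (w P : ℕ) : 0 < MP w P :=
  Finset.prod_pos fun _ hp => pow_pos (Nat.prime_of_mem_primesBelow hp).pos _

/-- the local density -/
noncomputable def lp (α : Fin q → ℤ × ℤ) (S : Finset ℕ) (p j : ℕ) : ℝ :=
  pd (p ^ (j + 2)) (Loc α p (sg S p) j)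

theorem prod_per (α : Fin q → ℤ × ℤ) (S : Finset ℕ) (w : ℕ) (T : Finset ℕ)
    (hT : ∀ p ∈ T, p.Prime) :
    Per (∏ p ∈ T, p ^ (w.factorization p + 2))
      {x | ∀ p ∈ T, x ∈ Loc α p (sg S p) (w.factorization p)} ∧
    pd (∏ p ∈ T, p ^ (w.factorization p + 2))
      {x | ∀ p ∈ T, x ∈ Loc α p (sg S p) (w.factorization p)} =
      ∏ p ∈ T, lp α S p (w.factorization p) := by
  classical
  induction T using Finset.induction_on with
  | empty =>
    refine ⟨fun x y _ _ _ p hp => by simp at hp, ?_⟩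
    simp only [Finset.prod_empty, Finset.notMem_empty, false_imp_iff, implies_true]
    unfold pd
    have : rs 1 {x : ℤ × ℤ | True} = {(0, 0)} := by
      ext x
      rw [mem_rs, Finset.mem_singleton, Prod.ext_iff]
      constructor
      · rintro ⟨⟨⟨h1, h2⟩, h3, h4⟩, -⟩
        simp only [Nat.cast_one] at h2 h4
        exact ⟨by simp only; omega, by simp only; omega⟩
      · rintro ⟨h1, h2⟩
        simp only at h1 h2
        rw [h1, h2]
        exact ⟨⟨⟨le_refl _, by norm_num⟩, le_refl _, by norm_num⟩, trivial⟩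
    rw [this]
    simp
  | insert r T hr ih =>
    have hrp : r.Prime := hT r (Finset.mem_insert_self _ _)
    obtain ⟨ih1, ih2⟩ := ih fun p hp => hT p (Finset.mem_insert_of_mem hp)
    have hset : {x | ∀ p ∈ insert r T, x ∈ Loc α p (sg S p) (w.factorization p)} =
        Loc α r (sg S r) (w.factorization r) ∩
          {x | ∀ p ∈ T, x ∈ Loc α p (sg S p) (w.factorization p)} := by
      ext x
      constructor
      · intro h
        exact ⟨h r (Finset.mem_insert_self _ _), fun p hp => h p (Finset.mem_insert_of_mem hp)⟩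
      · rintro ⟨h1, h2⟩ p hp
        rcases Finset.mem_insert.1 hp with rfl | hp
        · exact h1
        · exact h2 p hp
    rw [hset, Finset.prod_insert hr, Finset.prod_insert hr]
    have hcop : Nat.Coprime (r ^ (w.factorization r + 2))
        (∏ p ∈ T, p ^ (w.factorization p + 2)) := by
      refine Nat.Coprime.prod_right fun p hp => ?_
      refine Nat.Coprime.pow _ _ ((Nat.coprime_primes hrp (hT p (Finset.mem_insert_of_mem hp))).2 ?_)
      rintro rfl
      exact hr hp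
    constructor
    · intro x y h1 h2 hx
      refine ⟨Loc_per α r _ _ (sg_le S r) x y ?_ ?_ hx.1, ih1 x y ?_ ?_ hx.2⟩
      · exact (Int.natCast_dvd_natCast.2 (dvd_mul_right _ _)).trans h1
      · exact (Int.natCast_dvd_natCast.2 (dvd_mul_right _ _)).trans h2
      · exact (Int.natCast_dvd_natCast.2 (dvd_mul_left _ _)).trans h1
      · exact (Int.natCast_dvd_natCast.2 (dvd_mul_left _ _)).trans h2
    · rw [pd_mul (pow_pos hrp.pos _) (Finset.prod_pos fun p hp =>
        pow_pos (hT p (Finset.mem_insert_of_mem hp)).pos _) hcop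
        (Loc_per α r _ _ (sg_le S r)) ih1, ih2]
      rfl

theorem AP_per (α : Fin q → ℤ × ℤ) (S : Finset ℕ) (w P : ℕ) : Per (MP w P) (AP α S w P) :=
  (prod_per α S w P.primesBelow fun _ hp => Nat.prime_of_mem_primesBelow hp).1

theorem AP_pd (α : Fin q → ℤ × ℤ) (S : Finset ℕ) (w P : ℕ) :
    pd (MP w P) (AP α S w P) = ∏ p ∈ P.primesBelow, lp α S p (w.factorization p) :=
  (prod_per α S w P.primesBelow fun _ hp => Nat.prime_of_mem_primesBelow hp).2

end Pool.Agent.W5h35.LW
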