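import Pool.Agent.W5h35.LW.Gd
import Pool.Agent.W5h35.LW.Eul

/-!
# Natural densities, and the local factors at the good primes
-/

set_option autoImplicit false

namespace Pool.Agent.W5h35.LW

open Filter Topology MeasureTheory

variable {q : ℕ}

/-- the natural density of a set of pairs of integers -/
def HasDens (A : Set (ℤ × ℤ)) (d : ℝ) : Prop :=
  Tendsto (fun N : ℕ => ((A ∩ {x | |x.1| ≤ N ∧ |x.2| ≤ N}).ncard : ℝ) / (2 * (N : ℝ) + 1) ^ 2)
    atTop (𝓝 d)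

theorem LP_box {N : ℕ} (hN : 1 ≤ N) :
    LP (Metric.closedBall (0 : ℝ × ℝ) 1) 0 N = {x : ℤ × ℤ | |x.1| ≤ N ∧ |x.2| ≤ N} := by
  have hN0 : (0 : ℝ) < N := by exact_mod_cast hN
  ext x
  show sc 0 (N : ℝ) x ∈ Metric.closedBall (0 : ℝ × ℝ) 1 ↔ _
  rw [mem_closedBall_zero_iff, Prod.norm_def, max_le_iff]
  have key : ∀ a : ℤ, ‖((a : ℝ) + 0) / N‖ ≤ 1 ↔ |a| ≤ N := by
    intro a
    rw [add_zero, Real.norm_eq_abs, abs_div, abs_of_pos hN0, div_le_one hN0]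
    exact_mod_cast Iff.rfl
  exact and_congr (key x.1) (key x.2)

theorem vol_ball : volume.real (Metric.closedBall (0 : ℝ × ℝ) 1) = 4 := by
  have h : Metric.closedBall (0 : ℝ × ℝ) 1 = Metric.closedBall (0 : ℝ) 1 ×ˢ
      Metric.closedBall (0 : ℝ) 1 := by
    rw [closedBall_prod_same]
    rfl
  rw [Measure.real, h, Measure.volume_eq_prod, Measure.prod_prod, Real.volume_closedBall,
    ← ENNReal.ofReal_mul (by norm_num), ENNReal.toReal_ofReal (by norm_num)]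
  norm_num

theorem front_ball : volume (frontier (Metric.closedBall (0 : ℝ × ℝ) 1)) = 0 :=
  (convex_closedBall (0 : ℝ × ℝ) 1).addHaar_frontier volume

theorem dens_of_lim {A : Set (ℤ × ℤ)} {d : ℝ}
    (h : Tendsto (fun t : ℝ => ((A ∩ LP (Metric.closedBall (0 : ℝ × ℝ) 1) 0 t).ncard : ℝ) / t ^ 2)
      atTop (𝓝 (d * volume.real (Metric.closedBall (0 : ℝ × ℝ) 1)))) : HasDens A d := by
  rw [vol_ball] at h
  have h1 := h.comp tendsto_natCast_atTop_atTop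
  have h2 : Tendsto (fun N : ℕ => (N : ℝ) ^ 2 / (2 * (N : ℝ) + 1) ^ 2) atTop (𝓝 (1 / 4)) := by
    have h3 : Tendsto (fun N : ℕ => (2 + 1 / (N : ℝ)) ^ 2) atTop (𝓝 ((2 + 0) ^ 2)) :=
      (tendsto_const_nhds.add tendsto_one_div_atTop_nhds_zero_nat).pow 2
    have h4 := h3.inv₀ (by norm_num)
    have e : ((2 + 0 : ℝ) ^ 2)⁻¹ = 1 / 4 := by norm_num
    rw [e] at h4
    refine h4.congr' ?_
    filter_upwards [eventually_gt_atTop 0] with N hN
    have hN0 : (0 : ℝ) < N := by exact_mod_cast hN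
    have : (2 : ℝ) + 1 / N = (2 * N + 1) / N := by field_simp
    rw [this, div_pow, inv_div]
  have h3 := h1.mul h2
  have e : d * 4 * (1 / 4) = d := by ring
  rw [e] at h3
  refine h3.congr' ?_
  filter_upwards [eventually_gt_atTop 0] with N hN
  have hN0 : (0 : ℝ) < N := by exact_mod_cast hN
  simp only [Function.comp_apply]
  rw [LP_box (by omega)]
  field_simp

theorem dens_AW (hq : 1 ≤ q) (α : Fin q → ℤ × ℤ) (hcop : ∀ i, IsCoprime (α i).1 (α i).2)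
    (S : Finset ℕ) {w : ℕ} (hw : w ≠ 0) : HasDens (AW α S w) (dw α S w) :=
  dens_of_lim (dens hq α hcop S hw Metric.isBounded_closedBall front_ball
    Metric.isClosed_closedBall.measurableSet)

theorem zero_few (α : Fin q → ℤ × ℤ) (hcop : ∀ i, IsCoprime (α i).1 (α i).2) (N : ℕ) :
    ({x : ℤ × ℤ | ∃ i, Lf α i x = 0} ∩ {x | |x.1| ≤ N ∧ |x.2| ≤ N}).ncard ≤ q * (2 * N + 1) := by
  classical
  have h1 : {x : ℤ × ℤ | ∃ i, Lf α i x = 0} ∩ {x | |x.1| ≤ N ∧ |x.2| ≤ N} ⊆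
      ((Finset.univ.biUnion fun i : Fin q => (Qd N).filter fun x => Lf α i x = 0 :
        Finset (ℤ × ℤ)) : Set (ℤ × ℤ)) := by
    rintro x ⟨⟨i, hi⟩, h2, h3⟩
    rw [Finset.mem_coe, Finset.mem_biUnion]
    refine ⟨i, Finset.mem_univ i, Finset.mem_filter.2 ⟨?_, hi⟩⟩
    rw [mem_Qd]
    exact ⟨abs_le.1 h2, abs_le.1 h3⟩
  refine (Set.ncard_le_ncard h1 (Finset.finite_toSet _)).trans ?_
  rw [Set.ncard_coe_finset]
  refine Finset.card_biUnion_le.trans ((Finset.sum_le_sum fun i _ => zero_card _ _ (hcop i) _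
    (Finset.filter_subset _ _) fun x hx => (Finset.mem_filter.1 hx).2).trans (le_of_eq ?_))
  rw [Finset.sum_const, Finset.card_univ, Fintype.card_fin, smul_eq_mul]

theorem box_finite (N : ℕ) : {x : ℤ × ℤ | |x.1| ≤ N ∧ |x.2| ≤ N}.Finite := by
  refine (Finset.finite_toSet (Qd N)).subset ?_
  rintro x ⟨h2, h3⟩
  rw [Finset.mem_coe, mem_Qd]
  exact ⟨abs_le.1 h2, abs_le.1 h3⟩

theorem dens_sub (α : Fin q → ℤ × ℤ) (hcop : ∀ i, IsCoprime (α i).1 (α i).2)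
    {A B : Set (ℤ × ℤ)} {d : ℝ} (h : HasDens A d) (h1 : B ⊆ A)
    (h2 : A ⊆ B ∪ {x : ℤ × ℤ | ∃ i, Lf α i x = 0}) : HasDens B d := by
  have h3 : Tendsto (fun N : ℕ => (q : ℝ) / (2 * (N : ℝ) + 1)) atTop (𝓝 0) := by
    refine tendsto_const_nhds.div_atTop ?_
    exact tendsto_atTop_add_const_right _ _
      (tendsto_natCast_atTop_atTop.const_mul_atTop (by norm_num))
  have h4 := h.sub h3
  rw [sub_zero] at h4
  refine tendsto_of_tendsto_of_tendsto_of_le_of_le h4 h ?_ ?_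
  · intro N
    simp only
    have hN0 : (0 : ℝ) < 2 * N + 1 := by positivity
    have hsub : A ∩ {x | |x.1| ≤ N ∧ |x.2| ≤ N} ⊆ (B ∩ {x | |x.1| ≤ N ∧ |x.2| ≤ N}) ∪
        ({x : ℤ × ℤ | ∃ i, Lf α i x = 0} ∩ {x | |x.1| ≤ N ∧ |x.2| ≤ N}) := by
      rintro x ⟨hx1, hx2⟩
      rcases h2 hx1 with h | h
      · exact Or.inl ⟨h, hx2⟩
      · exact Or.inr ⟨h, hx2⟩
    have h5 := (Set.ncard_le_ncard hsub (((box_finite N).subset Set.inter_subset_right).union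
      ((box_finite N).subset Set.inter_subset_right))).trans (Set.ncard_union_le _ _)
    have h6 := zero_few α hcop N
    have h7 : ((A ∩ {x | |x.1| ≤ N ∧ |x.2| ≤ N}).ncard : ℝ) ≤
        ((B ∩ {x | |x.1| ≤ N ∧ |x.2| ≤ N}).ncard : ℝ) + q * (2 * N + 1) := by
      exact_mod_cast h5.trans (Nat.add_le_add_left h6 _)
    rw [sub_le_iff_le_add]
    have e : ((B ∩ {x | |x.1| ≤ N ∧ |x.2| ≤ N}).ncard : ℝ) / (2 * (N : ℝ) + 1) ^ 2 +
        (q : ℝ) / (2 * (N : ℝ) + 1) =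
        (((B ∩ {x | |x.1| ≤ N ∧ |x.2| ≤ N}).ncard : ℝ) + q * (2 * N + 1)) /
          (2 * (N : ℝ) + 1) ^ 2 := by
      field_simp
    rw [e]
    exact div_le_div_of_nonneg_right h7 (by positivity)
  · intro N
    simp only
    apply div_le_div_of_nonneg_right _ (by positivity)
    exact_mod_cast Set.ncard_le_ncard (Set.inter_subset_inter_left _ h1)
      ((box_finite N).subset Set.inter_subset_right)

/-- the density of the points with `p`-part `p ^ j` of the repeated part -/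
theorem dens_loc (α : Fin q → ℤ × ℤ) (hcop : ∀ i, IsCoprime (α i).1 (α i).2) (S : Finset ℕ)
    {p : ℕ} (hp : p.Prime) (j : ℕ) :
    HasDens {x | ¬((p : ℤ) ∣ x.1 ∧ (p : ℤ) ∣ x.2) ∧ (∀ i, Lf α i x ≠ 0) ∧
      (rep α S x).factorization p = j} (lp α S p j) := by
  refine dens_sub α hcop (A := Loc α p (sg S p) j) (dens_of_lim (per_lat (pow_pos hp.pos _)
    (Loc_per α p _ j (sg_le S p)) Metric.isBounded_closedBall front_ball
    Metric.isClosed_closedBall.measurableSet)) ?_ ?_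
  · rintro x ⟨h1, h2, h3⟩
    rw [Loc_iff α hp _ _ h2]
    refine ⟨h1, ?_⟩
    rw [← rep_fact α S h2 hp]
    exact h3
  · intro x hx
    by_cases h : ∃ i, Lf α i x = 0
    · exact Or.inr h
    · left
      push Not at h
      rw [Loc_iff α hp _ _ h] at hx
      refine ⟨hx.1, h, ?_⟩
      rw [rep_fact α S h hp]
      exact hx.2

/-- the local factor at a good prime -/
theorem sigma_good (hq : 3 ≤ q) {α : Fin q → ℤ × ℤ} (hcop : ∀ i, IsCoprime (α i).1 (α i).2)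
    {S : Finset ℕ} {p : ℕ} (hp : p.Prime) (hpS : p ∉ S)
    (hg : ∀ i j, i ≠ j → ¬ (p : ℤ) ∣ (α i).1 * (α j).2 - (α j).1 * (α i).2) :
    ∑' j, lw α S p j = 1 - 1 / (p : ℝ) ^ 2 + q / p * (1 - 1 / p) *
      (((p : ℝ) ^ (2 / (q : ℝ)) - 1) / (p - (p : ℝ) ^ (2 / (q : ℝ)))) := by
  have hpR : (0 : ℝ) < p := by exact_mod_cast hp.pos
  have hp1 : (1 : ℝ) < p := by exact_mod_cast hp.one_lt
  have hqR : (3 : ℝ) ≤ q := by exact_mod_cast hq
  have hq0 : (0 : ℝ) < q := by linarith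
  obtain ⟨y, hy⟩ : ∃ y : ℝ, y = (p : ℝ) ^ (2 / (q : ℝ)) := ⟨_, rfl⟩
  have hy0 : 0 < y := by rw [hy]; positivity
  have hyp : y < p := by
    rw [hy]
    calc (p : ℝ) ^ (2 / (q : ℝ)) < (p : ℝ) ^ (1 : ℝ) :=
          Real.rpow_lt_rpow_of_exponent_lt hp1 (by rw [div_lt_one hq0]; linarith)
      _ = p := Real.rpow_one _
  have hz1 : y / p < 1 := by rw [div_lt_one hpR]; exact hyp
  have hgeo := hasSum_geometric_of_lt_one (by positivity : 0 ≤ y / p) hz1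
  have h1 : HasSum (fun j : ℕ => lw α S p (j + 1))
      (q * (1 - 1 / p) ^ 2 / (p : ℝ) * (y / p) * (1 - y / p)⁻¹) := by
    refine (hgeo.mul_left (q * (1 - 1 / p) ^ 2 / (p : ℝ) * (y / p))).congr_fun ?_
    intro j
    unfold lw
    rw [lp_pos hcop hp hpS hg (by omega : 1 ≤ j + 1)]
    have e : (p : ℝ) ^ (2 * ((j + 1 : ℕ) : ℝ) / (q : ℝ)) = y ^ (j + 1) := by
      rw [hy, ← Real.rpow_natCast, ← Real.rpow_mul hpR.le]
      congr 1
      ring
    rw [e]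
    rw [div_pow, pow_succ (p : ℝ) (j + 1), pow_succ (p : ℝ) j, pow_succ y j]
    field_simp
  have h2 := (hasSum_nat_add_iff (f := lw α S p) 1).1 h1
  rw [h2.tsum_eq, Finset.sum_range_one]
  unfold lw
  rw [lp_zero hcop hp hpS hg, ← hy]
  have e0 : (p : ℝ) ^ (2 * ((0 : ℕ) : ℝ) / (q : ℝ)) = 1 := by simp
  rw [e0]
  have h3 : (p : ℝ) - y ≠ 0 := by linarith
  have h4 : (1 : ℝ) - y / p ≠ 0 := by
    have : 0 < 1 - y / p := by linarith
    exact this.ne'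
  field_simp
  ring

end Pool.Agent.W5h35.LW
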