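import Pool.Agent.W5h35.LW.Lat

/-!
# Lattice points subject to congruence conditions
-/

set_option autoImplicit false

namespace Pool.Agent.W5h35.LW

open Filter Topology MeasureTheory Set

/-- the set `A` is periodic modulo `M` -/
def Per (M : ℕ) (A : Set (ℤ × ℤ)) : Prop :=
  ∀ x y : ℤ × ℤ, (M : ℤ) ∣ x.1 - y.1 → (M : ℤ) ∣ x.2 - y.2 → x ∈ A → y ∈ A

/-- the residues -/
noncomputable def bx (M : ℕ) : Finset (ℤ × ℤ) := Finset.Ico (0 : ℤ) M ×ˢ Finset.Ico (0 : ℤ) M

open Classical in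
/-- the residues in `A` -/
noncomputable def rs (M : ℕ) (A : Set (ℤ × ℤ)) : Finset (ℤ × ℤ) := (bx M).filter (· ∈ A)

/-- the density of a periodic set -/
noncomputable def pd (M : ℕ) (A : Set (ℤ × ℤ)) : ℝ := ((rs M A).card : ℝ) / (M : ℝ) ^ 2

theorem mem_rs {M : ℕ} {A : Set (ℤ × ℤ)} {x : ℤ × ℤ} :
    x ∈ rs M A ↔ ((0 ≤ x.1 ∧ x.1 < M) ∧ 0 ≤ x.2 ∧ x.2 < M) ∧ x ∈ A := by
  classical
  unfold rs bx
  rw [Finset.mem_filter, Finset.mem_product, Finset.mem_Ico, Finset.mem_Ico]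

theorem pd_nonneg (M : ℕ) (A : Set (ℤ × ℤ)) : 0 ≤ pd M A := by unfold pd; positivity

/-- the residue -/
def md (M : ℕ) (x : ℤ × ℤ) : ℤ × ℤ := (x.1 % M, x.2 % M)

theorem md_mem {M : ℕ} (hM : 0 < M) {A : Set (ℤ × ℤ)} (hA : Per M A) {x : ℤ × ℤ} (hx : x ∈ A) :
    md M x ∈ rs M A := by
  have hM' : (0 : ℤ) < M := by exact_mod_cast hM
  rw [mem_rs]
  refine ⟨⟨⟨Int.emod_nonneg _ hM'.ne', Int.emod_lt_of_pos _ hM'⟩, Int.emod_nonneg _ hM'.ne',
    Int.emod_lt_of_pos _ hM'⟩, hA x _ ?_ ?_ hx⟩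
  · exact Int.dvd_self_sub_emod
  · exact Int.dvd_self_sub_emod

theorem fiber_ncard {M : ℕ} (hM : 0 < M) {A : Set (ℤ × ℤ)} (hA : Per M A) (S : Set (ℝ × ℝ))
    (r : ℤ × ℤ) (hr : r ∈ rs M A) (t : ℝ) :
    {x | x ∈ A ∩ LP S 0 t ∧ md M x = r}.ncard =
      (LP S ((r.1 : ℝ) / M, (r.2 : ℝ) / M) (t / M)).ncard := by
  have hM' : (0 : ℤ) < M := by exact_mod_cast hM
  have hMR : (0 : ℝ) < M := by exact_mod_cast hM
  rw [mem_rs] at hr
  obtain ⟨⟨⟨h1, h2⟩, h3, h4⟩, h5⟩ := hr
  have hinj : Function.Injective (fun y : ℤ × ℤ => ((M : ℤ) * y.1 + r.1, (M : ℤ) * y.2 + r.2)) := by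
    intro y y' h
    simp only [Prod.mk.injEq, add_left_inj, mul_eq_mul_left_iff] at h
    exact Prod.ext (h.1.resolve_right hM'.ne') (h.2.resolve_right hM'.ne')
  rw [← ncard_image_of_injective (LP S ((r.1 : ℝ) / M, (r.2 : ℝ) / M) (t / M)) hinj]
  refine congrArg ncard ?_
  have hsc : ∀ y : ℤ × ℤ, sc 0 t ((M : ℤ) * y.1 + r.1, (M : ℤ) * y.2 + r.2) =
      sc ((r.1 : ℝ) / M, (r.2 : ℝ) / M) (t / M) y := by
    intro y
    unfold sc
    simp only [Prod.fst_zero, Prod.snd_zero, add_zero]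
    push_cast
    ext
    · simp only
      rw [div_div_eq_mul_div]
      congr 1
      field_simp
    · simp only
      rw [div_div_eq_mul_div]
      congr 1
      field_simp
  ext x
  rw [mem_image]
  constructor
  · rintro ⟨⟨hxA, hxS⟩, hx⟩
    refine ⟨(x.1 / M, x.2 / M), ?_, ?_⟩
    · have e : x = ((M : ℤ) * (x.1 / M, x.2 / M).1 + r.1, (M : ℤ) * (x.1 / M, x.2 / M).2 + r.2) := by
        rw [← hx]
        simp only [md]
        ext
        · simp only
          rw [Int.mul_ediv_add_emod]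
        · simp only
          rw [Int.mul_ediv_add_emod]
      show sc _ _ _ ∈ S
      rw [← hsc, ← e]
      exact hxS
    · rw [← hx]
      simp only [md]
      ext
      · simp only
        rw [Int.mul_ediv_add_emod]
      · simp only
        rw [Int.mul_ediv_add_emod]
  · rintro ⟨y, hy, rfl⟩
    refine ⟨⟨?_, ?_⟩, ?_⟩
    · refine hA r _ ?_ ?_ h5
      · exact ⟨-y.1, by ring⟩
      · exact ⟨-y.2, by ring⟩
    · show sc _ _ _ ∈ S
      rw [hsc]
      exact hy
    · simp only [md]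
      rw [Int.mul_add_emod_self_left, Int.mul_add_emod_self_left, Int.emod_eq_of_lt h1 h2,
        Int.emod_eq_of_lt h3 h4]

theorem count_eq {M : ℕ} (hM : 0 < M) {A : Set (ℤ × ℤ)} (hA : Per M A) {S : Set (ℝ × ℝ)}
    (hb : Bornology.IsBounded S) {t : ℝ} (ht : 0 < t) :
    (A ∩ LP S 0 t).ncard =
      ∑ r ∈ rs M A, (LP S ((r.1 : ℝ) / M, (r.2 : ℝ) / M) (t / M)).ncard := by
  classical
  have hfin : (A ∩ LP S 0 t).Finite := (LP_finite hb 0 ht).subset inter_subset_right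
  rw [ncard_eq_toFinset_card _ hfin,
    Finset.card_eq_sum_card_fiberwise (f := md M) (t := rs M A) (fun x hx => by
      rw [Finset.mem_coe, hfin.mem_toFinset] at hx
      exact Finset.mem_coe.2 (md_mem hM hA hx.1))]
  refine Finset.sum_congr rfl fun r hr => ?_
  rw [← fiber_ncard hM hA S r hr t, ← ncard_coe_finset]
  congr 1
  ext x
  rw [Finset.mem_coe, Finset.mem_filter, hfin.mem_toFinset]
  rfl

/-- **Lattice points with congruence conditions.** -/
theorem per_lat {M : ℕ} (hM : 0 < M) {A : Set (ℤ × ℤ)} (hA : Per M A) {S : Set (ℝ × ℝ)}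
    (hb : Bornology.IsBounded S) (hf : volume (frontier S) = 0) (hm : MeasurableSet S) :
    Tendsto (fun t : ℝ => ((A ∩ LP S 0 t).ncard : ℝ) / t ^ 2) atTop
      (𝓝 (pd M A * volume.real S)) := by
  have hMR : (0 : ℝ) < M := by exact_mod_cast hM
  have h1 : ∀ r ∈ rs M A, Tendsto (fun t : ℝ =>
      ((LP S ((r.1 : ℝ) / M, (r.2 : ℝ) / M) (t / M)).ncard : ℝ) / t ^ 2) atTop
      (𝓝 (volume.real S / (M : ℝ) ^ 2)) := by
    intro r _
    have h2 := (lat hb hf hm ((r.1 : ℝ) / M, (r.2 : ℝ) / M)).comp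
      (tendsto_id.atTop_div_const hMR)
    have h3 := h2.div_const ((M : ℝ) ^ 2)
    refine h3.congr fun t => ?_
    simp only [Function.comp_apply, id]
    rw [div_pow, div_div, div_mul_cancel₀ _ (by positivity)]
  have h2 := tendsto_finsetSum _ h1
  rw [Finset.sum_const, nsmul_eq_mul] at h2
  have e : ((rs M A).card : ℝ) * (volume.real S / (M : ℝ) ^ 2) = pd M A * volume.real S := by
    unfold pd; ring
  rw [e] at h2
  refine h2.congr' ?_
  filter_upwards [eventually_gt_atTop 0] with t ht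
  rw [count_eq hM hA hb ht]
  push_cast
  rw [Finset.sum_div]

/-- the density of the intersection of periodic sets with coprime periods -/
theorem pd_mul {M N : ℕ} (hM : 0 < M) (hN : 0 < N) (hMN : Nat.Coprime M N) {A B : Set (ℤ × ℤ)}
    (hA : Per M A) (hB : Per N B) : pd (M * N) (A ∩ B) = pd M A * pd N B := by
  classical
  have hM' : (0 : ℤ) < M := by exact_mod_cast hM
  have hN' : (0 : ℤ) < N := by exact_mod_cast hN
  have hcop : IsCoprime (M : ℤ) (N : ℤ) := Nat.isCoprime_iff_coprime.2 hMN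
  have key : (rs (M * N) (A ∩ B)).card = (rs M A ×ˢ rs N B).card := by
    obtain ⟨u, v, huv⟩ := hcop
    have hMN' : (0 : ℤ) < ((M * N : ℕ) : ℤ) := by push_cast; positivity
    have crM : ∀ a b : ℤ, (M : ℤ) ∣ a - (b * (u * M) + a * (v * N)) % ((M * N : ℕ) : ℤ) := by
      intro a b
      have h1 : (M : ℤ) ∣ a - (b * (u * M) + a * (v * N)) :=
        ⟨u * (a - b), by linear_combination (-a) * huv⟩
      have h2 : (M : ℤ) ∣ (b * (u * M) + a * (v * N)) -
          (b * (u * M) + a * (v * N)) % ((M * N : ℕ) : ℤ) :=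
        (Dvd.intro _ (by push_cast; rfl)).trans Int.dvd_self_sub_emod
      have h3 := dvd_add h1 h2
      rwa [sub_add_sub_cancel] at h3
    have crN : ∀ a b : ℤ, (N : ℤ) ∣ b - (b * (u * M) + a * (v * N)) % ((M * N : ℕ) : ℤ) := by
      intro a b
      have h1 : (N : ℤ) ∣ b - (b * (u * M) + a * (v * N)) :=
        ⟨v * (b - a), by linear_combination (-b) * huv⟩
      have h2 : (N : ℤ) ∣ (b * (u * M) + a * (v * N)) -
          (b * (u * M) + a * (v * N)) % ((M * N : ℕ) : ℤ) :=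
        (Dvd.intro_left _ (by push_cast; rfl)).trans
          Int.dvd_self_sub_emod
      have h3 := dvd_add h1 h2
      rwa [sub_add_sub_cancel] at h3
    have uniq : ∀ (K : ℕ) (a b : ℤ), 0 ≤ a → a < K → 0 ≤ b → b < K → (K : ℤ) ∣ a - b → a = b := by
      intro K a b h1 h2 h3 h4 h5
      have := (Int.emod_emod_of_dvd a (dvd_refl (K : ℤ)))
      have h6 : a % K = b % K := Int.emod_eq_emod_iff_emod_sub_eq_zero.2 (Int.emod_eq_zero_of_dvd h5)
      rwa [Int.emod_eq_of_lt h1 h2, Int.emod_eq_of_lt h3 h4] at h6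
    refine Finset.card_bij' (fun x _ => (md M x, md N x))
      (fun z _ => ((z.2.1 * (u * M) + z.1.1 * (v * N)) % ((M * N : ℕ) : ℤ),
        (z.2.2 * (u * M) + z.1.2 * (v * N)) % ((M * N : ℕ) : ℤ))) ?_ ?_ ?_ ?_
    · intro x hx
      rw [mem_rs] at hx
      rw [Finset.mem_product]
      exact ⟨md_mem hM hA hx.2.1, md_mem hN hB hx.2.2⟩
    · intro z hz
      rw [Finset.mem_product, mem_rs, mem_rs] at hz
      rw [mem_rs]
      refine ⟨⟨⟨Int.emod_nonneg _ hMN'.ne', Int.emod_lt_of_pos _ hMN'⟩,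
        Int.emod_nonneg _ hMN'.ne', Int.emod_lt_of_pos _ hMN'⟩, ?_, ?_⟩
      · exact hA z.1 _ (crM _ _) (crM _ _) hz.1.2
      · exact hB z.2 _ (crN _ _) (crN _ _) hz.2.2
    · intro x hx
      rw [mem_rs] at hx
      have gen : ∀ a : ℤ, 0 ≤ a → a < ((M * N : ℕ) : ℤ) →
          (a % N * (u * M) + a % M * (v * N)) % ((M * N : ℕ) : ℤ) = a := by
        intro a h1 h2
        refine uniq (M * N) _ _ (Int.emod_nonneg _ hMN'.ne') (Int.emod_lt_of_pos _ hMN') h1 h2 ?_
        have e1 : (M : ℤ) ∣ (a % N * (u * M) + a % M * (v * N)) % ((M * N : ℕ) : ℤ) - a := by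
          have := crM (a % M) (a % N)
          have h3 : (M : ℤ) ∣ a - a % M := Int.dvd_self_sub_emod
          have h4 := dvd_add h3 this
          rw [sub_add_sub_cancel] at h4
          rw [← dvd_neg, neg_sub]
          exact h4
        have e2 : (N : ℤ) ∣ (a % N * (u * M) + a % M * (v * N)) % ((M * N : ℕ) : ℤ) - a := by
          have := crN (a % M) (a % N)
          have h3 : (N : ℤ) ∣ a - a % N := Int.dvd_self_sub_emod
          have h4 := dvd_add h3 this
          rw [sub_add_sub_cancel] at h4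
          rw [← dvd_neg, neg_sub]
          exact h4
        push_cast
        push_cast at e1 e2
        exact IsCoprime.mul_dvd ⟨u, v, huv⟩ e1 e2
      ext
      · exact gen x.1 hx.1.1.1 hx.1.1.2
      · exact gen x.2 hx.1.2.1 hx.1.2.2
    · intro z hz
      rw [Finset.mem_product, mem_rs, mem_rs] at hz
      obtain ⟨⟨⟨⟨g1, g2⟩, g3, g4⟩, g5⟩, ⟨⟨g6, g7⟩, g8, g9⟩, g10⟩ := hz
      have e1 : ∀ a b : ℤ, 0 ≤ a → a < M →
          (b * (u * M) + a * (v * N)) % ((M * N : ℕ) : ℤ) % M = a := by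
        intro a b h1 h2
        refine uniq M _ _ (Int.emod_nonneg _ hM'.ne') (Int.emod_lt_of_pos _ hM') h1 h2 ?_
        have h3 := crM a b
        have h4 : (M : ℤ) ∣ (b * (u * M) + a * (v * N)) % ((M * N : ℕ) : ℤ) -
          (b * (u * M) + a * (v * N)) % ((M * N : ℕ) : ℤ) % M := Int.dvd_self_sub_emod
        have h5 := dvd_add h3 h4
        rw [sub_add_sub_cancel] at h5
        rw [← dvd_neg, neg_sub]
        exact h5
      have e2 : ∀ a b : ℤ, 0 ≤ b → b < N →
          (b * (u * M) + a * (v * N)) % ((M * N : ℕ) : ℤ) % N = b := by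
        intro a b h1 h2
        refine uniq N _ _ (Int.emod_nonneg _ hN'.ne') (Int.emod_lt_of_pos _ hN') h1 h2 ?_
        have h3 := crN a b
        have h4 : (N : ℤ) ∣ (b * (u * M) + a * (v * N)) % ((M * N : ℕ) : ℤ) -
          (b * (u * M) + a * (v * N)) % ((M * N : ℕ) : ℤ) % N := Int.dvd_self_sub_emod
        have h5 := dvd_add h3 h4
        rw [sub_add_sub_cancel] at h5
        rw [← dvd_neg, neg_sub]
        exact h5
      refine Prod.ext (Prod.ext ?_ ?_) (Prod.ext ?_ ?_)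
      · exact e1 _ _ g1 g2
      · exact e1 _ _ g3 g4
      · exact e2 _ _ g6 g7
      · exact e2 _ _ g8 g9
  unfold pd
  rw [key, Finset.card_product]
  push_cast
  field_simp

end Pool.Agent.W5h35.LW
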