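import Pool.Agent.W5h35.LW.Lim
import Pool.Agent.R365.SH.All
import Pool.Agent.H813R3.Abc.A

/-!
# The tail: from the counting function over number fields to coprime integer coordinates
-/

set_option autoImplicit false

namespace Pool.Agent.W5h35.LW

open NumberField IsDedekindDomain Filter Topology

variable {q : ℕ}

open Pool.Agent.H691R3 Pool.Agent.H813R3.Abc in
theorem fv_max {a b : ℤ} (h : IsCoprime a b) (v : HeightOneSpectrum (𝓞 ℚ)) :
    max (fv v (a : ℚ)) (fv v (b : ℚ)) = 1 := by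
  refine le_antisymm (max_le (fv_int_le v a) (fv_int_le v b)) ?_
  by_contra hcon
  rw [not_le, max_lt_iff] at hcon
  have h1 := dvd_of_fv v a hcon.1.ne
  have h2 := dvd_of_fv v b hcon.2.ne
  exact coprime_not_dvd (x := (a, b)) h (pr_prime v) ⟨h1, h2⟩

open Pool.Agent.H691R3 Pool.Agent.H813R3.Abc in
theorem max_aff (f : AbsoluteValue ℚ ℝ) (a b : ℤ) (hb : b ≠ 0) :
    max (f ((a : ℚ) / b)) (f 1) = max (f (a : ℚ)) (f (b : ℚ)) / f (b : ℚ) := by
  have hbQ : (b : ℚ) ≠ 0 := by exact_mod_cast hb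
  have hf : 0 < f (b : ℚ) := f.pos hbQ
  rw [eq_div_iff hf.ne', max_mul_of_nonneg _ _ hf.le, ← f.map_mul, ← f.map_mul, one_mul,
    div_mul_cancel₀ _ hbQ]

open Pool.Agent.H691R3 Pool.Agent.H813R3.Abc in
theorem hr_eq {x : ℤ × ℤ} (h : IsCoprime x.1 x.2) (h2 : x.2 ≠ 0) :
    hr (aff ((x.1 : ℚ) / x.2)) = hgt x := by
  have h2Q : (x.2 : ℚ) ≠ 0 := by exact_mod_cast h2
  have hpf := log_product_formula (K := ℚ) h2Q
  unfold hr
  have e1 : ∀ v : HeightOneSpectrum (𝓞 ℚ),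
      Real.log (max (fv v (aff ((x.1 : ℚ) / x.2)).1) (fv v (aff ((x.1 : ℚ) / x.2)).2)) =
        -Real.log (fv v (x.2 : ℚ)) := by
    intro v
    show Real.log (max (fv v ((x.1 : ℚ) / x.2)) (fv v 1)) = _
    rw [max_aff (fv v) x.1 x.2 h2, fv_max h v, one_div, Real.log_inv]
  rw [finsum_congr e1, finsum_neg_distrib]
  have e2 : ∑ w : InfinitePlace ℚ, (w.mult : ℝ) *
      Real.log (max (w (aff ((x.1 : ℚ) / x.2)).1) (w (aff ((x.1 : ℚ) / x.2)).2)) =
      hgt x + ∑ w : InfinitePlace ℚ, (w.mult : ℝ) * -Real.log (w (x.2 : ℚ)) := by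
    rw [Fintype.sum_unique, Fintype.sum_unique]
    have hm : ((default : InfinitePlace ℚ).mult : ℝ) = 1 := by
      have h3 : (default : InfinitePlace ℚ).IsReal := by
        rw [Subsingleton.elim (default : InfinitePlace ℚ) Rat.infinitePlace]
        exact IsTotallyReal.isReal _
      rw [InfinitePlace.mult, if_pos h3, Nat.cast_one]
    rw [hm, one_mul, one_mul]
    show Real.log (max ((default : InfinitePlace ℚ) ((x.1 : ℚ) / x.2))
      ((default : InfinitePlace ℚ) 1)) = _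
    have h4 := max_aff (default : InfinitePlace ℚ).1 x.1 x.2 h2
    have h5 : max ((default : InfinitePlace ℚ) ((x.1 : ℚ) / x.2)) ((default : InfinitePlace ℚ) 1) =
        max ((default : InfinitePlace ℚ) (x.1 : ℚ)) ((default : InfinitePlace ℚ) (x.2 : ℚ)) /
          (default : InfinitePlace ℚ) (x.2 : ℚ) := h4
    rw [h5]
    have h6 : 0 < (default : InfinitePlace ℚ) (x.2 : ℚ) := InfinitePlace.pos_iff.2 h2Q
    have h7 : 0 < max ((default : InfinitePlace ℚ) (x.1 : ℚ))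
        ((default : InfinitePlace ℚ) (x.2 : ℚ)) := lt_max_of_lt_right h6
    rw [Real.log_div h7.ne' h6.ne']
    have h8 : Real.log (max ((default : InfinitePlace ℚ) (x.1 : ℚ))
        ((default : InfinitePlace ℚ) (x.2 : ℚ))) = hgt x := by
      unfold hgt
      congr 1
      rw [Rat.infinitePlace_apply, Rat.infinitePlace_apply, Nat.cast_max, Nat.cast_natAbs,
        Nat.cast_natAbs, Int.cast_abs, Int.cast_abs]
      push_cast
      rfl
    rw [h8]
    ring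
  rw [e2]
  have e3 : ∑ w : InfinitePlace ℚ, (w.mult : ℝ) * -Real.log (w (x.2 : ℚ)) =
      -∑ w : InfinitePlace ℚ, (w.mult : ℝ) * Real.log (w (x.2 : ℚ)) := by
    rw [← Finset.sum_neg_distrib]
    exact Finset.sum_congr rfl fun w _ => by ring
  rw [e3]
  linarith

/-- the points over `ℚ` -/
def aQ (α : Fin q → ℤ × ℤ) : Fin q → ℚ × ℚ := fun i => (((α i).1 : ℚ), ((α i).2 : ℚ))

open Pool.Agent.H691R3 Pool.Agent.H813R3.Abc in
theorem wg_eq (α : Fin q → ℤ × ℤ) (i : Fin q) (x : ℤ × ℤ) (h2 : x.2 ≠ 0) :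
    wg (aff ((x.1 : ℚ) / x.2)) (aQ α i) = (Lf α i x : ℚ) / x.2 := by
  have h2Q : (x.2 : ℚ) ≠ 0 := by exact_mod_cast h2
  unfold wg aQ aff Lf
  push_cast
  field_simp

open Pool.Agent.H691R3 Pool.Agent.H813R3.Abc in
theorem lam_eq (α : Fin q → ℤ × ℤ) (hcop : ∀ i, IsCoprime (α i).1 (α i).2) (i : Fin q)
    {x : ℤ × ℤ} (h : IsCoprime x.1 x.2) (h2 : x.2 ≠ 0) (v : HeightOneSpectrum (𝓞 ℚ)) :
    lamA (fv v) (aff ((x.1 : ℚ) / x.2)) (aQ α i) = -Real.log (fv v (Lf α i x : ℚ)) := by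
  have h2Q : (x.2 : ℚ) ≠ 0 := by exact_mod_cast h2
  have hf : 0 < fv v (x.2 : ℚ) := (fv v).pos h2Q
  unfold lamA
  have e1 : (aff ((x.1 : ℚ) / x.2)).1 * (aQ α i).2 - (aff ((x.1 : ℚ) / x.2)).2 * (aQ α i).1 =
      (Lf α i x : ℚ) / x.2 := wg_eq α i x h2
  have e2 : max (fv v (aff ((x.1 : ℚ) / x.2)).1) (fv v (aff ((x.1 : ℚ) / x.2)).2) =
      1 / fv v (x.2 : ℚ) := by
    show max (fv v ((x.1 : ℚ) / x.2)) (fv v 1) = _
    rw [max_aff (fv v) x.1 x.2 h2, fv_max h v]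
  have e3 : max (fv v (aQ α i).1) (fv v (aQ α i).2) = 1 := fv_max (hcop i) v
  rw [e1, e2, e3, map_div₀, mul_one, ← Real.log_inv]
  congr 1
  field_simp

open Pool.Agent.H691R3 Pool.Agent.H813R3.Abc in
theorem lam_le (α : Fin q → ℤ × ℤ) (hcop : ∀ i, IsCoprime (α i).1 (α i).2) (i : Fin q)
    {x : ℤ × ℤ} (h : IsCoprime x.1 x.2) (h2 : x.2 ≠ 0) (hL : Lf α i x ≠ 0)
    (v : HeightOneSpectrum (𝓞 ℚ)) :
    min (lamA (fv v) (aff ((x.1 : ℚ) / x.2)) (aQ α i)) (Real.log (Nv v)) ≤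
      if pr v ∈ (Lf α i x).natAbs.primeFactors then Real.log (pr v) else 0 := by
  by_cases h3 : pr v ∈ (Lf α i x).natAbs.primeFactors
  · rw [if_pos h3]
    refine (min_le_right _ _).trans ?_
    exact Real.log_le_log (lt_of_lt_of_le two_pos (two_le_Nv v)) (Nv_le v)
  · rw [if_neg h3]
    refine (min_le_left _ _).trans ?_
    rw [lam_eq α hcop i h h2]
    have h4 : fv v (Lf α i x : ℚ) = 1 := by
      by_contra h5
      apply h3
      rw [Nat.mem_primeFactors]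
      exact ⟨pr_prime v, Int.natCast_dvd.1 (dvd_of_fv v _ h5), Int.natAbs_ne_zero.2 hL⟩
    rw [h4, Real.log_one, neg_zero]

/-- the primes of `S` as prime ideals -/
def TS (S : Finset ℕ) : Set (HeightOneSpectrum (𝓞 ℚ)) := {v | Pool.Agent.H813R3.Abc.pr v ∈ S}

theorem TS_finite (S : Finset ℕ) : (TS S).Finite :=
  Set.Finite.preimage (Pool.Agent.H813R3.Abc.pr_inj.injOn) (Finset.finite_toSet S)

open Pool.Agent.H691R3 Pool.Agent.H813R3.Abc in
theorem NTc_le (α : Fin q → ℤ × ℤ) (hcop : ∀ i, IsCoprime (α i).1 (α i).2) (S : Finset ℕ)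
    {x : ℤ × ℤ} (h : IsCoprime x.1 x.2) (h2 : x.2 ≠ 0) (hL : ∀ i, Lf α i x ≠ 0) :
    NTc (TS S) (aQ α) ((x.1 : ℚ) / x.2) ≤ N1 α S x := by
  classical
  have hRfin : {v : HeightOneSpectrum (𝓞 ℚ) |
      ∃ i, pr v ∈ (Lf α i x).natAbs.primeFactors}.Finite := by
    have h1 : {v : HeightOneSpectrum (𝓞 ℚ) | ∃ i, pr v ∈ (Lf α i x).natAbs.primeFactors} ⊆
        ⋃ i : Fin q, {v | pr v ∈ (Lf α i x).natAbs.primeFactors} := by
      rintro v ⟨i, hi⟩
      exact Set.mem_iUnion.2 ⟨i, hi⟩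
    refine (Set.finite_iUnion fun i => ?_).subset h1
    exact Set.Finite.preimage (pr_inj.injOn) (Finset.finite_toSet _)
  set R := hRfin.toFinset with hR
  unfold NTc
  have e1 : ∀ v : HeightOneSpectrum (𝓞 ℚ), (∑ᶠ _ : v ∉ TS S, ∑ l : Fin q,
      min (lamA (fv v) (aff ((x.1 : ℚ) / x.2)) (aQ α l)) (Real.log (Nv v))) =
      if v ∉ TS S then ∑ l : Fin q,
        min (lamA (fv v) (aff ((x.1 : ℚ) / x.2)) (aQ α l)) (Real.log (Nv v)) else 0 := by
    intro v
    rw [finsum_eq_if]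
  rw [finsum_congr e1, finsum_eq_sum_of_support_subset (s := R)]
  · have h3 : ∀ v ∈ R, (if v ∉ TS S then ∑ l : Fin q,
        min (lamA (fv v) (aff ((x.1 : ℚ) / x.2)) (aQ α l)) (Real.log (Nv v)) else 0) ≤
        ∑ l : Fin q, if pr v ∈ (Lf α l x).natAbs.primeFactors \ S then Real.log (pr v) else 0 := by
      intro v _
      by_cases hv : v ∈ TS S
      · rw [if_neg (not_not.2 hv)]
        refine Finset.sum_nonneg fun l _ => ?_
        split_ifs
        · exact Real.log_natCast_nonneg _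
        · exact le_refl _
      · rw [if_pos hv]
        refine Finset.sum_le_sum fun l _ => ?_
        refine (lam_le α hcop l h h2 (hL l) v).trans (le_of_eq ?_)
        by_cases h4 : pr v ∈ (Lf α l x).natAbs.primeFactors
        · rw [if_pos h4, if_pos (Finset.mem_sdiff.2 ⟨h4, hv⟩)]
        · rw [if_neg h4, if_neg fun h5 => h4 (Finset.mem_sdiff.1 h5).1]
    refine (Finset.sum_le_sum h3).trans ?_
    rw [Finset.sum_comm]
    unfold N1
    refine Finset.sum_le_sum fun l _ => ?_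
    rw [← Finset.sum_filter, ← Finset.sum_image (f := fun p : ℕ => Real.log (p : ℝ))
      (fun a _ b _ hab => pr_inj hab)]
    refine Finset.sum_le_sum_of_subset_of_nonneg ?_ fun p _ _ => Real.log_natCast_nonneg p
    intro p hp
    rw [Finset.mem_image] at hp
    obtain ⟨v, hv, rfl⟩ := hp
    exact (Finset.mem_filter.1 hv).2
  · intro v hv
    rw [Function.mem_support] at hv
    rw [hR, Set.Finite.coe_toFinset]
    by_contra hcon
    apply hv
    have hcon' : ∀ i, pr v ∉ (Lf α i x).natAbs.primeFactors := fun i hi => hcon ⟨i, hi⟩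
    by_cases h3 : v ∈ TS S
    · rw [if_neg (not_not.2 h3)]
    · rw [if_pos h3]
      refine Finset.sum_eq_zero fun l _ => ?_
      have h4 : fv v (Lf α l x : ℚ) = 1 := by
        by_contra h5
        apply hcon' l
        rw [Nat.mem_primeFactors]
        exact ⟨pr_prime v, Int.natCast_dvd.1 (dvd_of_fv v _ h5), Int.natAbs_ne_zero.2 (hL l)⟩
      rw [lam_eq α hcop l h h2, h4, Real.log_one, neg_zero]
      refine min_eq_left (Real.log_nonneg ?_)
      exact le_trans one_le_two (two_le_Nv v)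

open Pool.Agent.H691R3 Pool.Agent.H813R3.Abc in
/-- the tail bound -/
theorem tail_bound (hq : 3 ≤ q) (α : Fin q → ℤ × ℤ) (hcop : ∀ i, IsCoprime (α i).1 (α i).2)
    (hα : ∀ i j, i ≠ j → (α i).1 * (α j).2 ≠ (α j).1 * (α i).2) (S : Finset ℕ)
    (hfin : ∀ X : ℝ, 1 ≤ X → (Pts α S X).Finite) (c : ℝ) (hc0 : 0 ≤ c) (hc1 : c < 1 - 2 / q) :
    ∃ C ν : ℝ, 0 < C ∧ 0 < ν ∧ ∀ X τ : ℝ, 1 ≤ X → 0 ≤ τ →
    (({x | x ∈ Pts α S X ∧ N1 α S x + τ < q * hgt x} : Set (ℤ × ℤ)).ncard : ℝ) ≤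
      C * (Real.exp (-(c * τ)) + X ^ (-ν)) * X ^ (2 / (q : ℝ)) := by
  classical
  have hq0 : (0 : ℝ) < q := by exact_mod_cast (by omega : 0 < q)
  obtain ⟨C, ν, hC, hν, hmain⟩ := Pool.Agent.R365.SH.all_upper (K := ℚ) hq (TS S) (TS_finite S)
    (aQ α) (fun l h0 => by
      have h1 : ((α l).1 : ℚ) = 0 := congrArg Prod.fst h0
      have h2 : ((α l).2 : ℚ) = 0 := congrArg Prod.snd h0
      have h3 := hcop l
      rw [show (α l).1 = 0 by exact_mod_cast h1, show (α l).2 = 0 by exact_mod_cast h2] at h3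
      exact not_isUnit_zero (isCoprime_zero_left.1 h3))
    (fun i j hij h0 => by
      apply hα i j hij
      have h1 : ((α i).1 : ℚ) * (α j).2 - (α i).2 * (α j).1 = 0 := h0
      have h2 : ((α i).1 : ℚ) * (α j).2 = (α j).1 * (α i).2 := by linarith
      exact_mod_cast h2) c hc0 hc1
  refine ⟨C + 1, min ν (2 / q), by positivity, lt_min hν (by positivity),
    fun X τ hX hτ => ?_⟩
  have hX0 : 0 < X := by linarith
  have hlog : 0 ≤ Real.log X := Real.log_nonneg hX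
  set E : Set (ℤ × ℤ) := {x | x ∈ Pts α S X ∧ N1 α S x + τ < q * hgt x} with hE
  have hEfin : E.Finite := (hfin X hX).subset fun x hx => hx.1
  set E1 : Finset (ℤ × ℤ) := hEfin.toFinset.filter fun x => x.2 ≠ 0 with hE1
  set φ : ℤ × ℤ → ℚ := fun x => (x.1 : ℚ) / x.2 with hφ
  have hinj : Set.InjOn φ (E1 : Set (ℤ × ℤ)) := by
    intro x hx y hy hxy
    rw [Finset.mem_coe, hE1, Finset.mem_filter, hEfin.mem_toFinset] at hx hy
    obtain ⟨⟨⟨⟨hx1, hx2⟩, -⟩, -⟩, hx3⟩ := hx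
    obtain ⟨⟨⟨⟨hy1, hy2⟩, -⟩, -⟩, hy3⟩ := hy
    have hx4 : 0 < x.2 := by omega
    have hy4 : 0 < y.2 := by omega
    have e1 := Rat.div_int_inj hx4 hy4 (Int.isCoprime_iff_gcd_eq_one.1 hx1)
      (Int.isCoprime_iff_gcd_eq_one.1 hy1) hxy
    exact Prod.ext e1.1 e1.2
  have h1 := hmain (Real.log X) τ hlog (E1.image φ) (by
    intro z hz
    rw [Finset.mem_image] at hz
    obtain ⟨x, hx, rfl⟩ := hz
    rw [hE1, Finset.mem_filter, hEfin.mem_toFinset] at hx
    obtain ⟨⟨⟨⟨hx1, hx2⟩, hx3, hx4⟩, hx5⟩, hx6⟩ := hx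
    have hN := NTc_le α hcop S hx1 hx6 hx3
    refine ⟨fun l => ?_, hN.trans hx4, ?_⟩
    · rw [wg_eq α l x hx6]
      have : (x.2 : ℚ) ≠ 0 := by exact_mod_cast hx6
      exact div_ne_zero (by exact_mod_cast hx3 l) this
    · show τ ≤ q * hr (aff ((x.1 : ℚ) / x.2)) - NTc (TS S) (aQ α) ((x.1 : ℚ) / x.2)
      rw [hr_eq hx1 hx6]
      linarith)
  rw [Finset.card_image_of_injOn hinj] at h1
  have h2 : E.ncard ≤ E1.card + 1 := by
    rw [Set.ncard_eq_toFinset_card _ hEfin]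
    have h3 : hEfin.toFinset ⊆ E1 ∪ {(1, 0)} := by
      intro x hx
      rw [Finset.mem_union, Finset.mem_singleton]
      by_cases h4 : x.2 = 0
      · right
        rw [hEfin.mem_toFinset] at hx
        obtain ⟨⟨⟨hx1, hx2⟩, -⟩, -⟩ := hx
        rw [h4, isCoprime_zero_right, Int.isUnit_iff] at hx1
        refine Prod.ext ?_ h4
        show x.1 = 1
        omega
      · left
        rw [hE1, Finset.mem_filter]
        exact ⟨hx, h4⟩
    refine (Finset.card_le_card h3).trans ((Finset.card_union_le _ _).trans ?_)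
    rw [Finset.card_singleton]
  have h3 : (E.ncard : ℝ) ≤ (E1.card : ℝ) + 1 := by exact_mod_cast h2
  have e1 : Real.exp (2 / q * Real.log X - c * τ) = X ^ (2 / (q : ℝ)) * Real.exp (-(c * τ)) := by
    rw [sub_eq_add_neg, Real.exp_add, Real.rpow_def_of_pos hX0, mul_comm (Real.log X)]
  have e2 : Real.exp ((2 / q - ν) * Real.log X) ≤ X ^ (-(min ν (2 / (q : ℝ)))) *
      X ^ (2 / (q : ℝ)) := by
    rw [mul_comm, ← Real.rpow_def_of_pos hX0, ← Real.rpow_add hX0]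
    exact Real.rpow_le_rpow_of_exponent_le hX (by linarith [min_le_left ν (2 / (q : ℝ))])
  have e3 : 1 ≤ X ^ (-(min ν (2 / (q : ℝ)))) * X ^ (2 / (q : ℝ)) := by
    rw [← Real.rpow_add hX0]
    exact Real.one_le_rpow hX (by linarith [min_le_right ν (2 / (q : ℝ))])
  have e4 : 0 ≤ X ^ (2 / (q : ℝ)) * Real.exp (-(c * τ)) := by positivity
  rw [e1] at h1
  have h4 := mul_le_mul_of_nonneg_left e2 hC.le
  calc (E.ncard : ℝ) ≤ (E1.card : ℝ) + 1 := h3
    _ ≤ C * (X ^ (2 / (q : ℝ)) * Real.exp (-(c * τ)) + Real.exp ((2 / q - ν) * Real.log X)) + 1 := by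
        linarith
    _ ≤ _ := by
        rw [mul_add] 
        nlinarith

end Pool.Agent.W5h35.LW
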